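import Pool.Agent.R988.Tor

/-! Locality of the resolvent for arbitrary (unbounded) real potentials. -/

set_option autoImplicit false
set_option linter.unusedSectionVars false
set_option linter.unusedVariables false

open scoped BigOperators ComplexConjugate
open Set

namespace Pool.Agent.N933.GS

open Pool.Agent.W788.LD.Spec (S symm summ_mul summ_shift)
open Pool.Agent.H4R2.LO (Zd)
open Pool.Agent.TH794.QE (Rs rs_exists)

variable {d : ℕ}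

/-- the energy estimate, arbitrary real potential -/
theorem energy (V : Zd d → ℝ) (e η : ℝ) (hη : 0 < η) (w g : Zd d → ℂ)
    (hw : Summable fun x => ‖w x‖ ^ 2) (hg : Summable fun x => ‖g x‖ ^ 2)
    (h : ∀ x, -S w x + (V x : ℂ) * w x - ((e : ℂ) + (η : ℂ) * Complex.I) * w x = g x) :
    η ^ 2 * ∑' x, ‖w x‖ ^ 2 ≤ ∑' x, ‖g x‖ ^ 2 := by
  obtain ⟨s1, s2, e1⟩ := symm w w hw hw
  have hp : ∀ x, conj (g x) * w x - conj (w x) * g x =
      (conj (w x) * S w x - conj (S w x) * w x) +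
        ((2 * η * ‖w x‖ ^ 2 : ℝ) : ℂ) * Complex.I := by
    intro x
    rw [← h x]
    have n1 : ((‖w x‖ ^ 2 : ℝ) : ℂ) = conj (w x) * w x := by
      rw [← Complex.normSq_eq_norm_sq, Complex.normSq_eq_conj_mul_self]
    have n2 : ((2 * η * ‖w x‖ ^ 2 : ℝ) : ℂ) = 2 * (η : ℂ) * (conj (w x) * w x) := by
      rw [← n1]
      push_cast
      ring
    rw [n2]
    simp only [map_add, map_mul, map_sub, map_neg, Complex.conj_ofReal, Complex.conj_I]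
    ring
  have sw : Summable fun x => ((2 * η * ‖w x‖ ^ 2 : ℝ) : ℂ) * Complex.I :=
    (Complex.summable_ofReal.2 (hw.mul_left (2 * η))).mul_right _
  have hsum : ∑' x, (conj (g x) * w x - conj (w x) * g x) =
      ((2 * η * ∑' x, ‖w x‖ ^ 2 : ℝ) : ℂ) * Complex.I := by
    rw [tsum_congr (L := .unconditional _) hp, (s1.sub s2).tsum_add sw, s1.tsum_sub s2, e1,
      sub_self, zero_add, tsum_mul_right, ← Complex.ofReal_tsum, tsum_mul_left]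
  have hb : ∀ x, ‖conj (g x) * w x - conj (w x) * g x‖ ≤ η⁻¹ * ‖g x‖ ^ 2 + η * ‖w x‖ ^ 2 := by
    intro x
    have h1 : ‖conj (g x) * w x - conj (w x) * g x‖ ≤ 2 * (‖g x‖ * ‖w x‖) := by
      refine (norm_sub_le _ _).trans (le_of_eq ?_)
      rw [norm_mul, norm_mul, Complex.norm_conj, Complex.norm_conj]
      ring
    refine h1.trans ?_
    have h2 : η⁻¹ * ‖g x‖ ^ 2 + η * ‖w x‖ ^ 2 - 2 * (‖g x‖ * ‖w x‖) =
        η⁻¹ * (‖g x‖ - η * ‖w x‖) ^ 2 := by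
      field_simp
      ring
    have h3 : 0 ≤ η⁻¹ * (‖g x‖ - η * ‖w x‖) ^ 2 := by positivity
    linarith
  have sb : Summable fun x => η⁻¹ * ‖g x‖ ^ 2 + η * ‖w x‖ ^ 2 :=
    (hg.mul_left _).add (hw.mul_left _)
  have h4 : ‖∑' x, (conj (g x) * w x - conj (w x) * g x)‖ ≤
      ∑' x, (η⁻¹ * ‖g x‖ ^ 2 + η * ‖w x‖ ^ 2) :=
    tsum_of_norm_bounded sb.hasSum hb
  have hW0 : 0 ≤ ∑' x, ‖w x‖ ^ 2 := tsum_nonneg fun x => by positivity
  rw [hsum, norm_mul, Complex.norm_I, mul_one, Complex.norm_real, Real.norm_eq_abs,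
    abs_of_nonneg (by positivity), (hg.mul_left _).tsum_add (hw.mul_left _), tsum_mul_left,
    tsum_mul_left] at h4
  have h5 : η * ∑' x, ‖w x‖ ^ 2 ≤ η⁻¹ * ∑' x, ‖g x‖ ^ 2 := by linarith
  have h6 := mul_le_mul_of_nonneg_left h5 hη.le
  rw [← mul_assoc, ← mul_assoc, mul_inv_cancel₀ hη.ne', one_mul] at h6
  calc η ^ 2 * ∑' x, ‖w x‖ ^ 2 = η * η * ∑' x, ‖w x‖ ^ 2 := by ring
    _ ≤ _ := h6

/-- the cut-off -/
noncomputable def chi (ρ : ℝ) (a x : Zd d) : ℝ := max 0 (min 1 (2 - ‖x - a‖ / ρ))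

theorem chi_nonneg (ρ : ℝ) (a x : Zd d) : 0 ≤ chi ρ a x := le_max_left _ _

theorem chi_le_one (ρ : ℝ) (a x : Zd d) : chi ρ a x ≤ 1 :=
  max_le zero_le_one (min_le_left _ _)

theorem chi_one {ρ : ℝ} (hρ : 0 < ρ) {a x : Zd d} (h : ‖x - a‖ ≤ ρ) : chi ρ a x = 1 := by
  have h1 : ‖x - a‖ / ρ ≤ 1 := (div_le_one hρ).2 h
  unfold chi
  rw [min_eq_left (by linarith), max_eq_right zero_le_one]

theorem chi_zero {ρ : ℝ} (hρ : 0 < ρ) {a x : Zd d} (h : 2 * ρ ≤ ‖x - a‖) : chi ρ a x = 0 := by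
  have h1 : 2 ≤ ‖x - a‖ / ρ := by
    rw [le_div_iff₀ hρ]
    exact h
  unfold chi
  rw [max_eq_left]
  exact (min_le_right _ _).trans (by linarith)

theorem chi_lip {ρ : ℝ} (hρ : 0 < ρ) (a x y : Zd d) : |chi ρ a x - chi ρ a y| ≤ ‖x - y‖ / ρ := by
  have h1 : |‖x - a‖ - ‖y - a‖| ≤ ‖x - y‖ := by
    have := abs_norm_sub_norm_le (x - a) (y - a)
    simpa using this
  have h2 : |(2 - ‖x - a‖ / ρ) - (2 - ‖y - a‖ / ρ)| ≤ ‖x - y‖ / ρ := by
    have e1 : (2 - ‖x - a‖ / ρ) - (2 - ‖y - a‖ / ρ) = -((‖x - a‖ - ‖y - a‖) / ρ) := by ring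
    rw [e1, abs_neg, abs_div, abs_of_pos hρ]
    gcongr
  unfold chi
  refine le_trans ?_ h2
  have h3 : |max 0 (min 1 (2 - ‖x - a‖ / ρ)) - max 0 (min 1 (2 - ‖y - a‖ / ρ))| ≤
      |min 1 (2 - ‖x - a‖ / ρ) - min 1 (2 - ‖y - a‖ / ρ)| := by
    refine (abs_max_sub_max_le_max 0 _ 0 _).trans ?_
    rw [sub_self, abs_zero]
    exact max_le (abs_nonneg _) le_rfl
  refine h3.trans ?_
  refine (abs_min_sub_min_le_max 1 _ 1 _).trans ?_
  rw [sub_self, abs_zero]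
  exact max_le (abs_nonneg _) le_rfl

theorem norm_single_int (i : Fin d) : ‖(Pi.single i 1 : Zd d)‖ = 1 := by
  rw [Pi.norm_single]
  simp

/-- the commutator with the cut-off -/
noncomputable def com (ρ : ℝ) (a : Zd d) (u : Zd d → ℂ) (x : Zd d) : ℂ :=
  S (fun y => (chi ρ a y : ℂ) * u y) x - (chi ρ a x : ℂ) * S u x

theorem com_eq (ρ : ℝ) (a : Zd d) (u : Zd d → ℂ) (x : Zd d) : com ρ a u x =
    ∑ i : Fin d, (((chi ρ a (x + Pi.single i 1) - chi ρ a x : ℝ) : ℂ) * u (x + Pi.single i 1) +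
      ((chi ρ a (x - Pi.single i 1) - chi ρ a x : ℝ) : ℂ) * u (x - Pi.single i 1)) := by
  unfold com S
  rw [Finset.mul_sum, ← Finset.sum_sub_distrib]
  refine Finset.sum_congr rfl fun i _ => ?_
  push_cast
  ring

theorem com_bd {ρ : ℝ} (hρ : 0 < ρ) (a : Zd d) (u : Zd d → ℂ) (x : Zd d) :
    ‖com ρ a u x‖ ^ 2 ≤ 2 * d / ρ ^ 2 *
      ∑ i : Fin d, (‖u (x + Pi.single i 1)‖ ^ 2 + ‖u (x - Pi.single i 1)‖ ^ 2) := by
  have h1 : ‖com ρ a u x‖ ≤ (1 / ρ) *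
      ∑ i : Fin d, (‖u (x + Pi.single i 1)‖ + ‖u (x - Pi.single i 1)‖) := by
    rw [com_eq, Finset.mul_sum]
    refine (norm_sum_le _ _).trans (Finset.sum_le_sum fun i _ => ?_)
    refine (norm_add_le _ _).trans ?_
    rw [norm_mul, norm_mul, Complex.norm_real, Complex.norm_real, Real.norm_eq_abs,
      Real.norm_eq_abs, mul_add]
    have a1 : |chi ρ a (x + Pi.single i 1) - chi ρ a x| ≤ 1 / ρ := by
      refine (chi_lip hρ a _ _).trans ?_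
      rw [add_sub_cancel_left, norm_single_int]
    have a2 : |chi ρ a (x - Pi.single i 1) - chi ρ a x| ≤ 1 / ρ := by
      refine (chi_lip hρ a _ _).trans ?_
      rw [sub_sub_cancel_left, norm_neg, norm_single_int]
    gcongr
  have h2 : ‖com ρ a u x‖ ^ 2 ≤ ((1 / ρ) *
      ∑ i : Fin d, (‖u (x + Pi.single i 1)‖ + ‖u (x - Pi.single i 1)‖)) ^ 2 :=
    pow_le_pow_left₀ (norm_nonneg _) h1 2
  refine h2.trans ?_
  have h3 : (∑ i : Fin d, (‖u (x + Pi.single i 1)‖ + ‖u (x - Pi.single i 1)‖)) ^ 2 ≤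
      d * ∑ i : Fin d, (‖u (x + Pi.single i 1)‖ + ‖u (x - Pi.single i 1)‖) ^ 2 := by
    have := sq_sum_le_card_mul_sum_sq (s := (Finset.univ : Finset (Fin d)))
      (f := fun i => ‖u (x + Pi.single i 1)‖ + ‖u (x - Pi.single i 1)‖)
    rwa [Finset.card_univ, Fintype.card_fin] at this
  have h4 : ∀ i : Fin d, (‖u (x + Pi.single i 1)‖ + ‖u (x - Pi.single i 1)‖) ^ 2 ≤
      2 * (‖u (x + Pi.single i 1)‖ ^ 2 + ‖u (x - Pi.single i 1)‖ ^ 2) := fun i => by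
    nlinarith [sq_nonneg (‖u (x + Pi.single i 1)‖ - ‖u (x - Pi.single i 1)‖)]
  have hd0 : (0 : ℝ) ≤ d := Nat.cast_nonneg d
  calc ((1 / ρ) * ∑ i : Fin d, (‖u (x + Pi.single i 1)‖ + ‖u (x - Pi.single i 1)‖)) ^ 2 =
      (1 / ρ ^ 2) * (∑ i : Fin d, (‖u (x + Pi.single i 1)‖ + ‖u (x - Pi.single i 1)‖)) ^ 2 := by
        rw [mul_pow, div_pow, one_pow]
    _ ≤ (1 / ρ ^ 2) * (d * ∑ i : Fin d,
        2 * (‖u (x + Pi.single i 1)‖ ^ 2 + ‖u (x - Pi.single i 1)‖ ^ 2)) := by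
        gcongr
        exact h3.trans (by gcongr with i _; exact h4 i)
    _ = _ := by
        rw [← Finset.mul_sum]
        ring

theorem shift_m (u : Zd d → ℂ) (e : Zd d) (hu : Summable fun x => ‖u x‖ ^ 2) :
    (Summable fun x => ‖u (x - e)‖ ^ 2) ∧ ∑' x, ‖u (x - e)‖ ^ 2 = ∑' x, ‖u x‖ ^ 2 :=
  ⟨(Equiv.subRight e).summable_iff.2 hu, (Equiv.subRight e).tsum_eq fun x => ‖u x‖ ^ 2⟩

theorem shift_p (u : Zd d → ℂ) (e : Zd d) (hu : Summable fun x => ‖u x‖ ^ 2) :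
    (Summable fun x => ‖u (x + e)‖ ^ 2) ∧ ∑' x, ‖u (x + e)‖ ^ 2 = ∑' x, ‖u x‖ ^ 2 :=
  ⟨(Equiv.addRight e).summable_iff.2 hu, (Equiv.addRight e).tsum_eq fun x => ‖u x‖ ^ 2⟩

/-- the commutator in `ℓ²` -/
theorem com_sum {ρ : ℝ} (hρ : 0 < ρ) (a : Zd d) (u : Zd d → ℂ)
    (hu : Summable fun x => ‖u x‖ ^ 2) : (Summable fun x => ‖com ρ a u x‖ ^ 2) ∧
    ∑' x, ‖com ρ a u x‖ ^ 2 ≤ 4 * d ^ 2 / ρ ^ 2 * ∑' x, ‖u x‖ ^ 2 := by
  have s1 : ∀ i : Fin d, Summable fun x => ‖u (x + Pi.single i 1)‖ ^ 2 + ‖u (x - Pi.single i 1)‖ ^ 2 :=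
    fun i => (shift_p u (Pi.single i 1) hu).1.add (shift_m u (Pi.single i 1) hu).1
  have s2 : Summable fun x => 2 * d / ρ ^ 2 *
      ∑ i : Fin d, (‖u (x + Pi.single i 1)‖ ^ 2 + ‖u (x - Pi.single i 1)‖ ^ 2) :=
    (summable_sum fun i _ => s1 i).mul_left _
  have s3 : Summable fun x => ‖com ρ a u x‖ ^ 2 :=
    Summable.of_nonneg_of_le (fun x => by positivity) (com_bd hρ a u) s2
  refine ⟨s3, (s3.tsum_le_tsum (com_bd hρ a u) s2).trans (le_of_eq ?_)⟩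
  rw [tsum_mul_left, Summable.tsum_finsetSum fun i _ => s1 i]
  have e1 : ∀ i : Fin d, ∑' x : Zd d, (‖u (x + Pi.single i 1)‖ ^ 2 + ‖u (x - Pi.single i 1)‖ ^ 2) =
      2 * ∑' x, ‖u x‖ ^ 2 := by
    intro i
    rw [(shift_p u (Pi.single i 1) hu).1.tsum_add (shift_m u (Pi.single i 1) hu).1,
      (shift_p u (Pi.single i 1) hu).2, (shift_m u (Pi.single i 1) hu).2]
    ring
  rw [Finset.sum_congr rfl fun i _ => e1 i, Finset.sum_const, Finset.card_univ, Fintype.card_fin,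
    nsmul_eq_mul]
  ring

/-- **locality of the resolvent**: the potentials agree near `a` -/
theorem cmp {V V' : Zd d → ℝ} {a : Zd d} {e η : ℝ} (hη : 0 < η) (hη1 : η ≤ 1) (hd : 1 ≤ d) {ρ : ℝ}
    (hρ : 0 < ρ) (hV : ∀ x, ‖x - a‖ ≤ 2 * ρ → V x = V' x) {u v : Zd d → ℂ}
    (hu : Rs d V' a e η u) (hv : Rs d V a e η v) :
    (Summable fun x => ‖u x - v x‖ ^ 2) ∧
    ∑' x, ‖u x - v x‖ ^ 2 ≤ 16 * d ^ 2 / ρ ^ 2 * (η⁻¹) ^ 4 := by
  have hd1 : (1 : ℝ) ≤ d := by exact_mod_cast hd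
  obtain ⟨j0⟩ : Nonempty (Fin d) := ⟨⟨0, hd⟩⟩
  have hun := Pool.Agent.R988.Tor.rs_norm hu hη hη1 j0
  obtain ⟨c1, c2⟩ := com_sum hρ a u hu.sq
  -- the cut off solution
  obtain ⟨w, hw⟩ : ∃ w : Zd d → ℂ, w = fun x => (chi ρ a x : ℂ) * u x - v x := ⟨_, rfl⟩
  have hχu : Summable fun x => ‖(chi ρ a x : ℂ) * u x‖ ^ 2 := by
    refine Summable.of_nonneg_of_le (fun x => by positivity) (fun x => ?_) hu.sq
    rw [norm_mul, Complex.norm_real, Real.norm_eq_abs, abs_of_nonneg (chi_nonneg ρ a x), mul_pow]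
    have h1 := chi_nonneg ρ a x
    have h2 : chi ρ a x ^ 2 ≤ 1 := pow_le_one₀ h1 (chi_le_one ρ a x)
    exact mul_le_of_le_one_left (by positivity) h2
  have sq2 : ∀ p q : ℂ, ‖p + q‖ ^ 2 ≤ 2 * (‖p‖ ^ 2 + ‖q‖ ^ 2) := by
    intro p q
    have h5 := pow_le_pow_left₀ (norm_nonneg _) (norm_add_le p q) 2
    nlinarith [sq_nonneg (‖p‖ - ‖q‖)]
  have sq2' : ∀ p q : ℂ, ‖p - q‖ ^ 2 ≤ 2 * (‖p‖ ^ 2 + ‖q‖ ^ 2) := by
    intro p q
    have := sq2 p (-q)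
    rwa [norm_neg, ← sub_eq_add_neg] at this
  have hws : Summable fun x => ‖w x‖ ^ 2 := by
    refine Summable.of_nonneg_of_le (fun x => by positivity) (fun x => ?_)
      ((hχu.add hv.sq).mul_left 2)
    rw [hw]
    exact sq2' _ _
  have heq : ∀ x, -S w x + (V x : ℂ) * w x - ((e : ℂ) + (η : ℂ) * Complex.I) * w x =
      -com ρ a u x := by
    intro x
    have h1 := hu.eq x
    have h2 := hv.eq x
    have h3 : S w x = S (fun y => (chi ρ a y : ℂ) * u y) x - S v x := by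
      rw [hw]
      unfold S
      rw [← Finset.sum_sub_distrib]
      refine Finset.sum_congr rfl fun i _ => ?_
      ring
    have h4 : (V x : ℂ) * (chi ρ a x : ℂ) = (V' x : ℂ) * (chi ρ a x : ℂ) := by
      by_cases hx : ‖x - a‖ ≤ 2 * ρ
      · rw [hV x hx]
      · rw [chi_zero hρ (by linarith)]
        simp
    have h5 : (chi ρ a x : ℂ) * (if x = a then (1 : ℂ) else 0) = if x = a then 1 else 0 := by
      by_cases hx : x = a
      · rw [if_pos hx, hx, chi_one hρ (by simpa using hρ.le)]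
        simp
      · rw [if_neg hx, mul_zero]
    unfold com
    rw [h3, hw]
    simp only
    linear_combination (chi ρ a x : ℂ) * h1 - h2 + u x * h4 + h5
  have hE := energy V e η hη w (fun x => -com ρ a u x) hws (by simpa using c1) heq
  simp only [norm_neg] at hE
  have hW : ∑' x, ‖w x‖ ^ 2 ≤ 4 * d ^ 2 / ρ ^ 2 * (η⁻¹) ^ 4 := by
    have h1 : η ^ 2 * ∑' x, ‖w x‖ ^ 2 ≤ 4 * d ^ 2 / ρ ^ 2 * (η⁻¹) ^ 2 :=
      hE.trans (c2.trans (by gcongr))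
    have h2 := mul_le_mul_of_nonneg_left h1 (show (0 : ℝ) ≤ (η⁻¹) ^ 2 by positivity)
    have e1 : (η⁻¹) ^ 2 * (η ^ 2 * ∑' x, ‖w x‖ ^ 2) = ∑' x, ‖w x‖ ^ 2 := by
      field_simp
    rw [e1] at h2
    refine h2.trans (le_of_eq ?_)
    ring
  -- the tail
  obtain ⟨T, hT⟩ : ∃ T : Zd d → ℝ, T = fun x => ∑ j : Fin d, ((x j : ℝ) - a j) ^ 2 * ‖u x‖ ^ 2 :=
    ⟨_, rfl⟩
  have hTs : Summable T := by
    rw [hT]
    exact summable_sum fun j _ => (Pool.Agent.R988.Tor.rs_qm hu hη hη1 j).1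
  have hTle : ∑' x, T x ≤ d * (4 * (η⁻¹) ^ 4) := by
    rw [hT, Summable.tsum_finsetSum fun j _ => (Pool.Agent.R988.Tor.rs_qm hu hη hη1 j).1]
    refine (Finset.sum_le_sum fun j _ => (Pool.Agent.R988.Tor.rs_qm hu hη hη1 j).2).trans ?_
    rw [Finset.sum_const, Finset.card_univ, Fintype.card_fin, nsmul_eq_mul]
  have htail : ∀ x, ‖(1 - (chi ρ a x : ℂ)) * u x‖ ^ 2 ≤ (1 / ρ ^ 2) * T x := by
    intro x
    have hT0 : 0 ≤ T x := by
      rw [hT]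
      exact Finset.sum_nonneg fun j _ => by positivity
    by_cases hx : ‖x - a‖ ≤ ρ
    · have h0 : ‖(1 - (chi ρ a x : ℂ)) * u x‖ ^ 2 = 0 := by
        rw [chi_one hρ hx]
        simp
      rw [h0]
      positivity
    · push Not at hx
      have h1 : ‖(1 - (chi ρ a x : ℂ)) * u x‖ ^ 2 ≤ ‖u x‖ ^ 2 := by
        have e1 : (1 - (chi ρ a x : ℂ)) = ((1 - chi ρ a x : ℝ) : ℂ) := by push_cast; ring
        rw [e1, norm_mul, Complex.norm_real, Real.norm_eq_abs, mul_pow, sq_abs]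
        have h2 := chi_nonneg ρ a x
        have h3 := chi_le_one ρ a x
        have h4 : (1 - chi ρ a x) ^ 2 ≤ 1 := by nlinarith
        exact mul_le_of_le_one_left (by positivity) h4
      refine h1.trans ?_
      -- a coordinate is large
      obtain ⟨j, hj⟩ : ∃ j : Fin d, ρ < ‖(x - a) j‖ := by
        by_contra hcon
        push Not at hcon
        exact absurd ((pi_norm_le_iff_of_nonneg hρ.le).2 hcon) (by linarith)
      have h5 : ρ ^ 2 ≤ ((x j : ℝ) - a j) ^ 2 := by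
        have e1 : ‖(x - a) j‖ = |(x j : ℝ) - a j| := by
          rw [Pi.sub_apply, Int.norm_eq_abs]
          push_cast
          rfl
        rw [e1] at hj
        rw [← sq_abs ((x j : ℝ) - a j)]
        exact pow_le_pow_left₀ hρ.le hj.le 2
      have h6 : ρ ^ 2 * ‖u x‖ ^ 2 ≤ T x := by
        rw [hT]
        refine le_trans ?_ (Finset.single_le_sum (f := fun j : Fin d =>
          ((x j : ℝ) - a j) ^ 2 * ‖u x‖ ^ 2) (fun j _ => by positivity) (Finset.mem_univ j))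
        gcongr
      rw [div_mul_eq_mul_div, one_mul, le_div_iff₀ (by positivity)]
      linarith
  have hts : Summable fun x => ‖(1 - (chi ρ a x : ℂ)) * u x‖ ^ 2 :=
    Summable.of_nonneg_of_le (fun x => by positivity) htail (hTs.mul_left _)
  have htt : ∑' x, ‖(1 - (chi ρ a x : ℂ)) * u x‖ ^ 2 ≤ 4 * d / ρ ^ 2 * (η⁻¹) ^ 4 := by
    refine (hts.tsum_le_tsum htail (hTs.mul_left _)).trans ?_
    rw [tsum_mul_left]
    calc 1 / ρ ^ 2 * ∑' x, T x ≤ 1 / ρ ^ 2 * (d * (4 * (η⁻¹) ^ 4)) := by gcongr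
      _ = _ := by ring
  have hpt : ∀ x, ‖u x - v x‖ ^ 2 ≤ 2 * (‖w x‖ ^ 2 + ‖(1 - (chi ρ a x : ℂ)) * u x‖ ^ 2) := by
    intro x
    have e1 : u x - v x = w x + (1 - (chi ρ a x : ℂ)) * u x := by
      rw [hw]
      ring
    rw [e1]
    exact sq2 _ _
  have hs2 : Summable fun x => 2 * (‖w x‖ ^ 2 + ‖(1 - (chi ρ a x : ℂ)) * u x‖ ^ 2) :=
    (hws.add hts).mul_left 2
  have hs3 : Summable fun x => ‖u x - v x‖ ^ 2 :=
    Summable.of_nonneg_of_le (fun x => by positivity) hpt hs2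
  refine ⟨hs3, (hs3.tsum_le_tsum hpt hs2).trans ?_⟩
  rw [tsum_mul_left, hws.tsum_add hts]
  have h8 : 4 * d / ρ ^ 2 * (η⁻¹) ^ 4 ≤ 4 * d ^ 2 / ρ ^ 2 * (η⁻¹) ^ 4 := by
    have : (d : ℝ) ≤ d ^ 2 := by nlinarith
    gcongr
  have e9 : 16 * d ^ 2 / ρ ^ 2 * (η⁻¹) ^ 4 = 4 * (4 * d ^ 2 / ρ ^ 2 * (η⁻¹) ^ 4) := by ring
  rw [e9]
  linarith

end Pool.Agent.N933.GS
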