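import Pool.Agent.N933.GS.Flat
import Pool.Agent.W193.BK.ES
import Pool.Agent.W240.BK.Var
import Pool.Agent.W540.BK.Fac
import Pool.Agent.W240.BK.Fluct
import Pool.Agent.W340.BK.Conc
import Pool.Agent.W918.BK.Osc
import Pool.Agent.W240.BK.Two
import Pool.Agent.W465.BK.QB
import Pool.Agent.W475.BK.Low
import Pool.Agent.W975.BK.Sup
import Pool.Agent.W790.BK.ADM
import Pool.Agent.W475.BK.Inv
import Pool.Agent.W351.BK.Mb
import Pool.Agent.W363.BK.Site
import Pool.Agent.W261.BK.Third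

/-! Local smoothing for Gaussian disorder. -/

set_option autoImplicit false
set_option linter.unusedSectionVars false
set_option linter.unusedVariables false

open scoped BigOperators ENNReal
open MeasureTheory ProbabilityTheory Set

namespace Pool.Agent.N933.GS

open Pool.Agent.H4R2.LO (Zd)
open Pool.Agent.W788.BK
open Pool.Agent.W788.BK.Num

/-- the law of `tr b ξ / c` -/
theorem trlaw (b c : ℝ) (hb : 0 < b) (hc : 0 < c) :
    (Measurable fun s => tr b s / c) ∧ IsProbabilityMeasure (γ1.map fun s => tr b s / c) ∧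
    (∀ᵐ s ∂(γ1.map fun s => tr b s / c), |s| ≤ b / c) ∧
    ∫ s, s ∂(γ1.map fun s => tr b s / c) = 0 ∧
    ∫ s, s ^ 2 ∂(γ1.map fun s => tr b s / c) = (∫ s, tr b s ^ 2 ∂γ1) / c ^ 2 := by
  have hm : Measurable fun s => tr b s / c := (tr_meas b).div_const c
  refine ⟨hm, Measure.isProbabilityMeasure_map hm.aemeasurable, ?_, ?_, ?_⟩
  · rw [ae_map_iff hm.aemeasurable (measurableSet_le (by fun_prop) (by fun_prop))]
    refine Filter.Eventually.of_forall fun s => ?_
    rw [abs_div, abs_of_pos hc]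
    have := tr_le b s hb.le
    gcongr
  · rw [integral_map hm.aemeasurable (by fun_prop), integral_div, tr_mean, zero_div]
  · rw [integral_map hm.aemeasurable (by fun_prop)]
    simp only [div_pow]
    rw [integral_div]

/-- the event for the truncated disorder, transferred -/
theorem event {d : ℕ} (b c R p q : ℝ) (hb : 0 < b) (hc : 0 < c) (hR : 0 ≤ R)
    (G' : Set (Zd d → ℝ)) (hG' : MeasurableSet G')
    (hP : 1 - p ≤ (Measure.infinitePi fun _ : Zd d => γ1.map fun s => tr b s / c).real G')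
    (hq : (2 * R + 1) ^ d * (2 * Real.exp (-b ^ 2 / 2)) ≤ q) :
    ∃ G : Set (Zd d → ℝ), MeasurableSet G ∧
      1 - (p + q) ≤ (Measure.infinitePi fun _ : Zd d => γ1).real G ∧
      ∀ ξ ∈ G, (fun x => tr b (ξ x) / c) ∈ G' ∧ ∀ x, ‖x‖ ≤ R → |ξ x| ≤ b := by
  obtain ⟨hm, hp, -, -, -⟩ := trlaw b c hb hc
  obtain ⟨m1, m2⟩ := pull (d := d) γ1 _ (fun s => tr b s / c) hm rfl G' hG'
  refine ⟨_ ∩ bdBox d b R, m1.inter (bdBox_meas d b R), ?_, fun ξ hξ => ⟨hξ.1, hξ.2⟩⟩
  refine inter_prob _ _ _ m1 (bdBox_meas d b R) p q ?_ ?_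
  · rw [m2]
    exact hP
  · have h1 := bdBox_prob (d := d) γ1 b R hR
    have h2 := tail b hb.le
    have h3 : (2 * R + 1) ^ d * γ1.real {s | b < |s|} ≤ q := le_trans (by gcongr) hq
    linarith

/-- **local smoothing for Gaussian disorder** -/
theorem smG (d : ℕ) (hd : 3 ≤ d) : ∃ y0 : ℝ, ∀ y : ℝ, y0 ≤ y →
    ∃ G : Set (Zd d → ℝ), MeasurableSet G ∧
      1 - Real.exp (-Real.exp (1 / 102 * y)) ≤ (Measure.infinitePi fun _ : Zd d => γ1).real G ∧
      ∀ ξ ∈ G, SM1 d 1 (Real.exp (Real.exp (1 / 102 * y)))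
        (Real.exp (-(17 / 8) * (101 / 102 * y))) (2 * (192 * (C1 * (17 / 8 * (101 / 102 * y)))))
        (fun x => Real.exp (-1 * y) * ξ x) := by
  obtain ⟨y0, h0⟩ := engine
    (Pool.Agent.W261.BK.third Pool.Agent.W540.BK.fac)
    (Pool.Agent.W240.BK.fluct (Pool.Agent.W240.BK.var Pool.Agent.W193.BK.ES.es))
    Pool.Agent.W475.BK.inv Pool.Agent.W351.BK.mb
    (Pool.Agent.W340.BK.Conc.conc Pool.Agent.W193.BK.ES.es)
    Pool.Agent.W975.BK.sup Pool.Agent.W363.BK.site
    (Pool.Agent.W465.BK.qb (Pool.Agent.W240.BK.two Pool.Agent.W918.BK.Osc.osc))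
    Pool.Agent.W475.BK.low Pool.Agent.W790.BK.ADM.adm d hd 1 one_pos
  obtain ⟨y2, hy2⟩ := Filter.eventually_atTop.1
    ((ev2 (3 + 4 * d) 0 (1 / 102) 1 (by norm_num)).and
    ((ev2 2 (1 / 102) (101 / 10200) 0 (by norm_num)).and
    (ev2 (4 * (d + 1)) 0 (1 / 102) 0 (by norm_num))))
  obtain ⟨y1, hy1⟩ : ∃ y1, y1 = max (max (102 / 101 * y0) y2) 1 := ⟨_, rfl⟩
  refine ⟨y1, fun y hy => ?_⟩
  have hyy0 : 102 / 101 * y0 ≤ y :=
    le_trans (by rw [hy1]; exact (le_max_left _ _).trans (le_max_left _ _)) hy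
  have hyy2 : y2 ≤ y := le_trans (by rw [hy1]; exact (le_max_right _ _).trans (le_max_left _ _)) hy
  have hyone : 1 ≤ y := le_trans (by rw [hy1]; exact le_max_right _ _) hy
  obtain ⟨n1, n2, n3⟩ := hy2 y hyy2
  simp only [pow_zero, mul_one, pow_one, zero_mul, Real.exp_zero] at n1 n2 n3
  obtain ⟨X, hX⟩ : ∃ X, X = Real.exp (1 / 102 * y) := ⟨_, rfl⟩
  have hX0 : 0 < X := by rw [hX]; positivity
  have hX1 : 1 ≤ X := by rw [hX]; exact Real.one_le_exp (by positivity)
  rw [← hX] at n1 n2 n3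
  obtain ⟨y', hy'⟩ : ∃ y', y' = 101 / 102 * y := ⟨_, rfl⟩
  have hy0' : y0 ≤ y' := by rw [hy']; linarith
  rw [← hy', ← hX]
  obtain ⟨-, hp, hb1, hm0, -⟩ := trlaw X X hX0 hX0
  rw [div_self hX0.ne'] at hb1
  obtain ⟨G', hG', hP', hL'⟩ := h0 y' hy0' _ hp hb1 hm0
  have hexp : Real.exp (101 / 10200 * y) = Real.exp (y' / 100) := by
    rw [hy']
    congr 1
    ring
  rw [hexp] at n2
  have hq : (2 * (3 * Real.exp X) + 1) ^ d * (2 * Real.exp (-X ^ 2 / 2)) ≤
      1 / 2 * Real.exp (-X) := by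
    refine numP d X X hX0.le ?_
    have hd0 : (0 : ℝ) ≤ d := Nat.cast_nonneg d
    nlinarith
  obtain ⟨G, hG, hP, hGL⟩ := event X X (3 * Real.exp X) _ _ hX0 hX0 (by positivity) G' hG' hP' hq
  refine ⟨G, hG, ?_, fun ξ hξ => ?_⟩
  · refine le_trans ?_ hP
    have h1 : Real.exp (-Real.exp (y' / 100)) ≤ 1 / 2 * Real.exp (-X) := by
      have h2 : Real.exp (-Real.exp (y' / 100)) ≤ Real.exp (-1 + -X) := by
        apply Real.exp_le_exp.2
        linarith
      rw [Real.exp_add] at h2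
      have h3 : Real.exp (-1) ≤ 1 / 2 := by
        rw [Real.exp_neg, one_div]
        apply inv_anti₀ (by norm_num)
        have := Real.exp_one_gt_d9
        linarith
      exact h2.trans (by gcongr)
    linarith
  · obtain ⟨h1, h2⟩ := hGL ξ hξ
    have h3 := hL' _ h1
    have hsm : SM1 d 1 (Real.exp (Real.exp (y' / 100))) (Real.exp (-(17 / 8) * y'))
        (192 * (C1 * (17 / 8 * y'))) (fun x => Real.exp (-1 * y') * (tr X (ξ x) / X)) := by
      intro E u f hu hf heq a ha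
      refine h3 E u f hu hf (fun x => ?_) a ha
      rw [← heq x]
      ring
    have hC1 := C1_ge
    have hC10 : 0 < C1 := by linarith
    have hy'0 : 0 ≤ y' := by rw [hy']; positivity
    refine sm1_local _ _ _ _ _ _ (Real.exp_pos _) (by positivity) (Real.exp_pos _) ?_ ?_ ?_ hsm
    · apply Real.exp_le_exp.2
      linarith
    · have hd0 : (0 : ℝ) ≤ d := Nat.cast_nonneg d
      have k1 : Real.exp (3 * y + 4 * d * y) ≤ Real.exp X := by
        apply Real.exp_le_exp.2
        linarith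
      have k2 : Real.exp (-3 * y) ≤ Real.exp (-(17 / 8) * y') := by
        apply Real.exp_le_exp.2
        rw [hy']
        linarith
      have k3 : (4 * d : ℝ) ≤ Real.exp (4 * d * y) := by
        have := Real.add_one_le_exp (4 * (d : ℝ) * y)
        have : (4 * d : ℝ) * 1 ≤ 4 * d * y := by gcongr
        linarith
      have k4 : 4 * d ≤ Real.exp (-(17 / 8) * y') * Real.exp X := by
        calc (4 * d : ℝ) ≤ Real.exp (4 * d * y) := k3
          _ = Real.exp (-3 * y) * Real.exp (3 * y + 4 * d * y) := by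
              rw [← Real.exp_add]
              congr 1
              ring
          _ ≤ _ := by gcongr
      have k5 : (4 * d : ℝ) ^ 2 ≤ (Real.exp (-(17 / 8) * y') * Real.exp X) ^ 2 := by gcongr
      rw [mul_pow, mul_pow] at k5
      have k6 : 0 ≤ Real.exp (-(17 / 8) * y') ^ 2 * Real.exp X ^ 2 := by positivity
      linarith
    · intro x hx
      rw [tr_of X (ξ x) (h2 x hx)]
      have e1 : Real.exp (-1 * y) = Real.exp (-1 * y') * X⁻¹ := by
        rw [hX, ← Real.exp_neg, ← Real.exp_add, hy']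
        congr 1
        ring
      rw [e1, div_eq_mul_inv]
      ring

end Pool.Agent.N933.GS
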