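import Pool.Agent.N933.GS.Prof
import Pool.Agent.N933.GS.FlatG
import Pool.Agent.N933.GK.Base

/-! The profile of the resolvent for Gaussian disorder. -/

set_option autoImplicit false
set_option linter.unusedSectionVars false
set_option linter.unusedVariables false

open scoped BigOperators ENNReal ComplexConjugate Topology
open MeasureTheory ProbabilityTheory Set Filter

namespace Pool.Agent.N933.GS

open Pool.Agent.W788.LD.Spec (S symm summ_mul summ_shift)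
open Pool.Agent.H4R2.LO (Zd)
open Pool.Agent.W788.BK.Num
open Pool.Agent.TH794.LL2 (hexle)
open Pool.Agent.TH794.HK (ph Tg ph_norm)
open Pool.Agent.TH794.QE (Rs RegE)
open Pool.Agent.TH794.QD (GF F0 F1)
open Pool.Agent.N933.GK (baseG)

variable {d : ℕ}

/-- changing the variance in the profile -/
theorem Tg_var (γ0 γ1' : ℝ → ℂ) (η s E V K : ℝ) (q : Fin d → ℝ) (hη : 0 < η) (hs : 0 < s)
    (hV : 1 / 2 ≤ V) (hV1 : V ≤ 1) (hq : ∑ i, q i ^ 2 ≤ K) (h0 : 0 < (γ0 E).im)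
    (h1 : 0 ≤ (γ1' E).im) (h10 : (γ1' E).im ≤ (γ0 E).im) :
    |Tg γ0 γ1' η (s ^ 2 * V) E (fun i => Real.sqrt (η * s ^ 2) * q i) -
      (γ0 E).im / (1 + (γ1' E).im / (γ0 E).im ^ 2 * ∑ i, q i ^ 2)| ≤ 2 * K * (1 - V) := by
  obtain ⟨Q, hQ⟩ : ∃ Q, Q = ∑ i, q i ^ 2 := ⟨_, rfl⟩
  obtain ⟨G, hG⟩ : ∃ G, G = (γ0 E).im := ⟨_, rfl⟩
  obtain ⟨G1, hG1⟩ : ∃ G1, G1 = (γ1' E).im := ⟨_, rfl⟩
  have hQ0 : 0 ≤ Q := by rw [hQ]; exact Finset.sum_nonneg fun i _ => sq_nonneg _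
  have hV0 : 0 < V := by linarith
  have hsum : ∑ i, (Real.sqrt (η * s ^ 2) * q i) ^ 2 = η * s ^ 2 * Q := by
    rw [hQ, Finset.mul_sum]
    refine Finset.sum_congr rfl fun i _ => ?_
    rw [mul_pow, Real.sq_sqrt (by positivity)]
  unfold Tg
  rw [hsum, ← hQ, ← hG, ← hG1]
  rw [← hG] at h0 h10
  rw [← hG1] at h1 h10
  rw [← hQ] at hq
  obtain ⟨D, hD⟩ : ∃ D, D = G1 / G ^ 2 := ⟨_, rfl⟩
  have hD0 : 0 ≤ D := by rw [hD]; positivity
  have hGD : G * D ≤ 1 := by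
    rw [hD]
    have e1 : G * (G1 / G ^ 2) = G1 / G := by field_simp
    rw [e1, div_le_one h0]
    exact h10
  rw [← hD]
  have e1 : η * s ^ 2 * Q / (η * (s ^ 2 * V)) = Q / V := by
    field_simp
  rw [e1]
  obtain ⟨x, hx⟩ : ∃ x, x = Q / V := ⟨_, rfl⟩
  rw [← hx]
  have hxQ : Q ≤ x := by
    rw [hx, le_div_iff₀ hV0]
    exact mul_le_of_le_one_right hQ0 hV1
  have hxd : x - Q ≤ 2 * K * (1 - V) := by
    have e2 : x - Q = Q * ((1 - V) / V) := by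
      rw [hx]
      field_simp
    have h3 : (1 - V) / V ≤ 2 * (1 - V) := by
      rw [div_le_iff₀ hV0]
      nlinarith
    have h4 : 0 ≤ 2 * (1 - V) := by linarith
    rw [e2]
    calc Q * ((1 - V) / V) ≤ Q * (2 * (1 - V)) := by gcongr
      _ ≤ K * (2 * (1 - V)) := by gcongr
      _ = _ := by ring
  have hx0 : 0 ≤ x := hQ0.trans hxQ
  have a1 : 1 ≤ 1 + x * D := by
    have := mul_nonneg hx0 hD0
    linarith
  have a2 : 1 ≤ 1 + D * Q := by
    have := mul_nonneg hD0 hQ0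
    linarith
  have e3 : G / (1 + x * D) - G / (1 + D * Q) =
      -((G * D) * (x - Q) / ((1 + x * D) * (1 + D * Q))) := by
    have : 1 + x * D ≠ 0 := by positivity
    have : 1 + D * Q ≠ 0 := by positivity
    field_simp
    ring
  have hxQ0 : 0 ≤ x - Q := by linarith
  rw [e3, abs_neg, abs_of_nonneg (by positivity)]
  calc (G * D) * (x - Q) / ((1 + x * D) * (1 + D * Q)) ≤ (G * D) * (x - Q) := by
        apply div_le_self (by positivity)
        exact one_le_mul_of_one_le_of_one_le a1 a2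
    _ ≤ 1 * (x - Q) := by gcongr
    _ ≤ _ := by linarith

/-- **the profile of the resolvent for Gaussian disorder** -/
theorem diffG (d : ℕ) (hd : 2 ≤ d) : ∃ γ0 γ1' : ℝ → ℂ, ∀ κ : ℝ, 0 < κ → κ ≤ 1 →
    (∀ E, RegE d κ E →
      Tendsto (fun t : ℝ => GF (F0 d) ((E : ℂ) + (t : ℂ) * Complex.I)) (𝓝[>] 0) (𝓝 (γ0 E)) ∧
      Tendsto (fun t : ℝ => GF (F1 d) ((E : ℂ) + (t : ℂ) * Complex.I)) (𝓝[>] 0) (𝓝 (γ1' E)) ∧
      0 ≤ (γ1' E).im ∧ (γ1' E).im ≤ (γ0 E).im) ∧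
    (∃ m : ℝ, 0 < m ∧ ∀ E, RegE d κ E → |E| ≤ 2 * d - κ → m ≤ (γ1' E).im) ∧
    ∀ K : ℝ, 0 ≤ K → ∃ y0 : ℝ, ∀ y : ℝ, y0 ≤ y →
      ∃ G : Set (Zd d → ℝ), MeasurableSet G ∧
        1 - Real.exp (-Real.exp (1 / 268 * y)) ≤
          (Measure.infinitePi fun _ : Zd d => γ1).real G ∧
        ∀ ξ ∈ G, ∀ a : Zd d, ‖a‖ ≤ Real.exp (Real.exp (1 / 268 * y)) →
          ∀ e : ℝ, (RegE d κ (2 * d - e) ∧ |2 * (d : ℝ) - e| ≤ 2 * d - κ) →
          ∀ η : ℝ, Real.exp (-(105 / 52) * y) ≤ η → η ≤ Real.exp (-(261 / 130) * y) →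
          ∀ u : Zd d → ℂ, Rs d (fun x => 2 * d + Real.exp (-1 * y) * ξ x) a e η u →
          ∀ q : Fin d → ℝ, ∑ i, q i ^ 2 ≤ K →
            ‖((η : ℝ) : ℂ) * ∑' x, ph (fun i => Real.sqrt (η * Real.exp (-1 * y) ^ 2) * q i)
                (x - a) * ((‖u x‖ ^ 2 : ℝ) : ℂ) -
              (((γ0 (2 * d - e)).im / (1 + (γ1' (2 * d - e)).im / (γ0 (2 * d - e)).im ^ 2 *
                ∑ i, q i ^ 2) : ℝ) : ℂ)‖ ≤ Real.exp (-(1 / 320) * y) := by
  obtain ⟨γ0, γ1', h⟩ := baseG d hd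
  refine ⟨γ0, γ1', fun κ hκ hκ1 => ?_⟩
  obtain ⟨h1, ⟨m, hm, h2⟩, h3⟩ := h κ hκ hκ1
  refine ⟨h1, ⟨m, hm, h2⟩, fun K hK => ?_⟩
  obtain ⟨c0, hc0, h4⟩ := h3 (1 / 2) (2 * K) (by norm_num) (by positivity)
  obtain ⟨C4, hC4⟩ : ∃ C4, C4 = ∫ s, s ^ 4 ∂γ1 := ⟨_, rfl⟩
  have hC40 : 0 ≤ C4 := by
    rw [hC4]
    exact integral_nonneg fun s => by positivity
  have hd0 : (0 : ℝ) ≤ d := Nat.cast_nonneg d
  obtain ⟨y0, hy0⟩ := Filter.eventually_atTop.1
    ((Filter.eventually_ge_atTop (1 : ℝ)).and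
    ((ev2 (1 / c0) (-(401 / 402)) 0 0 (by norm_num)).and
    ((ev2 (2 * C4) (-(1 / 201)) 0 0 (by norm_num)).and
    ((ev2 (6 * (d + 1)) (1 / 268) (1 / 201) 0 (by norm_num)).and
    ((ev2 2 (1 / 268) (401 / 40602) 0 (by norm_num)).and
    ((ev2 (8 * d + 5) 0 (1 / 268) 1 (by norm_num)).and
    ((ev2 (2 * K * C4) (-(1 / 201)) (-(401 / 124620)) 0 (by norm_num)).and
    (ev2 3 (-(401 / 124620)) (-(1 / 320)) 0 (by norm_num)))))))))
  refine ⟨y0, fun y hy => ?_⟩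
  obtain ⟨hy1, n1, n2, n3, n4, n5, n6, n7⟩ := hy0 y hy
  simp only [pow_zero, mul_one, pow_one, zero_mul, Real.exp_zero] at n1 n2 n3 n4 n5 n6 n7
  -- the parameters
  obtain ⟨X, hX⟩ : ∃ X, X = Real.exp (1 / 402 * y) := ⟨_, rfl⟩
  have hX0 : 0 < X := by rw [hX]; positivity
  have hX2 : X ^ 2 = Real.exp (1 / 201 * y) := by
    rw [hX, ex_pow]
    norm_num
  obtain ⟨r, hr⟩ : ∃ r, r = Real.exp (1 / 268 * y) := ⟨_, rfl⟩
  have hr0 : 0 < r := by rw [hr]; positivity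
  have hr1 : 1 ≤ r := by rw [hr]; exact Real.one_le_exp (by positivity)
  obtain ⟨c, hc⟩ : ∃ c, c = Real.exp (-(401 / 402) * y) := ⟨_, rfl⟩
  have hcp : 0 < c := by rw [hc]; positivity
  have hcc0 : c ≤ c0 := by
    have h5 := mul_le_mul_of_nonneg_left n1 hc0.le
    rw [← mul_assoc, mul_one_div, div_self hc0.ne', one_mul, mul_one] at h5
    rw [hc]
    exact h5
  have hrp : ∀ p q : ℝ, q = -(401 / 402) * p → c ^ p = Real.exp (q * y) := by
    intro p q hpq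
    rw [hc, ← Real.exp_mul, hpq]
    congr 1
    ring
  have e1 : c ^ (-(1 / 101) : ℝ) = Real.exp (401 / 40602 * y) := hrp _ _ (by norm_num)
  have e2 : c ^ (401 / 200 : ℝ) = Real.exp (-(160801 / 80400) * y) := hrp _ _ (by norm_num)
  have e3 : c ^ (81 / 40 : ℝ) = Real.exp (-(32481 / 16080) * y) := hrp _ _ (by norm_num)
  have e4 : c ^ (161 / 80 : ℝ) = Real.exp (-(64561 / 32160) * y) := hrp _ _ (by norm_num)
  have e5 : c ^ (1 / 310 : ℝ) = Real.exp (-(401 / 124620) * y) := hrp _ _ (by norm_num)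
  -- the law
  obtain ⟨i, hi⟩ : ∃ i, i = Real.exp (1 * y) := ⟨_, rfl⟩
  have hi0 : 0 < i := by rw [hi]; positivity
  obtain ⟨s, hs⟩ : ∃ s, s = Real.exp (-1 * y) := ⟨_, rfl⟩
  have hs0 : 0 < s := by rw [hs]; positivity
  have his : i⁻¹ = s := by
    rw [hi, hs, ex_inv]
  obtain ⟨-, hp, hb1, hm0, hm2⟩ := trlaw X i hX0 hi0
  have hXi : X / i = c := by
    rw [div_eq_mul_inv, his, hX, hs, hc, ex_mul]
    norm_num
  rw [hXi] at hb1
  obtain ⟨V, hV⟩ : ∃ V, V = ∫ t, tr X t ^ 2 ∂γ1 := ⟨_, rfl⟩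
  obtain ⟨hV1, hV2⟩ := tr_second X hX0
  rw [← hV] at hV1 hV2 hm2
  rw [← hC4, hX2] at hV2
  have hVd : 1 - V ≤ C4 * Real.exp (-(1 / 201) * y) := by
    have e6 : C4 / Real.exp (1 / 201 * y) = C4 * Real.exp (-(1 / 201) * y) := by
      rw [div_eq_mul_inv, ex_inv]
    rw [e6] at hV2
    linarith
  have hVh : 1 / 2 ≤ V := by
    linarith
  have hs2 : V / i ^ 2 = s ^ 2 * V := by
    rw [← his]
    field_simp
  rw [hs2] at hm2
  have hvar : 1 / 2 * c ^ (401 / 200 : ℝ) ≤ s ^ 2 * V := by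
    rw [e2, hs, ex_pow]
    have h5 : Real.exp (-(160801 / 80400) * y) ≤ Real.exp ((2 : ℕ) * -1 * y) :=
      hexle hy1 _ _ (by norm_num)
    calc 1 / 2 * Real.exp (-(160801 / 80400) * y) ≤ 1 / 2 * Real.exp ((2 : ℕ) * -1 * y) := by
          gcongr
      _ ≤ V * Real.exp ((2 : ℕ) * -1 * y) := by gcongr
      _ = _ := by ring
  obtain ⟨G', hG', hP', hL'⟩ := h4 c hcp hcc0 _ hp hb1 hm0 _ hm2 hvar
  rw [e1, e3, e4, e5] at hL'
  rw [e1] at hP'
  have hq : (2 * (3 * Real.exp r) + 1) ^ d * (2 * Real.exp (-X ^ 2 / 2)) ≤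
      1 / 2 * Real.exp (-r) := by
    refine numP d r X hr0.le ?_
    rw [hX2]
    rw [← hr] at n3
    nlinarith
  obtain ⟨G, hG, hP, hGL⟩ := event X i (3 * Real.exp r) _ _ hX0 hi0 (by positivity) G' hG' hP' hq
  rw [← hr] at n4 n5
  rw [← hr, ← hs]
  refine ⟨G, hG, ?_, fun ξ hξ => ?_⟩
  · refine le_trans ?_ hP
    have k1 : Real.exp (-Real.exp (401 / 40602 * y)) ≤ 1 / 2 * Real.exp (-r) := by
      have k2 : Real.exp (-Real.exp (401 / 40602 * y)) ≤ Real.exp (-1 + -r) := by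
        apply Real.exp_le_exp.2
        linarith
      rw [Real.exp_add] at k2
      have k3 : Real.exp (-1) ≤ 1 / 2 := by
        rw [Real.exp_neg, one_div]
        apply inv_anti₀ (by norm_num)
        have := Real.exp_one_gt_d9
        linarith
      exact k2.trans (by gcongr)
    linarith
  · obtain ⟨g1, g2⟩ := hGL ξ hξ
    obtain ⟨-, g3⟩ := hL' _ g1
    intro a ha e he η hη1 hη2 u hu q hq
    have hη0 : 0 < η := lt_of_lt_of_le (Real.exp_pos _) hη1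
    have hηle1 : η ≤ 1 := hη2.trans (Real.exp_le_one_iff.2 (by linarith))
    have ha' : ‖a‖ ≤ Real.exp (Real.exp (401 / 40602 * y)) := by
      refine ha.trans (Real.exp_le_exp.2 ?_)
      linarith
    obtain ⟨v, hv⟩ := rs_exists_all (d := d) (by omega)
      (fun x => 2 * d + tr X (ξ x) / i) a e η hη0 hηle1
    obtain ⟨p, hp'⟩ : ∃ p : Fin d → ℝ, p = fun j => Real.sqrt (η * s ^ 2) * q j := ⟨_, rfl⟩
    have hsum : ∑ j, p j ^ 2 = η * s ^ 2 * ∑ j, q j ^ 2 := by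
      rw [hp', Finset.mul_sum]
      refine Finset.sum_congr rfl fun j _ => ?_
      rw [mul_pow, Real.sq_sqrt (by positivity)]
    have k1 := g3 a ha' e he η ((hexle hy1 _ _ (by norm_num)).trans hη1)
      (hη2.trans (hexle hy1 _ _ (by norm_num))) v hv p (by
        rw [hsum]
        calc η * s ^ 2 * ∑ j, q j ^ 2 ≤ η * s ^ 2 * K := by gcongr
          _ = K * (η * s ^ 2) * 1 := by ring
          _ ≤ K * (η * s ^ 2) * (2 * V) := by
              have : 1 ≤ 2 * V := by linarith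
              gcongr
          _ = _ := by ring)
    have k2 := cmp_prof hη0 hηle1 (by omega) (Real.exp_pos r)
      (V := fun x => 2 * d + tr X (ξ x) / i) (V' := fun x => 2 * d + s * ξ x)
      (fun x hx => by
        have hx3 : ‖x‖ ≤ 3 * Real.exp r := by
          have := norm_sub_norm_le x a
          linarith
        rw [tr_of X (ξ x) (g2 x hx3), div_eq_mul_inv, his]
        ring) hu hv (fun x => ph p (x - a)) (fun x => (ph_norm p _).le)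
    obtain ⟨q1, q2, q3⟩ := (h1 _ he.1).2
    have q4 := h2 _ he.1 he.2
    have k3 := Tg_var γ0 γ1' η s (2 * d - e) V K q hη0 hs0 hVh hV1 hq (by linarith) q2 q3
    rw [← hp'] at k3 ⊢
    obtain ⟨A, hA⟩ : ∃ A, A = ∑' x, ph p (x - a) * ((‖u x‖ ^ 2 : ℝ) : ℂ) := ⟨_, rfl⟩
    obtain ⟨B, hB⟩ : ∃ B, B = ∑' x, ph p (x - a) * ((‖v x‖ ^ 2 : ℝ) : ℂ) := ⟨_, rfl⟩
    rw [← hA, ← hB] at k2
    rw [← hB] at k1
    rw [← hA]
    obtain ⟨T1, hT1⟩ : ∃ T1, T1 = Tg γ0 γ1' η (s ^ 2 * V) (2 * d - e) p := ⟨_, rfl⟩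
    obtain ⟨T2, hT2⟩ : ∃ T2, T2 = (γ0 (2 * d - e)).im /
      (1 + (γ1' (2 * d - e)).im / (γ0 (2 * d - e)).im ^ 2 * ∑ i, q i ^ 2) := ⟨_, rfl⟩
    rw [← hT1] at k1 k3
    rw [← hT2] at k3 ⊢
    have e7 : ((η : ℝ) : ℂ) * A - ((T2 : ℝ) : ℂ) = ((η : ℝ) : ℂ) * (A - B) +
        (((η : ℝ) : ℂ) * B - ((T1 : ℝ) : ℂ)) + ((T1 - T2 : ℝ) : ℂ) := by
      push_cast
      ring
    rw [e7]
    refine (norm_add₃_le).trans ?_
    rw [norm_mul, Complex.norm_real, Complex.norm_real, Real.norm_eq_abs, Real.norm_eq_abs,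
      abs_of_pos hη0]
    have k4 : η * ‖A - B‖ ≤ Real.exp (-(401 / 124620) * y) := by
      have hηi : η⁻¹ ≤ Real.exp (105 / 52 * y) := by
        have h1 := inv_anti₀ (Real.exp_pos _) hη1
        rw [ex_inv] at h1
        norm_num at h1 ⊢
        exact h1
      have k5 : (8 * d : ℝ) ≤ Real.exp (8 * d * y) := by
        have := Real.add_one_le_exp (8 * (d : ℝ) * y)
        have : (8 * d : ℝ) * 1 ≤ 8 * d * y := by gcongr
        linarith
      calc η * ‖A - B‖ ≤ η * (8 * d / Real.exp r * (η⁻¹) ^ 3) := by gcongr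
        _ = 8 * d * (Real.exp r)⁻¹ * (η⁻¹) ^ 2 := by field_simp
        _ ≤ Real.exp (8 * d * y) * (Real.exp r)⁻¹ * (Real.exp (105 / 52 * y)) ^ 2 := by gcongr
        _ = Real.exp (8 * d * y + -r + (2 : ℕ) * (105 / 52) * y) := by
            rw [ex_pow, ← Real.exp_neg, ← Real.exp_add, ← Real.exp_add]
        _ ≤ _ := by
            apply Real.exp_le_exp.2
            push_cast
            linarith
    have k6 : |T1 - T2| ≤ Real.exp (-(401 / 124620) * y) := by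
      refine k3.trans (le_trans ?_ n6)
      calc 2 * K * (1 - V) ≤ 2 * K * (C4 * Real.exp (-(1 / 201) * y)) := by gcongr
        _ = _ := by ring
    linarith

end Pool.Agent.N933.GS
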