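import Pool.Agent.N933.GS.Cmp

/-! Existence of the resolvent for arbitrary (unbounded) real potentials. -/

set_option autoImplicit false
set_option linter.unusedSectionVars false
set_option linter.unusedVariables false

open scoped BigOperators ComplexConjugate Topology
open Set Filter

namespace Pool.Agent.N933.GS

open Pool.Agent.W788.LD.Spec (S symm summ_mul summ_shift)
open Pool.Agent.H4R2.LO (Zd)
open Pool.Agent.TH794.QE (Rs rs_exists)

variable {d : ℕ}

theorem mem_two (u : Zd d → ℂ) (hu : Summable fun x => ‖u x‖ ^ 2) :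
    Memℓp u 2 := by
  refine memℓp_gen ?_
  simpa using hu

theorem norm_two (f : lp (fun _ : Zd d => ℂ) 2) : ‖f‖ ^ 2 = ∑' x, ‖f x‖ ^ 2 := by
  have h := lp.norm_rpow_eq_tsum (p := 2) (by norm_num) f
  simp only [ENNReal.toReal_ofNat, Real.rpow_ofNat] at h
  exact h

theorem sum_two (f : lp (fun _ : Zd d => ℂ) 2) : Summable fun x => ‖f x‖ ^ 2 := by
  have h := (lp.memℓp f).summable (p := 2) (by norm_num)
  simpa using h

/-- a potential restricted to a ball is bounded -/
theorem bdd_ball (V : Zd d → ℝ) (a : Zd d) (R : ℝ) :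
    ∃ B : ℝ, ∀ x, |if ‖x - a‖ ≤ R then V x else 0| ≤ B := by
  classical
  have hfin : (Metric.closedBall a R).Finite :=
    isCompact_iff_finite.1 (isCompact_closedBall a R)
  obtain ⟨B, hB⟩ := (hfin.image fun x => |V x|).bddAbove
  refine ⟨max B 0, fun x => ?_⟩
  by_cases hx : ‖x - a‖ ≤ R
  · rw [if_pos hx]
    refine le_trans (hB ⟨x, ?_, rfl⟩) (le_max_left _ _)
    rw [Metric.mem_closedBall, dist_eq_norm]
    exact hx
  · rw [if_neg hx, abs_zero]
    exact le_max_right _ _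

/-- **existence of the resolvent, arbitrary real potential** -/
theorem rs_exists_all (hd : 1 ≤ d) (V : Zd d → ℝ) (a : Zd d) (e η : ℝ) (hη : 0 < η)
    (hη1 : η ≤ 1) : ∃ u : Zd d → ℂ, Rs d V a e η u := by
  classical
  obtain ⟨W, hW⟩ : ∃ W : ℕ → Zd d → ℝ,
      W = fun (n : ℕ) x => if ‖x - a‖ ≤ 2 * ((n : ℝ) + 1) then V x else 0 := ⟨_, rfl⟩
  have hex : ∀ n, ∃ u : Zd d → ℂ, Rs d (W n) a e η u := by
    intro n
    obtain ⟨B, hB⟩ := bdd_ball V a (2 * ((n : ℝ) + 1))
    exact rs_exists (W n) B (fun x => by rw [hW]; exact hB x) a e η hη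
  choose v hv using hex
  have hcmp : ∀ N n m : ℕ, N ≤ n → N ≤ m →
      (Summable fun x => ‖v n x - v m x‖ ^ 2) ∧
      ∑' x, ‖v n x - v m x‖ ^ 2 ≤ 16 * d ^ 2 / ((N : ℝ) + 1) ^ 2 * (η⁻¹) ^ 4 := by
    intro N n m hn hm
    have hn' : (N : ℝ) ≤ n := by exact_mod_cast hn
    have hm' : (N : ℝ) ≤ m := by exact_mod_cast hm
    refine cmp hη hη1 hd (by positivity) (fun x hx => ?_) (hv n) (hv m)
    rw [hW]
    simp only
    rw [if_pos (by linarith), if_pos (by linarith)]
  obtain ⟨f, hf⟩ : ∃ f : ℕ → lp (fun _ : Zd d => ℂ) 2, ∀ n x, f n x = v n x :=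
    ⟨fun n => ⟨v n, mem_two _ (hv n).sq⟩, fun n x => rfl⟩
  have hdist : ∀ n m N : ℕ, N ≤ n → N ≤ m →
      dist (f n) (f m) ≤ 4 * d * (η⁻¹) ^ 2 * (1 / ((N : ℝ) + 1)) := by
    intro n m N hn hm
    rw [dist_eq_norm]
    have h1 : ‖f n - f m‖ ^ 2 ≤ (4 * d * (η⁻¹) ^ 2 * (1 / ((N : ℝ) + 1))) ^ 2 := by
      rw [norm_two]
      have e1 : ∀ x, ‖(f n - f m) x‖ ^ 2 = ‖v n x - v m x‖ ^ 2 := by
        intro x
        have : (f n - f m) x = f n x - f m x := rfl
        rw [this, hf, hf]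
      rw [tsum_congr e1]
      refine (hcmp N n m hn hm).2.trans (le_of_eq ?_)
      field_simp
      ring
    exact le_of_sq_le_sq h1 (by positivity)
  have hc : CauchySeq f := by
    refine cauchySeq_of_le_tendsto_0 (fun N : ℕ => 4 * d * (η⁻¹) ^ 2 * (1 / ((N : ℝ) + 1)))
      (fun n m N hn hm => hdist n m N hn hm) ?_
    have := (tendsto_one_div_add_atTop_nhds_zero_nat (𝕜 := ℝ)).const_mul (4 * d * (η⁻¹) ^ 2)
    simpa using this
  obtain ⟨F, hF⟩ := cauchySeq_tendsto_of_complete hc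
  have hpt : ∀ x, Tendsto (fun n => v n x) atTop (𝓝 (F x)) := by
    intro x
    rw [tendsto_iff_norm_sub_tendsto_zero]
    have h1 : Tendsto (fun n => ‖f n - F‖) atTop (𝓝 0) := by
      rw [← tendsto_iff_norm_sub_tendsto_zero]
      exact hF
    refine squeeze_zero (fun n => norm_nonneg _) (fun n => ?_) h1
    have h2 := lp.norm_apply_le_norm (p := 2) (by norm_num) (f n - F) x
    have e1 : (f n - F) x = v n x - F x := by
      have : (f n - F) x = f n x - F x := rfl
      rw [this, hf]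
    rw [e1] at h2
    exact h2
  refine ⟨fun x => F x, sum_two F, fun x => ?_⟩
  have hS : Tendsto (fun n => S (v n) x) atTop (𝓝 (S (fun y => F y) x)) := by
    unfold Pool.Agent.W788.LD.Spec.S
    exact tendsto_finsetSum _ fun i _ => (hpt _).add (hpt _)
  have hlim : Tendsto (fun n => -S (v n) x + (V x : ℂ) * v n x -
      ((e : ℂ) + (η : ℂ) * Complex.I) * v n x) atTop
      (𝓝 (-S (fun y => F y) x + (V x : ℂ) * F x - ((e : ℂ) + (η : ℂ) * Complex.I) * F x)) :=
    (hS.neg.add ((hpt x).const_mul _)).sub ((hpt x).const_mul _)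
  refine tendsto_nhds_unique hlim ?_
  refine tendsto_const_nhds.congr' ?_
  obtain ⟨N, hN⟩ := exists_nat_ge ‖x - a‖
  filter_upwards [eventually_ge_atTop N] with n hn
  have hn' : (N : ℝ) ≤ n := by exact_mod_cast hn
  have h1 := (hv n).eq x
  have h2 : W n x = V x := by
    rw [hW]
    simp only
    have := norm_nonneg (x - a)
    rw [if_pos (by linarith)]
  rw [h2] at h1
  exact h1.symm

end Pool.Agent.N933.GS
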