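import Pool.Agent.N933.GS.SpecG

/-! Gaussian disorder: flat spectral measures and the local law, from the parts. -/

set_option autoImplicit false
set_option linter.unusedSectionVars false
set_option linter.unusedVariables false

open scoped BigOperators ENNReal ComplexConjugate
open MeasureTheory ProbabilityTheory Set

namespace Pool.Agent.N933.GS

open Pool.Agent.W788.LD.Spec (S symm summ_mul summ_shift)
open Pool.Agent.H4R2.LO (Zd)
open Pool.Agent.W788.BK
open Pool.Agent.W788.BK.Num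
open Pool.Agent.TH794.LL2 (Res)

variable {d : ℕ}

/-- `m` is the spectral measure of `g` for `S + W`, `S` the sum over the neighbours -/
def Spm (d : ℕ) (W : Zd d → ℝ) (g : Zd d → ℂ) (m : Measure ℝ) : Prop :=
  ∀ z : ℂ, z.im ≠ 0 → ∃ u : Zd d → ℂ, (Summable fun x => ‖u x‖ ^ 2) ∧
    (∀ x, S u x + (W x : ℂ) * u x - z * u x = g x) ∧
    ∫ t : ℝ, ((t : ℂ) - z)⁻¹ ∂m = ∑' x, conj (g x) * u x

theorem S_neg (u : Zd d → ℂ) (x : Zd d) : S (fun y => -u y) x = -S u x := by
  unfold Pool.Agent.W788.LD.Spec.S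
  rw [← Finset.sum_neg_distrib]
  refine Finset.sum_congr rfl fun i _ => ?_
  ring

/-- the reflected measure -/
theorem reflect (W : Zd d → ℝ) (g : Zd d → ℂ) (m : Measure ℝ) (h : Spm d W g m) :
    ∀ z : ℂ, z.im ≠ 0 → ∃ u : Zd d → ℂ, (Summable fun x => ‖u x‖ ^ 2) ∧
      (∀ x, -S u x + ((-W x : ℝ) : ℂ) * u x - z * u x = g x) ∧
      ∫ t : ℝ, ((t : ℂ) - z)⁻¹ ∂(m.map fun t : ℝ => -t) = ∑' x, conj (g x) * u x := by
  intro z hz
  obtain ⟨u, hu, heq, hint⟩ := h (-z) (by simpa using hz)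
  refine ⟨fun x => -u x, by simpa using hu, fun x => ?_, ?_⟩
  · rw [S_neg]
    have := heq x
    push_cast
    linear_combination this
  · have hm : Measurable fun t : ℝ => -t := measurable_neg
    have hmm : AEStronglyMeasurable (fun t : ℝ => ((t : ℂ) - z)⁻¹) (m.map fun t : ℝ => -t) := by
      refine Measurable.aestronglyMeasurable ?_
      fun_prop
    rw [integral_map hm.aemeasurable hmm]
    have e1 : ∀ t : ℝ, (((-t : ℝ) : ℂ) - z)⁻¹ = -((t : ℂ) - -z)⁻¹ := by
      intro t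
      rw [← inv_neg]
      congr 1
      push_cast
      ring
    simp only [e1]
    rw [integral_neg, hint, ← tsum_neg]
    refine tsum_congr fun x => ?_
    ring

theorem map_Icc (m : Measure ℝ) (E s : ℝ) :
    (m.map fun t : ℝ => -t).real (Icc (-E - s) (-E + s)) = m.real (Icc (E - s) (E + s)) := by
  rw [map_measureReal_apply measurable_neg measurableSet_Icc]
  congr 1
  ext t
  simp only [mem_preimage, mem_Icc]
  constructor
  · intro h
    constructor <;> linarith [h.1, h.2]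
  · intro h
    constructor <;> linarith [h.1, h.2]

/-- the statement for the potential `W` and the coupling `s` -/
def QA (d : ℕ) (K s : ℝ) (W : Zd d → ℝ) : Prop :=
  (∀ (g : Zd d → ℂ) (B : Finset (Zd d)), (∀ a ∈ B, ‖a‖ ≤ Real.exp (s ^ (-(1 / 102) : ℝ))) →
    (∀ a, a ∉ B → g a = 0) → ∀ m : Measure ℝ, IsFiniteMeasure m → Spm d W g m →
    ∀ E r : ℝ, s ^ (21 / 10 : ℝ) ≤ r → m.real (Icc (E - r) (E + r)) ≤
      K * Real.log (1 / s) * r * (∑ a ∈ B, ‖g a‖) ^ 2) ∧
  (∀ (E : ℝ) (u : Zd d → ℂ), (Summable fun x => ‖u x‖ ^ 2) →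
    (∀ x, S u x + (W x : ℂ) * u x = (E : ℂ) * u x) → ∀ a : Zd d,
    ‖a‖ ≤ Real.exp (s ^ (-(1 / 102) : ℝ)) →
    ‖u a‖ ^ 2 ≤ K * Real.log (1 / s) * s ^ (21 / 10 : ℝ) * ∑' x, ‖u x‖ ^ 2) ∧
  ∀ a : Zd d, ‖a‖ ≤ Real.exp (s ^ (-(1 / 102) : ℝ)) → ∀ m m0 : Measure ℝ,
    IsFiniteMeasure m → IsFiniteMeasure m0 → Spm d W (Pi.single a 1) m →
    Spm d (fun _ => 0) (Pi.single a 1) m0 → ∀ E r : ℝ, s ^ (207 / 100 : ℝ) ≤ r →
    |m.real (Icc (E - r) (E + r)) - m0.real (Icc (E - r) (E + r))| ≤ s ^ (1 / 210 : ℝ) * r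

theorem finA (d : ℕ) (hd : 3 ≤ d) : ∃ σ0 K : ℝ, 0 < σ0 ∧ 0 < K ∧ ∀ s : ℝ, 0 < s → s ≤ σ0 →
    ∃ G : Set (Zd d → ℝ), MeasurableSet G ∧
      1 - Real.exp (-s ^ (-(1 / 103) : ℝ)) ≤ (Measure.infinitePi fun _ : Zd d => γ1).real G ∧
      ∀ ξ ∈ G, QA d K s (fun x => s * ξ x) := by
  obtain ⟨ya, hya⟩ := smG d hd
  obtain ⟨yb, hyb⟩ := llG d hd
  obtain ⟨y2, hy2⟩ := Filter.eventually_atTop.1
    (ev2 2 (1 / 103) (1 / 102) 0 (by norm_num))
  have hC1 := C1_ge
  obtain ⟨y1, hy1⟩ : ∃ y1, y1 = max (max ya yb) (max y2 1) := ⟨_, rfl⟩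
  refine ⟨Real.exp (-y1), 20 * (2 * (192 * (C1 * (17 / 8)))), Real.exp_pos _, by positivity, ?_⟩
  intro s hs hs0
  obtain ⟨y, hy⟩ : ∃ y, y = Real.log (1 / s) := ⟨_, rfl⟩
  have hlogs : Real.log s = -y := by
    rw [hy, one_div, Real.log_inv, neg_neg]
  have hyy1 : y1 ≤ y := by
    have h1 := Real.log_le_log hs hs0
    rw [Real.log_exp, hlogs] at h1
    linarith
  have hyya : ya ≤ y := le_trans (by rw [hy1]; exact (le_max_left _ _).trans (le_max_left _ _)) hyy1
  have hyyb : yb ≤ y := le_trans (by rw [hy1]; exact (le_max_right _ _).trans (le_max_left _ _))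
    hyy1
  have hyy2 : y2 ≤ y := le_trans (by rw [hy1]; exact (le_max_left _ _).trans (le_max_right _ _))
    hyy1
  have hyone : 1 ≤ y := le_trans (by rw [hy1]; exact (le_max_right _ _).trans (le_max_right _ _))
    hyy1
  have n1 := hy2 y hyy2
  simp only [pow_zero, mul_one] at n1
  have hrp : ∀ p q : ℝ, q = -p → s ^ p = Real.exp (q * y) := by
    intro p q hpq
    rw [Real.rpow_def_of_pos hs, hlogs, hpq]
    congr 1
    ring
  have e1 : s ^ (-(1 / 102) : ℝ) = Real.exp (1 / 102 * y) := hrp _ _ (by norm_num)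
  have e2 : s ^ (-(1 / 103) : ℝ) = Real.exp (1 / 103 * y) := hrp _ _ (by norm_num)
  have e3 : s ^ (21 / 10 : ℝ) = Real.exp (-(21 / 10) * y) := hrp _ _ (by norm_num)
  have e4 : s ^ (207 / 100 : ℝ) = Real.exp (-(207 / 100) * y) := hrp _ _ (by norm_num)
  have e5 : s ^ (1 / 210 : ℝ) = Real.exp (-(1 / 210) * y) := hrp _ _ (by norm_num)
  have e6 : Real.exp (-1 * y) = s := by
    rw [neg_one_mul, ← hlogs, Real.exp_log hs]
  obtain ⟨Ga, hGa, hPa, hLa⟩ := hya y hyya
  obtain ⟨Gb, hGb, hPb, hLb⟩ := hyb y hyyb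
  refine ⟨Ga ∩ Gb, hGa.inter hGb, ?_, ?_⟩
  · refine le_trans ?_ (inter_prob _ Ga Gb hGa hGb _ _ hPa hPb)
    rw [e2]
    have h1 : Real.exp (-Real.exp (1 / 102 * y)) ≤ 1 / 2 * Real.exp (-Real.exp (1 / 103 * y)) := by
      have h0 : (1 : ℝ) ≤ Real.exp (1 / 103 * y) := Real.one_le_exp (by positivity)
      have h2 : Real.exp (-Real.exp (1 / 102 * y)) ≤
          Real.exp (-1 + -Real.exp (1 / 103 * y)) := by
        apply Real.exp_le_exp.2
        linarith
      rw [Real.exp_add] at h2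
      have h3 : Real.exp (-1) ≤ 1 / 2 := by
        rw [Real.exp_neg, one_div]
        apply inv_anti₀ (by norm_num)
        have := Real.exp_one_gt_d9
        linarith
      exact h2.trans (by gcongr)
    linarith
  · intro ξ hξ
    have ha := hLa ξ hξ.1
    have hb := hLb ξ hξ.2
    rw [e6] at ha hb
    have hC10 : 0 < C1 := by linarith
    obtain ⟨g0, hg0⟩ : ∃ g0, g0 = 2 * (192 * (C1 * (17 / 8 * (101 / 102 * y)))) := ⟨_, rfl⟩
    have hg00 : 0 ≤ g0 := by rw [hg0]; positivity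
    have hg01 : g0 ≤ 2 * (192 * (C1 * (17 / 8))) * y := by
      rw [hg0]
      have : (101 / 102 * y : ℝ) ≤ y := by linarith
      calc 2 * (192 * (C1 * (17 / 8 * (101 / 102 * y)))) ≤ 2 * (192 * (C1 * (17 / 8 * y))) := by
            gcongr
        _ = _ := by ring
    rw [← hg0] at ha
    have ht1 : Real.exp (-(17 / 8) * (101 / 102 * y)) ≤ 1 / 2 := by
      have h1 : Real.exp (-(17 / 8) * (101 / 102 * y)) ≤ Real.exp (-1) := by
        apply Real.exp_le_exp.2
        linarith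
      have h2 : Real.exp (-1) ≤ 1 / 2 := by
        rw [Real.exp_neg, one_div]
        apply inv_anti₀ (by norm_num)
        have := Real.exp_one_gt_d9
        linarith
      linarith
    have htle : Real.exp (-(17 / 8) * (101 / 102 * y)) ≤ Real.exp (-(21 / 10) * y) := by
      apply Real.exp_le_exp.2
      linarith
    obtain ⟨f1, f2⟩ := flat1 1 _ _ g0 (Real.exp_pos _) ht1 hg00 _ ha (fun x => -(s * ξ x)) 0
      (fun x => by ring)
    refine ⟨?_, ?_, ?_⟩
    · intro g B hB hgB m hm hmS E r hr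
      rw [e1] at hB
      rw [e3] at hr
      rw [← hy]
      have hr0 : 0 < r := lt_of_lt_of_le (Real.exp_pos _) hr
      have hmf : IsFiniteMeasure (m.map fun t : ℝ => -t) := by infer_instance
      have h1 := f1 g B hB hgB (m.map fun t : ℝ => -t) hmf (reflect _ g m hmS) (-E) r
        (htle.trans hr)
      rw [map_Icc] at h1
      refine h1.trans ?_
      have h2 : 0 ≤ (∑ a ∈ B, ‖g a‖) ^ 2 := by positivity
      calc 20 * g0 * r * (∑ a ∈ B, ‖g a‖) ^ 2 ≤
          20 * (2 * (192 * (C1 * (17 / 8))) * y) * r * (∑ a ∈ B, ‖g a‖) ^ 2 := by gcongr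
        _ = _ := by ring
    · intro E u hu heq a ha'
      rw [e1] at ha'
      rw [e3, ← hy]
      have h1 := f2 (-E) u hu (fun x => by
        have := heq x
        push_cast at this ⊢
        linear_combination -this) a ha'
      refine h1.trans ?_
      have h3 : 0 ≤ ∑' x, ‖u x‖ ^ 2 := tsum_nonneg fun x => by positivity
      calc 5 * g0 * Real.exp (-(17 / 8) * (101 / 102 * y)) * ∑' x, ‖u x‖ ^ 2 ≤
          20 * (2 * (192 * (C1 * (17 / 8))) * y) * Real.exp (-(21 / 10) * y) *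
            ∑' x, ‖u x‖ ^ 2 := by
            gcongr
            norm_num
        _ = _ := by ring
    · intro a ha' m m0 hm hm0 hmS hmS0 E r hr
      rw [e1] at ha'
      rw [e4] at hr
      rw [e5]
      have hr0 : 0 < r := lt_of_lt_of_le (Real.exp_pos _) hr
      have hmf : IsFiniteMeasure (m.map fun t : ℝ => -t) := by infer_instance
      have hmf0 : IsFiniteMeasure (m0.map fun t : ℝ => -t) := by infer_instance
      have h0 := reflect _ _ m0 hmS0
      simp only [neg_zero] at h0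
      have h1 := hb a ha' (m.map fun t : ℝ => -t) (m0.map fun t : ℝ => -t) hmf hmf0
        (reflect _ _ m hmS) h0 (-E) r (le_trans (by
          apply Real.exp_le_exp.2
          linarith) hr)
      rw [map_Icc, map_Icc] at h1
      refine h1.trans ?_
      apply mul_le_mul_of_nonneg_right _ hr0.le
      apply Real.exp_le_exp.2
      linarith

end Pool.Agent.N933.GS
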