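import Pool.Agent.N933.GS.Prob
import Pool.Agent.W788.BK.Num

/-! Numbers for the truncated Gaussian disorder. -/

set_option autoImplicit false
set_option linter.unusedSectionVars false
set_option linter.unusedVariables false

open scoped BigOperators ENNReal
open MeasureTheory ProbabilityTheory Set

namespace Pool.Agent.N933.GS

/-- the probability of a large value in a box of radius `3 exp r` -/
theorem numP (d : ℕ) (r X : ℝ) (hr : 0 ≤ r) (h : (d + 1) * (r + 2) ≤ X ^ 2 / 2) :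
    (2 * (3 * Real.exp r) + 1) ^ d * (2 * Real.exp (-X ^ 2 / 2)) ≤ 1 / 2 * Real.exp (-r) := by
  have h1 : 2 * (3 * Real.exp r) + 1 ≤ Real.exp (r + 2) := by
    have e1 : Real.exp (r + 2) = Real.exp r * Real.exp 1 * Real.exp 1 := by
      rw [← Real.exp_add, ← Real.exp_add]
      ring_nf
    have e2 : (2.7 : ℝ) ≤ Real.exp 1 := by
      have := Real.exp_one_gt_d9
      linarith
    have e3 : (1 : ℝ) ≤ Real.exp r := Real.one_le_exp hr
    rw [e1]
    calc 2 * (3 * Real.exp r) + 1 ≤ Real.exp r * 2.7 * 2.7 := by linarith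
      _ ≤ _ := by gcongr
  have h2 : (2 * (3 * Real.exp r) + 1) ^ d ≤ Real.exp (d * (r + 2)) := by
    rw [Real.exp_nat_mul]
    have := Real.exp_pos r
    gcongr
  have h3 : (4 : ℝ) ≤ Real.exp 2 := by
    have e1 : Real.exp 2 = Real.exp 1 * Real.exp 1 := by
      rw [← Real.exp_add]
      norm_num
    have e2 := Real.exp_one_gt_d9
    nlinarith
  calc (2 * (3 * Real.exp r) + 1) ^ d * (2 * Real.exp (-X ^ 2 / 2)) ≤
      Real.exp (d * (r + 2)) * (2 * Real.exp (-X ^ 2 / 2)) := by gcongr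
    _ = 1 / 2 * (4 * (Real.exp (d * (r + 2)) * Real.exp (-X ^ 2 / 2))) := by ring
    _ ≤ 1 / 2 * (Real.exp 2 * (Real.exp (d * (r + 2)) * Real.exp (-X ^ 2 / 2))) := by gcongr
    _ = 1 / 2 * Real.exp (2 + (d * (r + 2) + -X ^ 2 / 2)) := by
        rw [← Real.exp_add, ← Real.exp_add]
    _ ≤ _ := by
        gcongr
        have e1 : ((d : ℝ) + 1) * (r + 2) = d * (r + 2) + r + 2 := by ring
        rw [e1] at h
        linarith

/-- both signs of the coupling -/
theorem sgn {d : ℕ} (Q : ℝ → ((Fin d → ℤ) → ℝ) → Prop) (p : ℝ → ℝ) (σ0 : ℝ)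
    (h : ∀ s : ℝ, 0 < s → s ≤ σ0 → ∃ G : Set ((Fin d → ℤ) → ℝ), MeasurableSet G ∧
      p s ≤ (Measure.infinitePi fun _ : Fin d → ℤ => γ1).real G ∧
      ∀ ξ ∈ G, Q s (fun x => s * ξ x)) (σ : ℝ) (h0 : 0 < |σ|) (h1 : |σ| ≤ σ0) :
    ∃ G : Set ((Fin d → ℤ) → ℝ), MeasurableSet G ∧
      p |σ| ≤ (Measure.infinitePi fun _ : Fin d → ℤ => γ1).real G ∧
      ∀ ξ ∈ G, Q |σ| (fun x => σ * ξ x) := by
  obtain ⟨G, hG, hP, hQ⟩ := h |σ| h0 h1
  rcases lt_or_gt_of_ne (abs_pos.1 h0) with h2 | h2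
  · obtain ⟨m1, m2⟩ := pull (d := d) γ1 γ1 (fun t => -t) measurable_neg γ_neg.symm G hG
    refine ⟨_, m1, by rw [m2]; exact hP, fun ξ hξ => ?_⟩
    have := hQ _ hξ
    rw [abs_of_neg h2] at this ⊢
    have e1 : (fun x => -σ * (fun x => -ξ x) x) = fun x => σ * ξ x := by
      funext x
      ring
    rw [e1] at this
    exact this
  · refine ⟨G, hG, hP, fun ξ hξ => ?_⟩
    have := hQ ξ hξ
    rw [abs_of_pos h2] at this ⊢
    exact this

end Pool.Agent.N933.GS
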