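import Pool.Agent.N933.GS.Exist
import Pool.Agent.N933.GS.Num
import Pool.Agent.W788.BK.Fin

/-! Flat spectral measures for Gaussian disorder. -/

set_option autoImplicit false
set_option linter.unusedSectionVars false
set_option linter.unusedVariables false

open scoped BigOperators ENNReal
open MeasureTheory ProbabilityTheory Set

namespace Pool.Agent.N933.GS

open Pool.Agent.W788.LD.Spec (S symm summ_mul summ_shift)
open Pool.Agent.H4R2.LO (Zd)
open Pool.Agent.W788.BK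

variable {d : ℕ}

/-- **local smoothing depends on the potential only locally** -/
theorem sm1_local (W W' : Zd d → ℝ) (ρ ρ' t g : ℝ) (ht : 0 < t) (hg : 0 ≤ g) (hρ' : 0 < ρ')
    (hρ : ρ' ≤ ρ) (hnum : 16 * d ^ 2 ≤ 5 * t ^ 2 * ρ' ^ 2)
    (hW : ∀ x, ‖x‖ ≤ 3 * ρ' → W x = W' x) (h : SM1 d 1 ρ t g W) : SM1 d 1 ρ' t (2 * g) W' := by
  intro E u f hu hf heq a ha
  have hc : ∀ w : Zd d → ℝ, (Summable fun x => w x ^ 2) → Summable fun x => ‖((w x : ℝ) : ℂ)‖ ^ 2 := by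
    intro w hw
    refine hw.congr fun x => ?_
    rw [Complex.norm_real, Real.norm_eq_abs, sq_abs]
  obtain ⟨c1, c2⟩ := com_sum hρ' a (fun x => ((u x : ℝ) : ℂ)) (hc u hu)
  -- the real commutator
  obtain ⟨k, hk⟩ : ∃ k : Zd d → ℝ, k = fun x =>
      ∑ i : Fin d, ((chi ρ' a (x + Pi.single i 1) - chi ρ' a x) * u (x + Pi.single i 1) +
      (chi ρ' a (x - Pi.single i 1) - chi ρ' a x) * u (x - Pi.single i 1)) := ⟨_, rfl⟩
  have hkc : ∀ x, ((k x : ℝ) : ℂ) = com ρ' a (fun x => ((u x : ℝ) : ℂ)) x := by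
    intro x
    rw [com_eq, hk]
    push_cast
    rfl
  have hk2 : ∀ x, k x ^ 2 = ‖com ρ' a (fun x => ((u x : ℝ) : ℂ)) x‖ ^ 2 := by
    intro x
    rw [← hkc, Complex.norm_real, Real.norm_eq_abs, sq_abs]
  have hks : Summable fun x => k x ^ 2 := by
    simp only [hk2]
    exact c1
  have hkle : ∑' x, k x ^ 2 ≤ 4 * d ^ 2 / ρ' ^ 2 * ∑' x, u x ^ 2 := by
    simp only [hk2]
    refine c2.trans (le_of_eq ?_)
    congr 1
    refine tsum_congr fun x => ?_
    rw [Complex.norm_real, Real.norm_eq_abs, sq_abs]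
  obtain ⟨u', hu'⟩ : ∃ u' : Zd d → ℝ, u' = fun x => chi ρ' a x * u x := ⟨_, rfl⟩
  obtain ⟨f', hf'⟩ : ∃ f' : Zd d → ℝ, f' = fun x => chi ρ' a x * f x + k x := ⟨_, rfl⟩
  have hle : ∀ (w : Zd d → ℝ) x, (chi ρ' a x * w x) ^ 2 ≤ w x ^ 2 := by
    intro w x
    rw [mul_pow]
    have h1 := chi_nonneg ρ' a x
    have h2 : chi ρ' a x ^ 2 ≤ 1 := pow_le_one₀ h1 (chi_le_one ρ' a x)
    exact mul_le_of_le_one_left (by positivity) h2
  have hus : Summable fun x => u' x ^ 2 := by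
    rw [hu']
    exact Summable.of_nonneg_of_le (fun x => by positivity) (hle u) hu
  have hfle : ∀ x, f' x ^ 2 ≤ 2 * f x ^ 2 + 2 * k x ^ 2 := by
    intro x
    rw [hf']
    have h1 := hle f x
    nlinarith [sq_nonneg (chi ρ' a x * f x - k x)]
  have hfs : Summable fun x => f' x ^ 2 :=
    Summable.of_nonneg_of_le (fun x => by positivity) hfle ((hf.mul_left 2).add (hks.mul_left 2))
  have heq' : ∀ x, ∑ i, (u' (x + Pi.single i 1) + u' (x - Pi.single i 1)) + 1 * W x * u' x =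
      E * u' x + f' x := by
    intro x
    have h1 := heq x
    have h2 : ∑ i : Fin d, (u' (x + Pi.single i 1) + u' (x - Pi.single i 1)) =
        chi ρ' a x * ∑ i : Fin d, (u (x + Pi.single i 1) + u (x - Pi.single i 1)) + k x := by
      rw [hk, hu', Finset.mul_sum, ← Finset.sum_add_distrib]
      refine Finset.sum_congr rfl fun i _ => ?_
      ring
    have h3 : W x * chi ρ' a x = W' x * chi ρ' a x := by
      by_cases hx : ‖x‖ ≤ 3 * ρ'
      · rw [hW x hx]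
      · push Not at hx
        rw [chi_zero hρ', mul_zero, mul_zero]
        have := norm_sub_norm_le x a
        linarith
    rw [h2, hu', hf']
    simp only
    linear_combination (chi ρ' a x) * h1 + u x * h3
  have hmain := h E u' f' hus hfs heq' a (ha.trans hρ)
  have hua : u' a = u a := by
    rw [hu']
    simp only
    rw [chi_one hρ' (by simpa using hρ'.le), one_mul]
  rw [hua] at hmain
  refine hmain.trans ?_
  have hU : ∑' x, u' x ^ 2 ≤ ∑' x, u x ^ 2 := by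
    refine hus.tsum_le_tsum (fun x => ?_) hu
    rw [hu']
    exact hle u x
  have hF : ∑' x, f' x ^ 2 ≤ 2 * ∑' x, f x ^ 2 + 2 * (4 * d ^ 2 / ρ' ^ 2 * ∑' x, u x ^ 2) := by
    refine (hfs.tsum_le_tsum hfle ((hf.mul_left 2).add (hks.mul_left 2))).trans ?_
    rw [(hf.mul_left 2).tsum_add (hks.mul_left 2), tsum_mul_left, tsum_mul_left]
    linarith
  have hU0 : 0 ≤ ∑' x, u x ^ 2 := tsum_nonneg fun x => sq_nonneg _
  have hF0 : 0 ≤ ∑' x, f x ^ 2 := tsum_nonneg fun x => sq_nonneg _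
  have h16 : 2 * t⁻¹ * (2 * (4 * d ^ 2 / ρ' ^ 2)) ≤ 5 * t := by
    have e1 : 2 * t⁻¹ * (2 * (4 * (d : ℝ) ^ 2 / ρ' ^ 2)) = 16 * d ^ 2 / (t * ρ' ^ 2) := by
      field_simp
      ring
    rw [e1, div_le_iff₀ (by positivity)]
    calc 16 * (d : ℝ) ^ 2 ≤ 5 * t ^ 2 * ρ' ^ 2 := hnum
      _ = _ := by ring
  calc g * (5 * t * ∑' x, u' x ^ 2 + 2 * t⁻¹ * ∑' x, f' x ^ 2) ≤
      g * (5 * t * ∑' x, u x ^ 2 + 2 * t⁻¹ * (2 * ∑' x, f x ^ 2 +
        2 * (4 * d ^ 2 / ρ' ^ 2 * ∑' x, u x ^ 2))) := by gcongr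
    _ = g * (5 * t * ∑' x, u x ^ 2 + 2 * t⁻¹ * (2 * (4 * d ^ 2 / ρ' ^ 2)) * ∑' x, u x ^ 2 +
        4 * t⁻¹ * ∑' x, f x ^ 2) := by ring
    _ ≤ g * (5 * t * ∑' x, u x ^ 2 + 5 * t * ∑' x, u x ^ 2 + 4 * t⁻¹ * ∑' x, f x ^ 2) := by
        gcongr
    _ = _ := by ring

end Pool.Agent.N933.GS
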