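import Pool.Agent.N933.GS.Mom
import Pool.Agent.N933.GS.FlatG
import Pool.Agent.TH794.LL2.ParN

/-! The second moment of the resolvent for Gaussian disorder. -/

set_option autoImplicit false
set_option linter.unusedSectionVars false
set_option linter.unusedVariables false

open scoped BigOperators ENNReal ComplexConjugate Topology
open MeasureTheory ProbabilityTheory Set Filter

namespace Pool.Agent.N933.GS

open Pool.Agent.H4R2.LO (Zd)
open Pool.Agent.W788.BK.Num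
open Pool.Agent.TH794.LL2 (hexle)
open Pool.Agent.TH794.QE (Rs QM QM_eq Pg_u Pg)
open Pool.Agent.TH794.QD (GF F0 F1)
open Pool.Agent.N933.GQ (baseQ)

/-- the profile -/
noncomputable def PG (d : ℕ) (τ E : ℝ) : ℝ :=
  Pg (fun E => GF (F0 d) (E : ℂ)) (fun E => GF (F1 d) (E : ℂ)) τ E

/-- **the second moment of the resolvent for Gaussian disorder** -/
theorem kubG (d : ℕ) (hd : 3 ≤ d) : ∃ y0 : ℝ, ∀ y : ℝ, y0 ≤ y →
      ∃ G : Set (Zd d → ℝ), MeasurableSet G ∧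
        1 - Real.exp (-Real.exp (1 / 102 * y)) ≤
          (Measure.infinitePi fun _ : Zd d => γ1).real G ∧
        ∀ ξ ∈ G, ∀ a : Zd d, ‖a‖ ≤ Real.exp (Real.exp (1 / 102 * y)) →
          ∀ e : ℝ, |2 * (d : ℝ) - e| ≤ 3 * d →
          ∀ η : ℝ, Real.exp (-(137 / 68) * y) ≤ η → η ≤ Real.exp (-1 * y) ^ 2 / 2 →
          ∀ u : Zd d → ℂ, Rs d (fun x => 2 * d + Real.exp (-1 * y) * ξ x) a e η u →
          ∀ j : Fin d, (Summable fun x => ((x j : ℝ) - a j) ^ 2 * ‖u x‖ ^ 2) ∧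
            |η ^ 2 * Real.exp (-1 * y) ^ 2 * QM a j u -
              2 * PG d (η / Real.exp (-1 * y) ^ 2) (2 * d - e)| ≤ Real.exp (-(1 / 310) * y) := by
  obtain ⟨c0, hc0, h4⟩ := baseQ d hd
  obtain ⟨C4, hC4⟩ : ∃ C4, C4 = ∫ s, s ^ 4 ∂γ1 := ⟨_, rfl⟩
  have hC40 : 0 ≤ C4 := by
    rw [hC4]
    exact integral_nonneg fun s => by positivity
  have hd0 : (0 : ℝ) ≤ d := Nat.cast_nonneg d
  obtain ⟨y0, hy0⟩ := Filter.eventually_atTop.1
    ((Filter.eventually_ge_atTop (1 : ℝ)).and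
    ((ev2 (1 / c0) (-(199 / 200)) 0 0 (by norm_num)).and
    ((ev2 (2 * C4) (-(1 / 100)) 0 0 (by norm_num)).and
    ((ev2 (6 * (d + 1)) (1 / 102) (1 / 100) 0 (by norm_num)).and
    ((ev2 2 (1 / 102) (199 / 20200) 0 (by norm_num)).and
    ((ev2 (8 * d ^ 2 + 352 + 16) 0 (1 / 102) 1 (by norm_num)).and
    ((ev2 (4 * (24 * C4)) (-(1 / 100)) (-(1 / 310)) 0 (by norm_num)).and
    ((ev2 4 (-(1 / 302)) (-(1 / 310)) 0 (by norm_num)).and
    (ev2 2 (-(137 / 68)) (-2) 0 (by norm_num)))))))))) 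
  refine ⟨y0, fun y hy => ?_⟩
  obtain ⟨hy1, n1, n2, n3, n4, n5, n6, n7, n8⟩ := hy0 y hy
  simp only [pow_zero, mul_one, pow_one, zero_mul, Real.exp_zero] at n1 n2 n3 n4 n5 n6 n7 n8
  -- the parameters
  obtain ⟨X, hX⟩ : ∃ X, X = Real.exp (1 / 200 * y) := ⟨_, rfl⟩
  have hX0 : 0 < X := by rw [hX]; positivity
  have hX2 : X ^ 2 = Real.exp (1 / 100 * y) := by
    rw [hX, ex_pow]
    norm_num
  obtain ⟨r, hr⟩ : ∃ r, r = Real.exp (1 / 102 * y) := ⟨_, rfl⟩
  have hr0 : 0 < r := by rw [hr]; positivity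
  have hr1 : 1 ≤ r := by rw [hr]; exact Real.one_le_exp (by positivity)
  obtain ⟨c, hc⟩ : ∃ c, c = Real.exp (-(199 / 200) * y) := ⟨_, rfl⟩
  have hcp : 0 < c := by rw [hc]; positivity
  have hcc0 : c ≤ c0 := by
    have h5 := mul_le_mul_of_nonneg_left n1 hc0.le
    rw [← mul_assoc, mul_one_div, div_self hc0.ne', one_mul, mul_one] at h5
    rw [hc]
    exact h5
  have hrp : ∀ p q : ℝ, q = -(199 / 200) * p → c ^ p = Real.exp (q * y) := by
    intro p q hpq
    rw [hc, ← Real.exp_mul, hpq]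
    congr 1
    ring
  have e1 : c ^ (-(1 / 101) : ℝ) = Real.exp (199 / 20200 * y) := hrp _ _ (by norm_num)
  have e3 : c ^ (81 / 40 : ℝ) = Real.exp (-(16119 / 8000) * y) := hrp _ _ (by norm_num)
  have e5 : c ^ (1 / 300 : ℝ) = Real.exp (-(199 / 60000) * y) := hrp _ _ (by norm_num)
  -- the law
  obtain ⟨i, hi⟩ : ∃ i, i = Real.exp (1 * y) := ⟨_, rfl⟩
  have hi0 : 0 < i := by rw [hi]; positivity
  obtain ⟨s, hs⟩ : ∃ s, s = Real.exp (-1 * y) := ⟨_, rfl⟩
  have hs0 : 0 < s := by rw [hs]; positivity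
  have his : i⁻¹ = s := by
    rw [hi, hs, ex_inv]
  have hs2e : s ^ 2 = Real.exp (-2 * y) := by
    rw [hs, ex_pow]
    norm_num
  obtain ⟨-, hp, hb1, hm0, hm2⟩ := trlaw X i hX0 hi0
  have hXi : X / i = c := by
    rw [div_eq_mul_inv, his, hX, hs, hc, ex_mul]
    norm_num
  rw [hXi] at hb1
  obtain ⟨V, hV⟩ : ∃ V, V = ∫ t, tr X t ^ 2 ∂γ1 := ⟨_, rfl⟩
  obtain ⟨hV1, hV2⟩ := tr_second X hX0
  rw [← hV] at hV1 hV2 hm2
  rw [← hC4, hX2] at hV2
  have hVd : 1 - V ≤ C4 * Real.exp (-(1 / 100) * y) := by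
    have e6 : C4 / Real.exp (1 / 100 * y) = C4 * Real.exp (-(1 / 100) * y) := by
      rw [div_eq_mul_inv, ex_inv]
    rw [e6] at hV2
    linarith
  have hVh : 1 / 2 ≤ V := by
    linarith
  have hV0 : 0 < V := by linarith
  have hs2 : V / i ^ 2 = s ^ 2 * V := by
    rw [← his]
    field_simp
  rw [hs2] at hm2
  have hvar : c ^ (81 / 40 : ℝ) ≤ s ^ 2 * V := by
    rw [e3, hs2e]
    have h5 : Real.exp (-(16119 / 8000) * y) ≤ Real.exp (-(137 / 68) * y) :=
      hexle hy1 _ _ (by norm_num)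
    have h6 : Real.exp (-2 * y) * (1 / 2) ≤ Real.exp (-2 * y) * V := by gcongr
    linarith
  obtain ⟨G', hG', hP', hL'⟩ := h4 c hcp hcc0 _ hp hb1 hm0 _ hm2 hvar
  rw [e1, e3, e5] at hL'
  rw [e1] at hP'
  have hq : (2 * (3 * Real.exp r) + 1) ^ d * (2 * Real.exp (-X ^ 2 / 2)) ≤
      1 / 2 * Real.exp (-r) := by
    refine numP d r X hr0.le ?_
    rw [hX2]
    rw [← hr] at n3
    nlinarith
  obtain ⟨G, hG, hP, hGL⟩ := event X i (3 * Real.exp r) _ _ hX0 hi0 (by positivity) G' hG' hP' hq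
  rw [← hr] at n4 n5
  rw [← hr, ← hs]
  refine ⟨G, hG, ?_, fun ξ hξ => ?_⟩
  · refine le_trans ?_ hP
    have k1 : Real.exp (-Real.exp (199 / 20200 * y)) ≤ 1 / 2 * Real.exp (-r) := by
      have k2 : Real.exp (-Real.exp (199 / 20200 * y)) ≤ Real.exp (-1 + -r) := by
        apply Real.exp_le_exp.2
        linarith
      rw [Real.exp_add] at k2
      have k3 : Real.exp (-1) ≤ 1 / 2 := by
        rw [Real.exp_neg, one_div]
        apply inv_anti₀ (by norm_num)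
        have := Real.exp_one_gt_d9
        linarith
      exact k2.trans (by gcongr)
    linarith
  · obtain ⟨g1, g2⟩ := hGL ξ hξ
    obtain ⟨-, g3⟩ := hL' _ g1
    intro a ha e he η hη1 hη2 u hu j
    have hη0 : 0 < η := lt_of_lt_of_le (Real.exp_pos _) hη1
    have hs21 : s ^ 2 ≤ 1 := by
      rw [hs2e]
      exact Real.exp_le_one_iff.2 (by linarith)
    have hηle1 : η ≤ 1 := by linarith
    have ha' : ‖a‖ ≤ Real.exp (Real.exp (199 / 20200 * y)) := by
      refine ha.trans (Real.exp_le_exp.2 ?_)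
      linarith
    obtain ⟨v, hv⟩ := rs_exists_all (d := d) (by omega)
      (fun x => 2 * d + tr X (ξ x) / i) a e η hη0 hηle1
    have hηs2 : η ≤ s ^ 2 * V := by
      refine hη2.trans ?_
      rw [div_eq_mul_one_div]
      gcongr
    obtain ⟨k0, k1⟩ := g3 a ha' e he η ((hexle hy1 _ _ (by norm_num)).trans hη1) hηs2 v hv j
    have k2 := cmp_mom hη0 hηle1 (by omega) (Real.exp_pos r)
      (V := fun x => 2 * d + tr X (ξ x) / i) (V' := fun x => 2 * d + s * ξ x)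
      (fun x hx => by
        have hx3 : ‖x‖ ≤ 3 * Real.exp r := by
          have := norm_sub_norm_le x a
          linarith
        rw [tr_of X (ξ x) (g2 x hx3), div_eq_mul_inv, his]
        ring) hu hv j
    refine ⟨(QM_eq hu (fun x => -(2 * d + s * ξ x)) 0 1 (fun x => by ring) hη0 hηle1 j).1, ?_⟩
    -- the profile
    obtain ⟨P1, hP1⟩ : ∃ P1, P1 = PG d (η / (s ^ 2 * V)) (2 * d - e) := ⟨_, rfl⟩
    obtain ⟨P2, hP2⟩ : ∃ P2, P2 = PG d (η / s ^ 2) (2 * d - e) := ⟨_, rfl⟩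
    obtain ⟨q0, q1⟩ := Pool.Agent.TH794.QD.GF_im Pool.Agent.W918.BK.Osc.osc d hd ((2 * d - e : ℝ) : ℂ) (by simp)
    have k3 : |P1 - P2| ≤ 2 * (1 - V) := by
      rw [hP1, hP2]
      refine (Pg_u _ _ (η / (s ^ 2 * V)) (η / s ^ 2) (2 * d - e) (by positivity) (by positivity)
        q0 q1).trans ?_
      have e6 : η / (s ^ 2 * V) - η / s ^ 2 = η / s ^ 2 * ((1 - V) / V) := by
        field_simp
      have h1V : 0 ≤ 1 - V := by linarith
      rw [e6, abs_mul, abs_of_pos (by positivity : 0 < η / s ^ 2),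
        abs_of_nonneg (by positivity), mul_div_assoc, mul_comm, div_mul_cancel₀]
      · rw [div_le_iff₀ hV0]
        nlinarith
      · positivity
    have hu0 : 0 < η / (s ^ 2 * V) := by positivity
    have hP10 : 0 ≤ P1 := by
      rw [hP1]
      unfold PG Pg
      exact div_nonneg q0 (add_nonneg hu0.le (q0.trans q1))
    have hP11 : P1 ≤ 1 := by
      rw [hP1]
      unfold PG Pg
      rw [div_le_one (by
        have := q0.trans q1
        linarith)]
      linarith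
    obtain ⟨Mu, hMu⟩ : ∃ Mu, Mu = QM a j u := ⟨_, rfl⟩
    obtain ⟨Mv, hMv⟩ : ∃ Mv, Mv = QM a j v := ⟨_, rfl⟩
    have k1' : |η ^ 2 * (s ^ 2 * V) * Mv - 2 * P1| ≤ Real.exp (-(199 / 60000) * y) := by
      rw [hP1, hMv]
      exact k1
    rw [← hMu, ← hMv] at k2
    rw [← hMu, ← hP2]
    have hE1 : Real.exp (-(199 / 60000) * y) ≤ 1 := Real.exp_le_one_iff.2 (by linarith)
    obtain ⟨Z, hZ⟩ : ∃ Z, Z = η ^ 2 * (s ^ 2 * V) * Mv := ⟨_, rfl⟩
    rw [← hZ] at k1'
    have hZ3 : |Z| ≤ 3 := by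
      have h5 := abs_le.1 k1'
      rw [abs_le]
      constructor <;> linarith
    have e7 : η ^ 2 * s ^ 2 * Mu - 2 * P2 = η ^ 2 * s ^ 2 * (Mu - Mv) + (1 - V) / V * Z +
        (Z - 2 * P1) + 2 * (P1 - P2) := by
      rw [hZ]
      field_simp
      ring
    have h1V : 0 ≤ 1 - V := by linarith
    have k4 : |η ^ 2 * s ^ 2 * (Mu - Mv)| ≤ Real.exp (-(1 / 302) * y) := by
      rw [abs_mul, abs_of_nonneg (by positivity)]
      have hηi : η⁻¹ ≤ Real.exp (137 / 68 * y) := by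
        have h1 := inv_anti₀ (Real.exp_pos _) hη1
        rw [ex_inv] at h1
        norm_num at h1 ⊢
        exact h1
      have k5 : (8 * d ^ 2 + 352 : ℝ) ≤ Real.exp ((8 * d ^ 2 + 352) * y) := by
        have := Real.add_one_le_exp ((8 * (d : ℝ) ^ 2 + 352) * y)
        have : (8 * (d : ℝ) ^ 2 + 352) * 1 ≤ (8 * d ^ 2 + 352) * y := by gcongr
        linarith
      calc η ^ 2 * s ^ 2 * |Mu - Mv| ≤
          η ^ 2 * 1 * ((8 * d ^ 2 + 352) / Real.exp r * (η⁻¹) ^ 6) := by gcongr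
        _ = (8 * d ^ 2 + 352) * (Real.exp r)⁻¹ * (η⁻¹) ^ 4 := by field_simp
        _ ≤ Real.exp ((8 * d ^ 2 + 352) * y) * (Real.exp r)⁻¹ * (Real.exp (137 / 68 * y)) ^ 4 := by
            gcongr
        _ = Real.exp ((8 * d ^ 2 + 352) * y + -r + (4 : ℕ) * (137 / 68) * y) := by
            rw [ex_pow, ← Real.exp_neg, ← Real.exp_add, ← Real.exp_add]
        _ ≤ _ := by
            apply Real.exp_le_exp.2
            push_cast
            linarith
    have k6 : |(1 - V) / V * Z| ≤ 6 * (1 - V) := by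
      rw [abs_mul, abs_of_nonneg (by positivity)]
      have h5 : (1 - V) / V ≤ 2 * (1 - V) := by
        rw [div_le_iff₀ hV0]
        nlinarith
      calc (1 - V) / V * |Z| ≤ 2 * (1 - V) * 3 := by gcongr
        _ = _ := by ring
    have k7 : |2 * (P1 - P2)| ≤ 4 * (1 - V) := by
      rw [abs_mul, abs_two]
      linarith
    have k8 : Real.exp (-(199 / 60000) * y) ≤ Real.exp (-(1 / 302) * y) :=
      hexle hy1 _ _ (by norm_num)
    rw [e7]
    have k9 : |η ^ 2 * s ^ 2 * (Mu - Mv) + (1 - V) / V * Z + (Z - 2 * P1) + 2 * (P1 - P2)| ≤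
        |η ^ 2 * s ^ 2 * (Mu - Mv)| + |(1 - V) / V * Z| + |Z - 2 * P1| + |2 * (P1 - P2)| := by
      refine (abs_add_le _ _).trans ?_
      refine add_le_add ((abs_add_le _ _).trans ?_) le_rfl
      exact add_le_add (abs_add_le _ _) le_rfl
    have k10 : 10 * (1 - V) ≤ 10 * (C4 * Real.exp (-(1 / 100) * y)) := by linarith
    have k11 : 0 ≤ C4 * Real.exp (-(1 / 100) * y) := by positivity
    have e12 : 4 * (24 * C4) * Real.exp (-(1 / 100) * y) =
        96 * (C4 * Real.exp (-(1 / 100) * y)) := by ring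
    rw [e12] at n6
    linarith

end Pool.Agent.N933.GS
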