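import Pool.Agent.N933.GS.ProfG
import Pool.Agent.N948.AL.Fin

/-! Localized eigenfunctions of the Gaussian model carry little weight. -/

set_option autoImplicit false
set_option linter.unusedVariables false

open scoped BigOperators Topology
open MeasureTheory Filter Set

namespace Pool.Agent.N933.GS

open Pool.Agent.H4R2.LO (Zd)
open Pool.Agent.TH794.HK (ph Tg)
open Pool.Agent.TH794.QE (Rs RegE)
open Pool.Agent.TH794.QD (GF F0 F1)
open Pool.Agent.N948.AL (EigFam Bk ProfAt weight2)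

/-- the choice of the constants -/
theorem constsG (d : ℕ) (hd : 2 ≤ d) (m C ε : ℝ) (hm : 0 < m) (hC : 0 < C)
    (hε : 0 < ε) : ∃ (N : ℕ) (k c0 : ℝ), 1 ≤ N ∧ 0 < k ∧ 0 < c0 ∧ c0 ≤ 1 ∧
      ∀ c : ℝ, 0 < c → c ≤ c0 →
        N * (Real.sqrt (c ^ (105 / 52 : ℝ) * c ^ 2) * (k * c ^ (-(209 / 104) : ℝ))) ≤ 1 ∧
        64 * d * (4 * (C / N + 4 * C ^ 3 / (N * m) + c ^ (1 / 320 : ℝ)) +
          2 * (2 * (k * c ^ (-(209 / 104) : ℝ)) + 1) ^ d * c ^ (3 * d) * (C + c ^ (1 / 320 : ℝ))) ≤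
          ε ∧ c ^ (3 * d) ≤ 1 / 2 := by
  have hd2 : (2 : ℝ) ≤ d := by exact_mod_cast hd
  obtain ⟨N, hNdef⟩ : ∃ N : ℕ, N = ⌈768 * d * (C + 4 * C ^ 3 / m) / ε⌉₊ + 1 := ⟨_, rfl⟩
  have hN1 : 1 ≤ N := by omega
  have hN0 : (0 : ℝ) < N := by exact_mod_cast hN1
  have hN2 : 768 * d * (C + 4 * C ^ 3 / m) / ε ≤ N := by
    rw [hNdef]
    push_cast
    have := Nat.le_ceil (768 * d * (C + 4 * C ^ 3 / m) / ε)
    linarith
  obtain ⟨k, hk⟩ : ∃ k : ℝ, k = 1 / N := ⟨_, rfl⟩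
  have hk0 : 0 < k := by rw [hk]; positivity
  obtain ⟨x1, hx1⟩ : ∃ x1, x1 = min 1 (ε / (768 * d)) := ⟨_, rfl⟩
  have hx10 : 0 < x1 := by rw [hx1]; exact lt_min one_pos (by positivity)
  obtain ⟨x2, hx2⟩ : ∃ x2, x2 = ε / (192 * d * (2 * (2 * k + 1) ^ d * (C + 1))) := ⟨_, rfl⟩
  have hx20 : 0 < x2 := by rw [hx2]; positivity
  refine ⟨N, k, min (min (1 / 2) (x1 ^ 320)) x2, hN1, hk0, by positivity,
    (min_le_left _ _).trans ((min_le_left _ _).trans (by norm_num)), ?_⟩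
  intro c hc hcle
  have hc12 : c ≤ 1 / 2 := hcle.trans ((min_le_left _ _).trans (min_le_left _ _))
  have hc1 : c ≤ 1 := by linarith
  have hcx1 : c ≤ x1 ^ 320 := hcle.trans ((min_le_left _ _).trans (min_le_right _ _))
  have hcx2 : c ≤ x2 := hcle.trans (min_le_right _ _)
  have hδ : c ^ (1 / 320 : ℝ) ≤ x1 := by
    have h1 := Real.rpow_le_rpow hc.le hcx1 (show (0 : ℝ) ≤ 1 / 320 by norm_num)
    refine h1.trans (le_of_eq ?_)
    rw [← Real.rpow_natCast, ← Real.rpow_mul hx10.le]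
    norm_num
  have hδ1 : c ^ (1 / 320 : ℝ) ≤ 1 := hδ.trans (by rw [hx1]; exact min_le_left _ _)
  have hδ2 : c ^ (1 / 320 : ℝ) ≤ ε / (768 * d) := hδ.trans (by rw [hx1]; exact min_le_right _ _)
  have hδ0 : 0 < c ^ (1 / 320 : ℝ) := by positivity
  obtain ⟨q, hq⟩ : ∃ q, q = c ^ (-(209 / 104) : ℝ) := ⟨_, rfl⟩
  have hq0 : 0 < q := by rw [hq]; positivity
  refine ⟨?_, ?_, ?_⟩
  · have h1 : Real.sqrt (c ^ (105 / 52 : ℝ) * c ^ 2) = c ^ (209 / 104 : ℝ) := by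
      have h2 : c ^ (105 / 52 : ℝ) * c ^ 2 = (c ^ (209 / 104 : ℝ)) ^ 2 := by
        rw [← Real.rpow_natCast (c ^ (209 / 104 : ℝ)), ← Real.rpow_mul hc.le,
          ← Real.rpow_natCast c 2, ← Real.rpow_add hc]
        norm_num
      rw [h2, Real.sqrt_sq (by positivity)]
    have h3 : c ^ (209 / 104 : ℝ) * q = 1 := by
      rw [hq, ← Real.rpow_add hc]
      norm_num
    rw [← hq, h1]
    calc (N : ℝ) * (c ^ (209 / 104 : ℝ) * (k * q)) = N * k * (c ^ (209 / 104 : ℝ) * q) := by ring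
      _ = 1 := by
          rw [h3, hk]
          field_simp
      _ ≤ 1 := le_rfl
  · have h1 : C / N + 4 * C ^ 3 / (N * m) ≤ ε / (768 * d) := by
      have e1 : C / N + 4 * C ^ 3 / (N * m) = (C + 4 * C ^ 3 / m) / N := by
        field_simp
      rw [e1, div_le_div_iff₀ hN0 (by positivity)]
      rw [div_le_iff₀ hε] at hN2
      linarith
    have hq1 : 1 ≤ q := by
      rw [hq]
      apply Real.one_le_rpow_of_pos_of_le_one_of_nonpos hc hc1
      norm_num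
    have h2 : (2 * (k * q) + 1) ^ d * c ^ (3 * d) ≤ (2 * k + 1) ^ d * c := by
      have e1 : 2 * (k * q) + 1 ≤ (2 * k + 1) * q := by nlinarith
      have e2 : (2 * (k * q) + 1) ^ d ≤ ((2 * k + 1) * q) ^ d := by gcongr
      have e3 : q ^ d * c ^ (3 * d) ≤ c := by
        rw [pow_mul, ← mul_pow]
        have e4 : q * c ^ 3 = c ^ (103 / 104 : ℝ) := by
          rw [hq, ← Real.rpow_natCast c 3, ← Real.rpow_add hc]
          norm_num
        rw [e4]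
        have e5 : (c ^ (103 / 104 : ℝ)) ^ d ≤ (c ^ (103 / 104 : ℝ)) ^ 2 := by
          apply pow_le_pow_of_le_one (by positivity) _ hd
          exact Real.rpow_le_one hc.le hc1 (by norm_num)
        refine e5.trans ?_
        rw [← Real.rpow_natCast, ← Real.rpow_mul hc.le]
        calc c ^ (103 / 104 * ((2 : ℕ) : ℝ)) ≤ c ^ (1 : ℝ) := by
              apply Real.rpow_le_rpow_of_exponent_ge hc hc1
              norm_num
          _ = c := Real.rpow_one c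
      calc (2 * (k * q) + 1) ^ d * c ^ (3 * d) ≤ ((2 * k + 1) * q) ^ d * c ^ (3 * d) := by gcongr
        _ = (2 * k + 1) ^ d * (q ^ d * c ^ (3 * d)) := by rw [mul_pow]; ring
        _ ≤ _ := by gcongr
    have h3 : 2 * (2 * (k * q) + 1) ^ d * c ^ (3 * d) * (C + c ^ (1 / 320 : ℝ)) ≤
        ε / (192 * d) := by
      calc 2 * (2 * (k * q) + 1) ^ d * c ^ (3 * d) * (C + c ^ (1 / 320 : ℝ)) =
          2 * ((2 * (k * q) + 1) ^ d * c ^ (3 * d)) * (C + c ^ (1 / 320 : ℝ)) := by ring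
        _ ≤ 2 * ((2 * k + 1) ^ d * x2) * (C + 1) := by
            have : (2 * (k * q) + 1) ^ d * c ^ (3 * d) ≤ (2 * k + 1) ^ d * x2 := by
              refine h2.trans ?_
              gcongr
            gcongr
        _ = ε / (192 * d) := by
            rw [hx2]
            field_simp
    rw [← hq]
    calc 64 * d * (4 * (C / N + 4 * C ^ 3 / (N * m) + c ^ (1 / 320 : ℝ)) +
          2 * (2 * (k * q) + 1) ^ d * c ^ (3 * d) * (C + c ^ (1 / 320 : ℝ))) ≤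
        64 * d * (4 * (ε / (768 * d) + ε / (768 * d)) + ε / (192 * d)) := by gcongr
      _ ≤ ε := by
          have e1 : 64 * (d : ℝ) * (4 * (ε / (768 * d) + ε / (768 * d)) + ε / (192 * d)) = ε := by
            field_simp
            ring
          rw [e1]
  · calc c ^ (3 * d) ≤ c ^ 1 := pow_le_pow_of_le_one hc.le hc1 (by omega)
      _ = c := pow_one c
      _ ≤ 1 / 2 := hc12

/-- **localized eigenfunctions of the Gaussian model carry little weight** -/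
theorem infG (d : ℕ) (hd : 2 ≤ d) (κ : ℝ) (hκ : 0 < κ) (hκ1 : κ ≤ 1) (ε : ℝ) (hε : 0 < ε) :
    ∃ c0 k : ℝ, 0 < c0 ∧ 0 < k ∧ ∀ s : ℝ, 0 < s → s ≤ c0 →
      ∃ G : Set (Zd d → ℝ), MeasurableSet G ∧
        1 - Real.exp (-s ^ (-(1 / 268) : ℝ)) ≤
          (Measure.infinitePi fun _ : Zd d => γ1).real G ∧
        ∀ ξ ∈ G, ∀ a : Zd d, ‖a‖ ≤ Real.exp (s ^ (-(1 / 268) : ℝ)) →
          ∀ (n : ℕ) (E : Fin n → ℝ) (u : Fin n → Zd d → ℂ),
          EigFam (fun x => 2 * d + s * ξ x) E u → (∀ j, Bk d κ (2 * d - E j)) →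
          (∀ j, ∑' x, (if ‖x - a‖ ≤ k * s ^ (-(209 / 104) : ℝ) then 0 else ‖u j x‖ ^ 2) ≤
            s ^ (3 * d)) → ∑ j, ‖u j a‖ ^ 2 ≤ ε := by
  obtain ⟨γ0, γ1', hbase⟩ := profG d hd
  obtain ⟨h1, ⟨m, hm, h2⟩, h3⟩ := hbase κ hκ hκ1
  obtain ⟨C, hC, hup⟩ := Pool.Agent.N948.AL.up d hd κ hκ hκ1
  obtain ⟨N, k, c1, hN, hk, hc1, hc11, hcon⟩ := constsG d hd m C ε hm hC hε
  obtain ⟨c0, hc0, h4⟩ := h3 ((N : ℝ) ^ 2) (by positivity)
  refine ⟨min c0 c1, k, lt_min hc0 hc1, hk, ?_⟩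
  intro s hs hsle
  obtain ⟨G, hG, hP, h5⟩ := h4 s hs (hsle.trans (min_le_left _ _))
  refine ⟨G, hG, hP, ?_⟩
  intro ξ hξ a ha n E u hfam hE htail
  have h6 := h5 ξ hξ
  have hcc1 : s ≤ c1 := hsle.trans (min_le_right _ _)
  have hcle1 : s ≤ 1 := hcc1.trans hc11
  obtain ⟨k1, k2, k3⟩ := hcon s hs hcc1
  have hη0 : 0 < s ^ (105 / 52 : ℝ) := by positivity
  have hη1 : s ^ (105 / 52 : ℝ) ≤ 1 := Real.rpow_le_one hs.le hcle1 (by norm_num)
  refine (weight2 hd hfam a (s ^ (105 / 52 : ℝ)) hη0 hη1 (s ^ 2) (by positivity) κ hκ hκ1 γ0 γ1'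
    (2 * d) m C (s ^ (1 / 320 : ℝ)) (k * s ^ (-(209 / 104) : ℝ)) (s ^ (3 * d)) N hN hm
    (by positivity) ?_ (by positivity) k1 (by positivity) k3 hE ?_ htail).trans k2
  · intro X hX
    obtain ⟨l0, l1, l2, l3⟩ := h1 X hX.1
    refine ⟨h2 X hX.1 hX.2, l3, ?_⟩
    exact (Complex.im_le_norm _).trans (hup X hX.1 _ l0)
  · intro e he
    refine ⟨?_, fun w hw p hp => ?_⟩
    · exact rs_exists_all (by omega) _ a e _ hη0 hη1
    · refine h6 a ha e he (s ^ (105 / 52 : ℝ)) le_rfl ?_ w hw p hp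
      apply Real.rpow_le_rpow_of_exponent_ge hs hcle1
      norm_num

end Pool.Agent.N933.GS
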