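import Pool.Agent.N933.GS.ProfG

/-! The eigenvectors on large tori for Gaussian disorder. -/

set_option autoImplicit false
set_option linter.unusedVariables false

open scoped BigOperators Topology
open MeasureTheory Filter Set

namespace Pool.Agent.N933.GS

open Pool.Agent.R988 hiding base
open Pool.Agent.R988.Tor hiding cmp
open Pool.Agent.H4R2.LO (Zd)
open Pool.Agent.TH794.HK (ph Tg)
open Pool.Agent.TH794.QE (Rs RegE)
open Pool.Agent.TH794.QD (GF F0 F1)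
open Pool.Agent.N933.AL

/-- the union bound, in numbers -/
theorem union_numG (d : ℕ) (lam : ℝ) (hlam : 0 < lam) (hlam1 : lam ≤ 1)
    (h : (2 * d + 3) * lam ^ (1 / 72092 : ℝ) ≤ 1) :
    1 - Real.exp (-lam ^ (-(1 / 269) : ℝ)) ≤
      1 - ((⌊Real.exp (lam ^ (-(1 / 269) : ℝ))⌋₊ : ℝ) + 1) ^ (d + 1) *
        Real.exp (-lam ^ (-(1 / 268) : ℝ)) := by
  obtain ⟨x, hx⟩ : ∃ x, x = lam ^ (-(1 / 269) : ℝ) := ⟨_, rfl⟩
  obtain ⟨y, hy⟩ : ∃ y, y = lam ^ (-(1 / 268) : ℝ) := ⟨_, rfl⟩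
  rw [← hx, ← hy]
  have hx1 : 1 ≤ x := by
    rw [hx]
    exact Real.one_le_rpow_of_pos_of_le_one_of_nonpos hlam hlam1 (by norm_num)
  have hxy : (2 * d + 3) * x ≤ y := by
    have e1 : x = lam ^ (1 / 72092 : ℝ) * y := by
      rw [hx, hy, ← Real.rpow_add hlam]
      norm_num
    have hy0 : 0 < y := by rw [hy]; exact Real.rpow_pos_of_pos hlam _
    calc (2 * d + 3) * x = ((2 * d + 3) * lam ^ (1 / 72092 : ℝ)) * y := by
          rw [e1]
          ring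
      _ ≤ 1 * y := by gcongr
      _ = y := one_mul y
  have h1 : (⌊Real.exp x⌋₊ : ℝ) + 1 ≤ Real.exp (2 * x) := by
    have h2 : (⌊Real.exp x⌋₊ : ℝ) ≤ Real.exp x := Nat.floor_le (Real.exp_pos _).le
    have h3 : (2 : ℝ) ≤ Real.exp x := by
      have := Real.add_one_le_exp x
      linarith
    have h4 : Real.exp (2 * x) = Real.exp x * Real.exp x := by
      rw [← Real.exp_add]
      ring_nf
    rw [h4]
    nlinarith
  have h5 : ((⌊Real.exp x⌋₊ : ℝ) + 1) ^ (d + 1) ≤ Real.exp ((2 * x) * (d + 1)) := by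
    have h6 : Real.exp ((2 * x) * (d + 1)) = Real.exp (2 * x) ^ (d + 1) := by
      rw [← Real.exp_nat_mul]
      push_cast
      ring_nf
    rw [h6]
    gcongr
  have h7 : ((⌊Real.exp x⌋₊ : ℝ) + 1) ^ (d + 1) * Real.exp (-y) ≤ Real.exp (-x) := by
    calc ((⌊Real.exp x⌋₊ : ℝ) + 1) ^ (d + 1) * Real.exp (-y) ≤
        Real.exp ((2 * x) * (d + 1)) * Real.exp (-y) := by gcongr
      _ = Real.exp ((2 * x) * (d + 1) - y) := by
          rw [← Real.exp_add]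
          ring_nf
      _ ≤ Real.exp (-x) := by
          apply Real.exp_le_exp.2
          linarith
  linarith

/-- **one window** -/
theorem oneG (d : ℕ) (hd : 2 ≤ d) (κ : ℝ) (hκ : 0 < κ) (hκ1 : κ ≤ 1) (ε : ℝ) (hε : 0 < ε) : ∃ lam0 m c : ℝ, 0 < lam0 ∧ lam0 ≤ 1 ∧ 0 < m ∧ 0 < c ∧
    ∀ lam : ℝ, 0 < lam → lam ≤ lam0 →
    ∃ G : Set (Zd d → ℝ), MeasurableSet G ∧
      1 - Real.exp (-lam ^ (-(1 / 269) : ℝ)) ≤ (Measure.infinitePi fun _ : Zd d => γ1).real G ∧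
      ∀ ω ∈ G, ∀ (L : ℕ) [NeZero L], lam ^ (-7 : ℝ) ≤ L →
        (L : ℝ) ≤ Real.exp (lam ^ (-(1 / 269) : ℝ)) →
      ∀ e w : ℝ, 8 * lam ^ (105 / 52 : ℝ) ≤ w → w ≤ 16 * lam ^ (105 / 52 : ℝ) →
        Bulk d κ (2 * d - e) →
      ∀ {ι : Type} [Fintype ι] [DecidableEq ι] (ψ : ι → TT d L → ℂ) (E : ι → ℝ),
        EB (fun x => 2 * d + lam * ω (em x)) ψ E →
        m / 16 * w * (Fintype.card (TT d L)) ≤
          ((Finset.univ.filter fun j => |E j - e| ≤ w).card : ℝ) ∧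
        ∀ i : Fin d, (((Finset.univ.filter fun j => |E j - e| ≤ w ∧ ∃ y : ZMod L,
          ε ≤ ∑ x : TT d L, if |((x i - y).valMinAbs : ℝ)| ≤ c * lam ^ (-(209 / 104) : ℝ)
            then ‖ψ j x‖ ^ 2 else 0).card : ℝ)) ≤
          ε * (m / 32 * w * (Fintype.card (TT d L))) := by
  obtain ⟨γ0, γ1', hbase⟩ := profG d hd
  obtain ⟨hlim, ⟨m, hm, hlow⟩, hprof⟩ := hbase κ hκ hκ1
  obtain ⟨C0, hC0, hup⟩ := up d hd κ hκ hκ1
  obtain ⟨τ, hτ⟩ : ∃ τ, τ = ε ^ 3 * m / 512 := ⟨_, rfl⟩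
  have hτ0 : 0 < τ := by rw [hτ]; positivity
  obtain ⟨θ, hθ⟩ : ∃ θ, θ = τ / (16 * C0) := ⟨_, rfl⟩
  have hθ0 : 0 < θ := by rw [hθ]; positivity
  obtain ⟨K, hK⟩ : ∃ K, K = 16 * C0 ^ 3 / (τ * θ ^ 2 * m) := ⟨_, rfl⟩
  have hK0 : 0 < K := by rw [hK]; positivity
  obtain ⟨s, hs⟩ : ∃ s, s = min (τ / 4) (m / 5) := ⟨_, rfl⟩
  have hs0 : 0 < s := by rw [hs]; exact lt_min (by positivity) (by positivity)
  obtain ⟨c0, hc0, hc1⟩ := hprof K hK0.le
  obtain ⟨c, hc⟩ : ∃ c, c = 1 / (8 * Real.sqrt K) := ⟨_, rfl⟩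
  have hsK : 0 < Real.sqrt K := Real.sqrt_pos.2 hK0
  have hcp : 0 < c := by rw [hc]; positivity
  have hc2 : 64 * K * c ^ 2 = 1 := by
    rw [hc, div_pow, mul_pow, Real.sq_sqrt hK0.le]
    field_simp
    norm_num
  have hpi := Real.pi_pos
  obtain ⟨l1, hl1, hl11, hnum⟩ := ev_extract
    ((ev1 (2 / s) (1 / 320) (by norm_num)).and
    ((ev1 (160 * d / s) (49 / 52) (by norm_num)).and
    ((ev1 ((2 * Real.pi) ^ 2 * (1 + 4 * C0 / τ) ^ 2 / (8 * K)) (519 / 52) (by norm_num)).and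
    ((ev1 16 (3 / 260) (by norm_num)).and
    ((ev1 (2 * d + 3) (1 / 72092) (by norm_num)).and
    ((ev1 4 7 (by norm_num))))))))
  refine ⟨min c0 l1, m, c, lt_min hc0 hl1, (min_le_right _ _).trans hl11, hm, hcp, ?_⟩
  intro lam hlam hle
  have hle0 : lam ≤ c0 := hle.trans (min_le_left _ _)
  have hle1 : lam ≤ l1 := hle.trans (min_le_right _ _)
  have hlam1 : lam ≤ 1 := hle1.trans hl11
  obtain ⟨n1, n2, n3, n4, n5, n6⟩ := hnum lam hlam hle1
  obtain ⟨G, hG, hP, hL⟩ := hc1 lam hlam hle0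
  obtain ⟨N, hN⟩ : ∃ N : ℕ, N = ⌊Real.exp (lam ^ (-(1 / 269) : ℝ))⌋₊ := ⟨_, rfl⟩
  obtain ⟨G', hG', hP', hL'⟩ := union γ1 G hG _ (Real.exp_pos _).le hP N
  have hpos : ∀ p : ℝ, 0 < lam ^ p := fun p => Real.rpow_pos_of_pos hlam p
  have hadd : ∀ p q : ℝ, lam ^ p * lam ^ q = lam ^ (p + q) :=
    fun p q => (Real.rpow_add hlam p q).symm
  refine ⟨G', hG', ?_, ?_⟩
  · refine le_trans ?_ hP'
    rw [hN]
    exact union_numG d lam hlam hlam1 n5
  intro ω hω L hL0 hLlow hLup e w hw1 hw2 hbulk ι _ _ ψ E hEB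
  obtain ⟨hωG, hωc⟩ := hL' ω hω
  have hLN : L ≤ N := by
    rw [hN]
    exact Nat.le_floor hLup
  have hw0 : 0 < w := by
    have := hpos (105 / 52)
    linarith
  -- the size of the torus
  have hL4 : (4 : ℝ) ≤ L := by
    refine le_trans ?_ hLlow
    have e1 : lam ^ (-7 : ℝ) * lam ^ (7 : ℝ) = 1 := by
      rw [hadd]
      norm_num
    have h1 := hpos 7
    have h2 : 4 * lam ^ (7 : ℝ) ≤ lam ^ (-7 : ℝ) * lam ^ (7 : ℝ) := by
      rw [e1]
      exact n6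
    exact le_of_mul_le_mul_right h2 h1
  have hL4' : 4 ≤ L := by exact_mod_cast hL4
  obtain ⟨z, hz⟩ : ∃ z : Zd d, z = fun _ => ((L / 2 : ℕ) : ℤ) := ⟨_, rfl⟩
  obtain ⟨ρ, hρ⟩ : ∃ ρ : ℝ, ρ = L / 4 := ⟨_, rfl⟩
  have hρ1 : 1 ≤ ρ := by rw [hρ]; linarith
  have hzc : ∀ i, ρ ≤ z i ∧ ρ + 1 ≤ L - z i := by
    intro i
    have h1 : (2 : ℝ) * ((L / 2 : ℕ) : ℝ) ≤ L := by
      have : 2 * (L / 2) ≤ L := Nat.mul_div_le L 2
      exact_mod_cast this
    have h2 : (L : ℝ) ≤ 2 * ((L / 2 : ℕ) : ℝ) + 1 := by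
      have : L ≤ 2 * (L / 2) + 1 := by omega
      exact_mod_cast this
    rw [hz, hρ]
    simp only [Int.cast_natCast]
    constructor <;> linarith
  have hzn : ‖z‖ ≤ Real.exp (lam ^ (-(1 / 268) : ℝ)) := by
    have h1 : ‖z‖ ≤ (L : ℝ) := by
      refine (pi_norm_le_iff_of_nonneg (by positivity)).2 fun i => ?_
      rw [hz]
      simp only
      rw [Int.norm_natCast]
      have : L / 2 ≤ L := Nat.div_le_self L 2
      exact_mod_cast this
    refine h1.trans (hLup.trans (Real.exp_le_exp.2 ?_))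
    exact Real.rpow_le_rpow_of_exponent_ge hlam hlam1 (by norm_num)
  have hw8 : lam ^ (105 / 52 : ℝ) ≤ w / 8 := by linarith
  have hw16 : w ≤ lam ^ (261 / 130 : ℝ) := by
    refine hw2.trans ?_
    have e1 : lam ^ (105 / 52 : ℝ) = lam ^ (3 / 260 : ℝ) * lam ^ (261 / 130 : ℝ) := by
      rw [hadd]
      norm_num
    rw [e1]
    have := hpos (261 / 130)
    nlinarith
  have hwle : w ≤ 1 := hw16.trans (Real.rpow_le_one hlam.le hlam1 (by norm_num))
  obtain ⟨h5, h6⟩ := hlim _ hbulk.1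
  obtain ⟨h7, h8, h9⟩ := h6
  have hE0 : (γ0 (2 * d - e)).im ≤ C0 :=
    (Complex.im_le_norm _).trans (hup _ _ hbulk.1 h5)
  have hE1 : m ≤ (γ1' (2 * d - e)).im := hlow _ hbulk.1 hbulk.2
  -- the errors
  have herr : lam ^ (1 / 320 : ℝ) + 10240 * d * (w⁻¹) ^ 3 / ρ ≤ s := by
    have e1 : lam ^ (1 / 320 : ℝ) ≤ s / 2 := by
      have : 2 / s * lam ^ (1 / 320 : ℝ) = lam ^ (1 / 320 : ℝ) / (s / 2) := by
        field_simp
      rw [this, div_le_one (by positivity)] at n1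
      exact n1
    have e2 : 80 * d * lam ^ (49 / 52 : ℝ) ≤ s / 2 := by
      have : 160 * d / s * lam ^ (49 / 52 : ℝ) = (80 * d * lam ^ (49 / 52 : ℝ)) / (s / 2) := by
        field_simp
        norm_num
      rw [this, div_le_one (by positivity)] at n2
      exact n2
    have e3 : w⁻¹ ≤ lam ^ (-(105 / 52) : ℝ) / 8 := by
      rw [inv_le_comm₀ hw0 (by have := hpos (-(105 / 52)); positivity), inv_div, Real.rpow_neg hlam.le]
      rw [div_inv_eq_mul]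
      exact hw1
    have e4 : (w⁻¹) ^ 3 ≤ lam ^ (-(315 / 52) : ℝ) / 512 := by
      calc (w⁻¹) ^ 3 ≤ (lam ^ (-(105 / 52) : ℝ) / 8) ^ 3 := by
            have : 0 < w⁻¹ := inv_pos.2 hw0
            gcongr
        _ = lam ^ (-(315 / 52) : ℝ) / 512 := by
            rw [div_pow, ← Real.rpow_natCast, ← Real.rpow_mul hlam.le]
            norm_num
    have e5 : 10240 * d * (w⁻¹) ^ 3 / ρ ≤ 80 * d * lam ^ (49 / 52 : ℝ) := by
      rw [div_le_iff₀ (by linarith)]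
      have e6 : lam ^ (-(315 / 52) : ℝ) = lam ^ (49 / 52 : ℝ) * lam ^ (-7 : ℝ) := by
        rw [hadd]
        norm_num
      calc 10240 * d * (w⁻¹) ^ 3 ≤ 10240 * d * (lam ^ (-(315 / 52) : ℝ) / 512) := by gcongr
        _ = 20 * d * lam ^ (49 / 52 : ℝ) * lam ^ (-7 : ℝ) := by
            rw [e6]
            ring
        _ ≤ 20 * d * lam ^ (49 / 52 : ℝ) * L := by
            have := hpos (49 / 52)
            gcongr
        _ = _ := by
            rw [hρ]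
            ring
    linarith
  have hℓ : K * (w * (lam ^ 2)) * (2 * (c * lam ^ (-(209 / 104) : ℝ))) ^ 2 ≤ 1 := by
    have e1 : (lam ^ (-(209 / 104) : ℝ)) ^ 2 = lam ^ (-(209 / 52) : ℝ) := by
      rw [← Real.rpow_natCast, ← Real.rpow_mul hlam.le]
      norm_num
    have e2 : lam ^ (105 / 52 : ℝ) * (lam ^ 2 * lam ^ (-(209 / 52) : ℝ)) = 1 := by
      rw [← Real.rpow_natCast lam 2, hadd, hadd]
      norm_num
    calc K * (w * (lam ^ 2)) * (2 * (c * lam ^ (-(209 / 104) : ℝ))) ^ 2 ≤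
        K * ((16 * lam ^ (105 / 52 : ℝ)) * lam ^ 2) *
          (2 * (c * lam ^ (-(209 / 104) : ℝ))) ^ 2 := by gcongr
      _ = 64 * K * c ^ 2 * (lam ^ (105 / 52 : ℝ) *
            (lam ^ 2 * (lam ^ (-(209 / 104) : ℝ)) ^ 2)) := by ring
      _ = 1 := by rw [e1, e2, hc2, mul_one]
  have hB : (2 * Real.pi) ^ 2 * (1 + 4 * C0 / τ) ^ 2 ≤ (L : ℝ) ^ 2 * (K * (w * (lam ^ 2))) := by
    have e1 : lam ^ (-7 : ℝ) * lam ^ (-7 : ℝ) * (lam ^ (105 / 52 : ℝ) * lam ^ 2) *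
        lam ^ (519 / 52 : ℝ) = 1 := by
      rw [← Real.rpow_natCast lam 2, hadd, hadd, hadd, hadd]
      norm_num
    obtain ⟨Q, hQ⟩ : ∃ Q, Q = (2 * Real.pi) ^ 2 * (1 + 4 * C0 / τ) ^ 2 := ⟨_, rfl⟩
    rw [← hQ] at n3 ⊢
    have hQ2 : Q * lam ^ (519 / 52 : ℝ) ≤ 8 * K := by
      have : Q / (8 * K) * lam ^ (519 / 52 : ℝ) = (Q * lam ^ (519 / 52 : ℝ)) / (8 * K) := by
        ring
      rw [this, div_le_one (by positivity)] at n3
      exact n3
    have hp7 := hpos (-7)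
    calc Q = Q * lam ^ (519 / 52 : ℝ) *
          (lam ^ (-7 : ℝ) * lam ^ (-7 : ℝ) * (lam ^ (105 / 52 : ℝ) * lam ^ 2)) := by
          linear_combination (-Q) * e1
      _ ≤ (8 * K) * (lam ^ (-7 : ℝ) * lam ^ (-7 : ℝ) * (lam ^ (105 / 52 : ℝ) * lam ^ 2)) := by
          have := hpos (105 / 52)
          gcongr
      _ = (lam ^ (-7 : ℝ) * lam ^ (-7 : ℝ)) * (K * ((8 * lam ^ (105 / 52 : ℝ)) * (lam ^ 2))) := by
          ring
      _ ≤ ((L : ℝ) * L) * (K * (w * (lam ^ 2))) := by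
          gcongr
      _ = _ := by ring
  have hdet := detU (L := L) (by omega : 0 < d) lam z ρ hρ1 hzc e w (lam ^ 2) hw0 hwle
    (by positivity) γ0 γ1' (2 * d - e) C0 m K (lam ^ (1 / 320 : ℝ)) hm hE0 hE1 h9 hK0
    (fun η hη sft u hu p hp => by
      have hη1 : lam ^ (105 / 52 : ℝ) ≤ η := by
        rcases hη with hη | hη <;> rw [hη]
        · have := hpos (105 / 52)
          linarith
        · exact hw8
      have hη2 : η ≤ lam ^ (261 / 130 : ℝ) := by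
        rcases hη with hη | hη <;> rw [hη]
        · exact hw16
        · linarith
      exact hL _ (hωc L hLN sft) z hzn e hbulk η hη1 hη2 u hu p hp)
    ε θ τ (c * lam ^ (-(209 / 104) : ℝ)) hε hθ0 hτ0
    (by
      rw [hθ]
      apply le_of_eq
      field_simp)
    (by
      rw [hK]
      apply le_of_eq
      field_simp)
    (herr.trans (by rw [hs]; exact min_le_left _ _))
    (herr.trans (by rw [hs]; exact min_le_right _ _)) hℓ hB hEB
  refine ⟨hdet.1, fun i => ?_⟩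
  have h10 := hdet.2 i
  obtain ⟨A, hA⟩ : ∃ A : ℝ, A = ((Finset.univ.filter fun j => |E j - e| ≤ w ∧ ∃ y : ZMod L,
          ε ≤ ∑ x : TT d L, if |((x i - y).valMinAbs : ℝ)| ≤ c * lam ^ (-(209 / 104) : ℝ)
            then ‖ψ j x‖ ^ 2 else 0).card : ℝ) := ⟨_, rfl⟩
  rw [← hA] at h10 ⊢
  have h11 : A * ε ^ 2 ≤ ε * (m / 32 * w * (Fintype.card (TT d L))) * ε ^ 2 := by
    refine h10.trans (le_of_eq ?_)
    rw [hτ]
    ring
  exact le_of_mul_le_mul_right h11 (by positivity)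

/-- **all windows** -/
theorem allG (d : ℕ) (hd : 2 ≤ d) (κ : ℝ) (hκ : 0 < κ) (hκ1 : κ ≤ 1) (ε : ℝ) (hε : 0 < ε) : ∃ lam0 c : ℝ, 0 < lam0 ∧ 0 < c ∧
    ∀ lam : ℝ, 0 < lam → lam ≤ lam0 →
    ∃ G : Set (Zd d → ℝ), MeasurableSet G ∧
      1 - Real.exp (-lam ^ (-(1 / 269) : ℝ)) ≤ (Measure.infinitePi fun _ : Zd d => γ1).real G ∧
      ∀ ω ∈ G, ∀ (L : ℕ) [NeZero L], lam ^ (-7 : ℝ) ≤ L →
        (L : ℝ) ≤ Real.exp (lam ^ (-(1 / 269) : ℝ)) →
      ∀ e w : ℝ, 8 * lam ^ (105 / 52 : ℝ) ≤ w →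
        (∀ e' : ℝ, |e' - e| ≤ w → Bulk d κ (2 * d - e')) →
      ∀ {ι : Type} [Fintype ι] [DecidableEq ι] (ψ : ι → TT d L → ℂ) (E : ι → ℝ),
        EB (fun x => 2 * d + lam * ω (em x)) ψ E →
        c * w * (L : ℝ) ^ d ≤ ((Finset.univ.filter fun j => |E j - e| ≤ w).card : ℝ) ∧
        ∀ i : Fin d, (((Finset.univ.filter fun j => |E j - e| ≤ w ∧ ∃ y : ZMod L,
          ε ≤ ∑ x : TT d L, if |((x i - y).valMinAbs : ℝ)| ≤ c * lam ^ (-(209 / 104) : ℝ)
            then ‖ψ j x‖ ^ 2 else 0).card : ℝ)) ≤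
          ε * ((Finset.univ.filter fun j => |E j - e| ≤ w).card : ℝ) := by
  classical
  obtain ⟨lam0, m, c, hlam0, hlam01, hm, hc, h⟩ := oneG d hd κ hκ hκ1 ε hε
  refine ⟨lam0, min (m / 32) c, hlam0, lt_min (by positivity) hc, ?_⟩
  intro lam hlam hle
  obtain ⟨G, hG, hP, hL⟩ := h lam hlam hle
  refine ⟨G, hG, hP, ?_⟩
  intro ω hω L hL0 hLlow hLup e w hw hbulk ι _ _ ψ E hEB
  have hpos : ∀ p : ℝ, 0 < lam ^ p := fun p => Real.rpow_pos_of_pos hlam p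
  obtain ⟨q, hq⟩ : ∃ q, q = 8 * lam ^ (105 / 52 : ℝ) := ⟨_, rfl⟩
  have hq0 : 0 < q := by
    rw [hq]
    have := hpos (105 / 52)
    positivity
  have hq16 : 16 * lam ^ (105 / 52 : ℝ) = 2 * q := by rw [hq]; ring
  have hcard : (Fintype.card (TT d L) : ℝ) = (L : ℝ) ^ d := by
    rw [Fintype.card_fun, ZMod.card, Fintype.card_fin]
    push_cast
    rfl
  rw [← hq] at hw
  obtain ⟨n, hn⟩ : ∃ n : ℕ, n = ⌈w / (2 * q)⌉₊ := ⟨_, rfl⟩
  have hw0 : 0 < w := hq0.trans_le hw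
  have hn1 : 1 ≤ n := by
    rw [hn]
    exact Nat.one_le_ceil_iff.2 (by positivity)
  have hnR : (1 : ℝ) ≤ n := by exact_mod_cast hn1
  obtain ⟨w0, hw0'⟩ : ∃ w0, w0 = w / n := ⟨_, rfl⟩
  have hnw : (n : ℝ) * w0 = w := by
    rw [hw0']
    field_simp
  have hw0p : 0 < w0 := by rw [hw0']; positivity
  have hup : w0 ≤ 2 * q := by
    rw [hw0', div_le_iff₀ (by linarith)]
    have h1 : w / (2 * q) ≤ n := by
      rw [hn]
      exact Nat.le_ceil _
    rw [div_le_iff₀ (by positivity)] at h1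
    linarith
  have hlow : q ≤ w0 := by
    rw [hw0', le_div_iff₀ (by linarith)]
    have h1 : (n : ℝ) < w / (2 * q) + 1 := by
      rw [hn]
      exact Nat.ceil_lt_add_one (by positivity)
    rcases le_or_gt w (2 * q) with h2 | h2
    · have h3 : n ≤ 1 := by
        rw [hn]
        refine Nat.ceil_le.2 ?_
        rw [div_le_iff₀ (by positivity)]
        push_cast
        linarith
      have h4 : (n : ℝ) ≤ 1 := by exact_mod_cast h3
      nlinarith
    · have h3 : (n : ℝ) * (2 * q) < w + 2 * q := by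
        have := mul_lt_mul_of_pos_right h1 (by positivity : 0 < 2 * q)
        rw [add_mul, div_mul_cancel₀ _ (by positivity), one_mul] at this
        exact this
      nlinarith
  have hwin : ∀ k, k < n → Bulk d κ (2 * d - ctr e w0 n k) := by
    intro k hk
    refine hbulk _ ?_
    rw [← hnw]
    exact ctr_near e w0 hw0p n k hk _ (by simpa using hw0p.le)
  have hk : ∀ k, k < n → _ := fun k hk => hL ω hω L hLlow hLup (ctr e w0 n k) w0
    (by rw [← hq]; exact hlow) (by rw [hq16]; exact hup) (hwin k hk) ψ E hEB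
  have hI : m / 32 * w * (L : ℝ) ^ d ≤ ((Finset.univ.filter fun j => |E j - e| ≤ w).card : ℝ) := by
    have h1 := tile_a E e w0 hw0p n
    rw [hnw] at h1
    have h2 : ∑ k ∈ Finset.range n, (m / 16 * w0 * (L : ℝ) ^ d) ≤
        ∑ k ∈ Finset.range n,
          ((Finset.univ.filter fun j => |E j - ctr e w0 n k| ≤ w0).card : ℝ) := by
      refine Finset.sum_le_sum fun k hk' => ?_
      have := (hk k (Finset.mem_range.1 hk')).1
      rw [hcard] at this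
      exact this
    rw [Finset.sum_const, Finset.card_range, nsmul_eq_mul] at h2
    have h3 : (n : ℝ) * (m / 16 * w0 * (L : ℝ) ^ d) = 2 * (m / 32 * w * (L : ℝ) ^ d) := by
      rw [← hnw]
      ring
    linarith
  have hLd : 0 ≤ (L : ℝ) ^ d := by positivity
  refine ⟨le_trans ?_ hI, fun i => ?_⟩
  · gcongr
    exact min_le_left _ _
  · have h1 := tile_b E (fun j => ∃ y : ZMod L,
      ε ≤ ∑ x : TT d L, if |((x i - y).valMinAbs : ℝ)| ≤ c * lam ^ (-(209 / 104) : ℝ)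
            then ‖ψ j x‖ ^ 2 else 0) e w0 hw0p n hn1
    rw [hnw] at h1
    have h2 : ∑ k ∈ Finset.range n,
        ((Finset.univ.filter fun j => |E j - ctr e w0 n k| ≤ w0 ∧ ∃ y : ZMod L,
          ε ≤ ∑ x : TT d L, if |((x i - y).valMinAbs : ℝ)| ≤ c * lam ^ (-(209 / 104) : ℝ)
            then ‖ψ j x‖ ^ 2 else 0).card : ℝ) ≤
        ∑ k ∈ Finset.range n, ε * (m / 32 * w0 * (L : ℝ) ^ d) := by
      refine Finset.sum_le_sum fun k hk' => ?_
      have := (hk k (Finset.mem_range.1 hk')).2 i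
      rw [hcard] at this
      convert this using 3
    rw [Finset.sum_const, Finset.card_range, nsmul_eq_mul] at h2
    have h3 : (n : ℝ) * (ε * (m / 32 * w0 * (L : ℝ) ^ d)) = ε * (m / 32 * w * (L : ℝ) ^ d) := by
      rw [← hnw]
      ring
    rw [h3] at h2
    have h4 : ((Finset.univ.filter fun j => |E j - e| ≤ w ∧ ∃ y : ZMod L,
          ε ≤ ∑ x : TT d L, if |((x i - y).valMinAbs : ℝ)| ≤ min (m / 32) c *
            lam ^ (-(209 / 104) : ℝ) then ‖ψ j x‖ ^ 2 else 0).card : ℝ) ≤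
        ((Finset.univ.filter fun j => |E j - e| ≤ w ∧ ∃ y : ZMod L,
          ε ≤ ∑ x : TT d L, if |((x i - y).valMinAbs : ℝ)| ≤ c * lam ^ (-(209 / 104) : ℝ)
            then ‖ψ j x‖ ^ 2 else 0).card : ℝ) := by
      have h5 : (Finset.univ.filter fun j => |E j - e| ≤ w ∧ ∃ y : ZMod L,
          ε ≤ ∑ x : TT d L, if |((x i - y).valMinAbs : ℝ)| ≤ min (m / 32) c *
            lam ^ (-(209 / 104) : ℝ) then ‖ψ j x‖ ^ 2 else 0) ⊆
          (Finset.univ.filter fun j => |E j - e| ≤ w ∧ ∃ y : ZMod L,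
          ε ≤ ∑ x : TT d L, if |((x i - y).valMinAbs : ℝ)| ≤ c * lam ^ (-(209 / 104) : ℝ)
            then ‖ψ j x‖ ^ 2 else 0) := by
        intro j hj
        rw [Finset.mem_filter] at hj ⊢
        obtain ⟨hj0, hj1, y, hy⟩ := hj
        refine ⟨hj0, hj1, y, hy.trans (Finset.sum_le_sum fun x _ => ?_)⟩
        by_cases h6 : |((x i - y).valMinAbs : ℝ)| ≤ min (m / 32) c * lam ^ (-(209 / 104) : ℝ)
        · have h7 : |((x i - y).valMinAbs : ℝ)| ≤ c * lam ^ (-(209 / 104) : ℝ) := by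
            refine h6.trans ?_
            have := hpos (-(209 / 104))
            gcongr
            exact min_le_right _ _
          rw [if_pos h6, if_pos h7]
        · rw [if_neg h6]
          split_ifs <;> positivity
      exact_mod_cast Finset.card_le_card h5
    refine h4.trans ?_
    refine le_trans (by convert h1 using 3) (h2.trans ?_)
    gcongr

end Pool.Agent.N933.GS
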