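import Pool.Agent.N933.GS.Prof
import Pool.Agent.N933.GQ.Base

/-! Locality of the second moment of the resolvent for arbitrary real potentials. -/

set_option autoImplicit false
set_option linter.unusedSectionVars false
set_option linter.unusedVariables false

open scoped BigOperators ComplexConjugate Topology
open Set Filter

namespace Pool.Agent.N933.GS

open Pool.Agent.H4R2.LO (Zd)
open Pool.Agent.TH794.QE (Rs rs_exists rs_LS QM QM_eq)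
open Pool.Agent.TH794.QD
open Pool.Agent.TH794.FG

variable {d : ℕ}

/-- the fourth moment of the resolvent -/
theorem fourth {V : Zd d → ℝ} {a : Zd d} {e η : ℝ} {u : Zd d → ℂ} (h : Rs d V a e η u)
    (hη : 0 < η) (hη1 : η ≤ 1) (j : Fin d) :
    (Summable fun x => ((x j : ℝ) - a j) ^ 4 * ‖u x‖ ^ 2) ∧
    ∑' x, ((x j : ℝ) - a j) ^ 4 * ‖u x‖ ^ 2 ≤ 176 * (η⁻¹) ^ 6 := by
  have hV : ∀ x, V x = 0 - 1 * (fun x => -V x) x := fun x => by ring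
  have h0 := rs_LS h (fun x => -V x) 0 1 hV
  have h1 : LS d 1 (fun x => -V (x + a)) (Pi.single 0 1) (fun _ => 0) (0 - e) η
      (fun x => -(u (x + a)).re) (fun x => (u (x + a)).im) :=
    LS.shift (fr := Pi.single 0 1) (fi := fun _ => 0) a h0
  obtain ⟨-, -, -, h2⟩ := green h1 hη hη1 j
  obtain ⟨s1, s2, h3⟩ := h2 j
  have e1 : ∀ x : Zd d, (((((Equiv.addRight a) x) j : ℤ) : ℝ) - a j) ^ 4 *
      ‖u ((Equiv.addRight a) x)‖ ^ 2 = (cj j x * (cj j x * -(u (x + a)).re)) ^ 2 +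
        (cj j x * (cj j x * (u (x + a)).im)) ^ 2 := by
    intro x
    simp only [Equiv.coe_addRight, Pi.add_apply]
    rw [← Complex.normSq_eq_norm_sq, Complex.normSq_apply]
    unfold cj
    push_cast
    ring
  have s3 : Summable fun x => ((x j : ℝ) - a j) ^ 4 * ‖u x‖ ^ 2 := by
    rw [← (Equiv.addRight a).summable_iff]
    refine (s1.add s2).congr fun x => ?_
    simp only [Function.comp]
    rw [e1]
  refine ⟨s3, ?_⟩
  rw [← (Equiv.addRight a).tsum_eq fun x => ((x j : ℝ) - a j) ^ 4 * ‖u x‖ ^ 2,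
    tsum_congr e1, s1.tsum_add s2]
  exact h3

/-- **locality of the second moment** -/
theorem cmp_mom {V V' : Zd d → ℝ} {a : Zd d} {e η : ℝ} (hη : 0 < η) (hη1 : η ≤ 1) (hd : 1 ≤ d)
    {ρ : ℝ} (hρ : 0 < ρ) (hV : ∀ x, ‖x - a‖ ≤ 2 * ρ → V x = V' x) {u v : Zd d → ℂ}
    (hu : Rs d V' a e η u) (hv : Rs d V a e η v) (j : Fin d) :
    |QM a j u - QM a j v| ≤ (8 * d ^ 2 + 352) / ρ * (η⁻¹) ^ 6 := by
  have hd1 : (1 : ℝ) ≤ d := by exact_mod_cast hd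
  obtain ⟨c1, c2⟩ := cmp hη hη1 hd hρ hV hu hv
  obtain ⟨f1, f2⟩ := fourth hu hη hη1 j
  obtain ⟨g1, g2⟩ := fourth hv hη hη1 j
  have hVu : ∀ x, V' x = 0 - 1 * (fun x => -V' x) x := fun x => by ring
  have hVv : ∀ x, V x = 0 - 1 * (fun x => -V x) x := fun x => by ring
  have su := (QM_eq hu _ 0 1 hVu hη hη1 j).1
  have sv := (QM_eq hv _ 0 1 hVv hη hη1 j).1
  have hηi : 1 ≤ η⁻¹ := (one_le_inv₀ hη).2 hη1
  unfold QM
  rw [← su.tsum_sub sv]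
  have hb : ∀ x, ‖((x j : ℝ) - a j) ^ 2 * ‖u x‖ ^ 2 - ((x j : ℝ) - a j) ^ 2 * ‖v x‖ ^ 2‖ ≤
      ρ / 2 * ‖u x - v x‖ ^ 2 + 1 / ρ * (((x j : ℝ) - a j) ^ 4 * ‖u x‖ ^ 2 +
        ((x j : ℝ) - a j) ^ 4 * ‖v x‖ ^ 2) := by
    intro x
    obtain ⟨p, hp⟩ : ∃ p, p = ‖u x‖ := ⟨_, rfl⟩
    obtain ⟨q, hq⟩ : ∃ q, q = ‖v x‖ := ⟨_, rfl⟩
    obtain ⟨w, hw⟩ : ∃ w, w = ‖u x - v x‖ := ⟨_, rfl⟩
    obtain ⟨X, hX⟩ : ∃ X, X = ((x j : ℝ) - a j) ^ 2 := ⟨_, rfl⟩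
    have hX0 : 0 ≤ X := by rw [hX]; positivity
    have hX4 : ((x j : ℝ) - a j) ^ 4 = X ^ 2 := by rw [hX]; ring
    have hp0 : 0 ≤ p := by rw [hp]; exact norm_nonneg _
    have hq0 : 0 ≤ q := by rw [hq]; exact norm_nonneg _
    have hw0 : 0 ≤ w := by rw [hw]; exact norm_nonneg _
    have hpq : |p - q| ≤ w := by
      rw [hp, hq, hw]
      exact abs_norm_sub_norm_le _ _
    rw [hX4, ← hX, ← hp, ← hq, ← hw, Real.norm_eq_abs]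
    have h1 : |X * p ^ 2 - X * q ^ 2| ≤ w * (X * (p + q)) := by
      have e2 : X * p ^ 2 - X * q ^ 2 = (p - q) * (X * (p + q)) := by ring
      rw [e2, abs_mul, abs_of_nonneg (by positivity : 0 ≤ X * (p + q))]
      gcongr
    refine h1.trans ?_
    have h3 : ρ / 2 * w ^ 2 + 1 / ρ * (X ^ 2 * p ^ 2 + X ^ 2 * q ^ 2) - w * (X * (p + q)) =
        ρ / 2 * (w - X * (p + q) / ρ) ^ 2 + 1 / (2 * ρ) * (X ^ 2 * (p - q) ^ 2) := by
      field_simp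
      ring
    have h4 : 0 ≤ ρ / 2 * (w - X * (p + q) / ρ) ^ 2 + 1 / (2 * ρ) * (X ^ 2 * (p - q) ^ 2) := by
      positivity
    linarith
  have sb : Summable fun x => ρ / 2 * ‖u x - v x‖ ^ 2 + 1 / ρ * (((x j : ℝ) - a j) ^ 4 *
      ‖u x‖ ^ 2 + ((x j : ℝ) - a j) ^ 4 * ‖v x‖ ^ 2) :=
    (c1.mul_left _).add ((f1.add g1).mul_left _)
  rw [← Real.norm_eq_abs]
  refine (tsum_of_norm_bounded sb.hasSum hb).trans ?_
  rw [(c1.mul_left _).tsum_add ((f1.add g1).mul_left _), tsum_mul_left, tsum_mul_left,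
    f1.tsum_add g1]
  have h46 : (η⁻¹) ^ 4 ≤ (η⁻¹) ^ 6 := pow_le_pow_right₀ hηi (by norm_num)
  calc ρ / 2 * ∑' x, ‖u x - v x‖ ^ 2 + 1 / ρ * (∑' x, ((x j : ℝ) - a j) ^ 4 * ‖u x‖ ^ 2 +
        ∑' x, ((x j : ℝ) - a j) ^ 4 * ‖v x‖ ^ 2) ≤
      ρ / 2 * (16 * d ^ 2 / ρ ^ 2 * (η⁻¹) ^ 4) + 1 / ρ * (176 * (η⁻¹) ^ 6 +
        176 * (η⁻¹) ^ 6) := by gcongr
    _ ≤ ρ / 2 * (16 * d ^ 2 / ρ ^ 2 * (η⁻¹) ^ 6) + 1 / ρ * (176 * (η⁻¹) ^ 6 +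
        176 * (η⁻¹) ^ 6) := by gcongr
    _ = _ := by
        field_simp
        ring

end Pool.Agent.N933.GS
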