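import Mathlib

/-! Truncation of the disorder, and the Gaussian law. -/

set_option autoImplicit false
set_option linter.unusedSectionVars false
set_option linter.unusedVariables false

open scoped BigOperators ENNReal
open MeasureTheory ProbabilityTheory Set

namespace Pool.Agent.N933.GS

variable {d : ℕ}

/-- the configurations bounded by `b` in the box of radius `R` -/
def bdBox (d : ℕ) (b R : ℝ) : Set ((Fin d → ℤ) → ℝ) :=
  {ξ | ∀ x : Fin d → ℤ, ‖x‖ ≤ R → |ξ x| ≤ b}

theorem bdBox_meas (d : ℕ) (b R : ℝ) : MeasurableSet (bdBox d b R) := by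
  have e1 : bdBox d b R = ⋂ x : Fin d → ℤ, {ξ | ‖x‖ ≤ R → |ξ x| ≤ b} := by
    ext ξ
    simp [bdBox]
  rw [e1]
  refine MeasurableSet.iInter fun x => ?_
  by_cases hx : ‖x‖ ≤ R
  · have e2 : {ξ : (Fin d → ℤ) → ℝ | ‖x‖ ≤ R → |ξ x| ≤ b} = {ξ | |ξ x| ≤ b} := by
      ext ξ
      simp [hx]
    rw [e2]
    exact measurableSet_le (by fun_prop) measurable_const
  · have e2 : {ξ : (Fin d → ℤ) → ℝ | ‖x‖ ≤ R → |ξ x| ≤ b} = univ := by
      ext ξ
      simp [hx]
    rw [e2]
    exact MeasurableSet.univ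

/-- the box -/
noncomputable def boxF (d : ℕ) (R : ℝ) : Finset (Fin d → ℤ) :=
  Finset.Icc (fun _ => -(⌊R⌋₊ : ℤ)) (fun _ => (⌊R⌋₊ : ℤ))

theorem mem_boxF {R : ℝ} (hR : 0 ≤ R) {x : Fin d → ℤ} (hx : ‖x‖ ≤ R) : x ∈ boxF d R := by
  unfold boxF
  rw [Finset.mem_Icc]
  have h1 : ∀ i, |x i| ≤ (⌊R⌋₊ : ℤ) := by
    intro i
    have h2 := (norm_le_pi_norm x i).trans hx
    rw [Int.norm_eq_abs] at h2
    have h3 : ((x i).natAbs : ℝ) ≤ R := by
      rw [Nat.cast_natAbs]
      push_cast
      exact h2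
    have h4 := Nat.le_floor h3
    rw [Int.abs_eq_natAbs]
    exact_mod_cast h4
  constructor
  · intro i
    exact (abs_le.1 (h1 i)).1
  · intro i
    exact (abs_le.1 (h1 i)).2

theorem card_boxF (R : ℝ) (hR : 0 ≤ R) : ((boxF d R).card : ℝ) ≤ (2 * R + 1) ^ d := by
  unfold boxF
  rw [Pi.card_Icc]
  simp only [Int.card_Icc, Finset.prod_const, Finset.card_univ, Fintype.card_fin]
  have e1 : ((⌊R⌋₊ : ℤ) + 1 - -(⌊R⌋₊ : ℤ)).toNat = 2 * ⌊R⌋₊ + 1 := by
    omega
  rw [e1]
  push_cast
  have := Nat.floor_le hR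
  gcongr

theorem bdBox_prob (μ : Measure ℝ) [IsProbabilityMeasure μ] (b R : ℝ) (hR : 0 ≤ R) :
    1 - (2 * R + 1) ^ d * μ.real {s | b < |s|} ≤
      (Measure.infinitePi fun _ : Fin d → ℤ => μ).real (bdBox d b R) := by
  have hm := bdBox_meas d b R
  have h1 := probReal_add_probReal_compl (μ := Measure.infinitePi fun _ : Fin d → ℤ => μ) hm
  have hsub : (bdBox d b R)ᶜ ⊆ ⋃ x ∈ boxF d R, {ξ : (Fin d → ℤ) → ℝ | b < |ξ x|} := by
    intro ξ hξ
    unfold bdBox at hξ
    simp only [mem_compl_iff, mem_ofPred_eq] at hξ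
    push Not at hξ
    obtain ⟨x, hx, hb⟩ := hξ
    exact mem_iUnion₂.2 ⟨x, mem_boxF hR hx, hb⟩
  have hx : ∀ x : Fin d → ℤ, (Measure.infinitePi fun _ : Fin d → ℤ => μ).real
      {ξ : (Fin d → ℤ) → ℝ | b < |ξ x|} = μ.real {s | b < |s|} := by
    intro x
    have e1 : (Measure.infinitePi fun _ : Fin d → ℤ => μ).map
        (fun ξ : (Fin d → ℤ) → ℝ => ξ x) = μ :=
      Measure.infinitePi_map_eval (fun _ : Fin d → ℤ => μ) x
    have hms : MeasurableSet {s : ℝ | b < |s|} :=
      measurableSet_lt measurable_const (by fun_prop)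
    conv_rhs => rw [← e1]
    rw [map_measureReal_apply (measurable_pi_apply x) hms]
    rfl
  have h2 : (Measure.infinitePi fun _ : Fin d → ℤ => μ).real (bdBox d b R)ᶜ ≤
      (2 * R + 1) ^ d * μ.real {s | b < |s|} := by
    refine (measureReal_mono hsub (measure_ne_top _ _)).trans
      ((measureReal_biUnion_finset_le _ _).trans ?_)
    rw [Finset.sum_congr rfl fun x _ => hx x, Finset.sum_const, nsmul_eq_mul]
    have := card_boxF (d := d) R hR
    gcongr
  linarith

theorem pull (μ ν : Measure ℝ) [IsProbabilityMeasure μ] [IsProbabilityMeasure ν] (T : ℝ → ℝ)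
    (hT : Measurable T) (hν : ν = μ.map T) (G : Set ((Fin d → ℤ) → ℝ)) (hG : MeasurableSet G) :
    MeasurableSet {ξ : (Fin d → ℤ) → ℝ | (fun x => T (ξ x)) ∈ G} ∧
    (Measure.infinitePi fun _ : Fin d → ℤ => μ).real {ξ | (fun x => T (ξ x)) ∈ G} =
      (Measure.infinitePi fun _ : Fin d → ℤ => ν).real G := by
  have hTm : Measurable (fun (ξ : (Fin d → ℤ) → ℝ) x => T (ξ x)) :=
    measurable_pi_lambda _ fun x => hT.comp (measurable_pi_apply x)
  have hp : IsProbabilityMeasure (μ.map T) := Measure.isProbabilityMeasure_map hT.aemeasurable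
  have hlaw : (Measure.infinitePi fun _ : Fin d → ℤ => μ).map
      (fun (ξ : (Fin d → ℤ) → ℝ) x => T (ξ x)) = Measure.infinitePi fun _ : Fin d → ℤ => ν := by
    have h1 := Measure.infinitePi_map_pi (μ := fun _ : Fin d → ℤ => μ)
      (f := fun _ (s : ℝ) => T s) (fun _ => hT)
    rw [h1]
    congr 1
    funext _
    exact hν.symm
  refine ⟨hTm hG, ?_⟩
  rw [← hlaw, map_measureReal_apply hTm hG]
  rfl

theorem inter_prob {Ω : Type} [MeasurableSpace Ω] (P : Measure Ω) [IsProbabilityMeasure P]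
    (A B : Set Ω) (hA : MeasurableSet A) (hB : MeasurableSet B) (p q : ℝ) (h1 : 1 - p ≤ P.real A)
    (h2 : 1 - q ≤ P.real B) : 1 - (p + q) ≤ P.real (A ∩ B) := by
  have h3 := probReal_add_probReal_compl (μ := P) hA
  have h4 := probReal_add_probReal_compl (μ := P) hB
  have h5 := probReal_add_probReal_compl (μ := P) (hA.inter hB)
  have h6 : P.real (A ∩ B)ᶜ ≤ P.real Aᶜ + P.real Bᶜ := by
    rw [compl_inter]
    exact measureReal_union_le _ _
  linarith

/-- the truncation -/
noncomputable def tr (b s : ℝ) : ℝ := if |s| ≤ b then s else 0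

theorem tr_meas (b : ℝ) : Measurable (tr b) :=
  Measurable.ite (measurableSet_le (by fun_prop) measurable_const) measurable_id measurable_const

theorem tr_le (b s : ℝ) (hb : 0 ≤ b) : |tr b s| ≤ b := by
  unfold tr
  by_cases h : |s| ≤ b
  · rw [if_pos h]
    exact h
  · rw [if_neg h, abs_zero]
    exact hb

theorem tr_of (b s : ℝ) (h : |s| ≤ b) : tr b s = s := by
  unfold tr
  rw [if_pos h]

theorem tr_neg (b s : ℝ) : tr b (-s) = -tr b s := by
  unfold tr
  rw [abs_neg]
  by_cases h : |s| ≤ b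
  · rw [if_pos h, if_pos h]
  · rw [if_neg h, if_neg h, neg_zero]

/-- the standard Gaussian law -/
noncomputable abbrev γ1 : Measure ℝ := gaussianReal 0 1

theorem γ_neg : γ1.map (fun t : ℝ => -t) = γ1 := by
  have := gaussianReal_map_neg (μ := 0) (v := 1)
  rwa [neg_zero] at this

theorem tail_one (b : ℝ) (hb : 0 ≤ b) : γ1.real {s | b ≤ s} ≤ Real.exp (-b ^ 2 / 2) := by
  have hint : Integrable (fun x : ℝ => Real.exp (b * id x)) γ1 := by
    have := integrable_exp_mul_gaussianReal (μ := 0) (v := 1) b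
    exact this
  have h := measure_ge_le_exp_mul_mgf (μ := γ1) (X := id) (t := b) b hb hint
  have h2 : mgf id γ1 b = Real.exp (b ^ 2 / 2) := by
    have := congrFun (mgf_id_gaussianReal (μ := 0) (v := 1)) b
    rw [this]
    simp
  rw [h2, ← Real.exp_add] at h
  refine h.trans (le_of_eq ?_)
  congr 1
  ring

/-- the tail of the Gaussian law -/
theorem tail (b : ℝ) (hb : 0 ≤ b) : γ1.real {s | b < |s|} ≤ 2 * Real.exp (-b ^ 2 / 2) := by
  have h1 := tail_one b hb
  have h2 : γ1.real {s | b ≤ -s} = γ1.real {s | b ≤ s} := by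
    have hm : Measurable fun t : ℝ => -t := measurable_neg
    conv_rhs => rw [← γ_neg]
    have hms : MeasurableSet {s : ℝ | b ≤ s} := measurableSet_le measurable_const measurable_id
    rw [map_measureReal_apply hm hms]
    rfl
  have h3 : {s : ℝ | b < |s|} ⊆ {s | b ≤ s} ∪ {s | b ≤ -s} := by
    intro s hs
    rcases lt_abs.1 (show b < |s| from hs) with h | h
    · exact Or.inl h.le
    · exact Or.inr h.le
  refine (measureReal_mono h3 (measure_ne_top _ _)).trans ((measureReal_union_le _ _).trans ?_)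
  rw [h2]
  linarith

theorem pow_int (n : ℕ) (hn : Even n) : Integrable (fun t : ℝ => t ^ n) γ1 := by
  have h := memLp_id_gaussianReal (μ := 0) (v := 1) (n : NNReal)
  rcases Nat.eq_zero_or_pos n with h0 | h0
  · rw [h0]
    simp
  have h2 := h.integrable_norm_pow (p := n) (by omega)
  refine h2.congr (Filter.Eventually.of_forall fun t => ?_)
  simp only [id_eq, Real.norm_eq_abs]
  exact hn.pow_abs t

theorem second : ∫ s, s ^ 2 ∂γ1 = 1 := by
  have h1 : Var[id; γ1] = 1 := by
    have := variance_id_gaussianReal (μ := 0) (v := 1)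
    simpa using this
  have h2 : ∫ s, s ∂γ1 = 0 := integral_id_gaussianReal
  rw [variance_eq_integral (by fun_prop)] at h1
  simp only [id_eq] at h1
  rw [h2] at h1
  simpa using h1

/-- the law of the truncated disorder -/
theorem tr_mean (b : ℝ) : ∫ s, tr b s ∂γ1 = 0 := by
  have h1 : ∫ s, tr b s ∂γ1 = ∫ s, tr b (-s) ∂γ1 := by
    conv_lhs => rw [← γ_neg]
    rw [integral_map (by fun_prop) (tr_meas b).aestronglyMeasurable]
  simp only [tr_neg, integral_neg] at h1
  linarith

theorem tr_second (b : ℝ) (hb : 0 < b) :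
    ∫ s, tr b s ^ 2 ∂γ1 ≤ 1 ∧ 1 - (∫ s, s ^ 4 ∂γ1) / b ^ 2 ≤ ∫ s, tr b s ^ 2 ∂γ1 := by
  have i2 := pow_int 2 (by decide)
  have i4 := pow_int 4 (by decide)
  have hle : ∀ s, tr b s ^ 2 ≤ s ^ 2 := by
    intro s
    unfold tr
    by_cases h : |s| ≤ b
    · rw [if_pos h]
    · rw [if_neg h]
      have := sq_nonneg s
      linarith
  have it : Integrable (fun s => tr b s ^ 2) γ1 := by
    refine Integrable.mono' i2 ((tr_meas b).pow_const 2).aestronglyMeasurable ?_
    refine Filter.Eventually.of_forall fun s => ?_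
    rw [Real.norm_eq_abs, abs_of_nonneg (sq_nonneg _)]
    exact hle s
  constructor
  · rw [← second]
    exact integral_mono it i2 hle
  · have h1 : ∀ s, s ^ 2 - s ^ 4 / b ^ 2 ≤ tr b s ^ 2 := by
      intro s
      unfold tr
      by_cases h : |s| ≤ b
      · rw [if_pos h]
        have : 0 ≤ s ^ 4 / b ^ 2 := by positivity
        linarith
      · rw [if_neg h]
        push Not at h
        have h2 : b ^ 2 ≤ s ^ 2 := by
          rw [← sq_abs s]
          exact pow_le_pow_left₀ hb.le h.le 2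
        have h3 : s ^ 2 ≤ s ^ 4 / b ^ 2 := by
          rw [le_div_iff₀ (by positivity)]
          nlinarith [sq_nonneg s]
        simp only [ne_eq, OfNat.ofNat_ne_zero, not_false_eq_true, zero_pow]
        linarith
    have h2 : ∫ s, (s ^ 2 - s ^ 4 / b ^ 2) ∂γ1 ≤ ∫ s, tr b s ^ 2 ∂γ1 :=
      integral_mono (i2.sub (i4.div_const (b ^ 2))) it h1
    rw [integral_sub i2 (i4.div_const _), integral_div, second] at h2
    exact h2

end Pool.Agent.N933.GS
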