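import Pool.Agent.N933.GS.Exist

/-! Bounded multipliers and locality of the resolvent. -/

set_option autoImplicit false
set_option linter.unusedSectionVars false
set_option linter.unusedVariables false

open scoped BigOperators ComplexConjugate Topology
open Set Filter

namespace Pool.Agent.N933.GS

open Pool.Agent.W788.LD.Spec (S symm summ_mul summ_shift)
open Pool.Agent.H4R2.LO (Zd)
open Pool.Agent.TH794.QE (Rs rs_exists)

variable {d : ℕ}

/-- the difference of the densities, with a bounded multiplier -/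
theorem cmp_prof {V V' : Zd d → ℝ} {a : Zd d} {e η : ℝ} (hη : 0 < η) (hη1 : η ≤ 1) (hd : 1 ≤ d)
    {ρ : ℝ} (hρ : 0 < ρ) (hV : ∀ x, ‖x - a‖ ≤ 2 * ρ → V x = V' x) {u v : Zd d → ℂ}
    (hu : Rs d V' a e η u) (hv : Rs d V a e η v) (θ : Zd d → ℂ) (hθ : ∀ x, ‖θ x‖ ≤ 1) :
    ‖∑' x, θ x * ((‖u x‖ ^ 2 : ℝ) : ℂ) - ∑' x, θ x * ((‖v x‖ ^ 2 : ℝ) : ℂ)‖ ≤
      8 * d / ρ * (η⁻¹) ^ 3 := by
  have hd1 : (1 : ℝ) ≤ d := by exact_mod_cast hd
  obtain ⟨j0⟩ : Nonempty (Fin d) := ⟨⟨0, hd⟩⟩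
  have hun := Pool.Agent.R988.Tor.rs_norm hu hη hη1 j0
  have hvn := Pool.Agent.R988.Tor.rs_norm hv hη hη1 j0
  obtain ⟨c1, c2⟩ := cmp hη hη1 hd hρ hV hu hv
  obtain ⟨α, hα⟩ : ∃ α, α = 2 * d / ρ * η⁻¹ := ⟨_, rfl⟩
  have hα0 : 0 < α := by rw [hα]; positivity
  have su : Summable fun x => θ x * ((‖u x‖ ^ 2 : ℝ) : ℂ) := by
    refine Summable.of_norm_bounded hu.sq fun x => ?_
    rw [norm_mul, Complex.norm_real, Real.norm_eq_abs, abs_of_nonneg (by positivity)]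
    exact mul_le_of_le_one_left (by positivity) (hθ x)
  have sv : Summable fun x => θ x * ((‖v x‖ ^ 2 : ℝ) : ℂ) := by
    refine Summable.of_norm_bounded hv.sq fun x => ?_
    rw [norm_mul, Complex.norm_real, Real.norm_eq_abs, abs_of_nonneg (by positivity)]
    exact mul_le_of_le_one_left (by positivity) (hθ x)
  rw [← su.tsum_sub sv]
  have hb : ∀ x, ‖θ x * ((‖u x‖ ^ 2 : ℝ) : ℂ) - θ x * ((‖v x‖ ^ 2 : ℝ) : ℂ)‖ ≤
      (2 * α)⁻¹ * ‖u x - v x‖ ^ 2 + α * (‖u x‖ ^ 2 + ‖v x‖ ^ 2) := by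
    intro x
    have e1 : θ x * ((‖u x‖ ^ 2 : ℝ) : ℂ) - θ x * ((‖v x‖ ^ 2 : ℝ) : ℂ) =
        θ x * ((‖u x‖ ^ 2 - ‖v x‖ ^ 2 : ℝ) : ℂ) := by
      push_cast
      ring
    rw [e1, norm_mul, Complex.norm_real, Real.norm_eq_abs]
    obtain ⟨p, hp⟩ : ∃ p, p = ‖u x‖ := ⟨_, rfl⟩
    obtain ⟨q, hq⟩ : ∃ q, q = ‖v x‖ := ⟨_, rfl⟩
    obtain ⟨w, hw⟩ : ∃ w, w = ‖u x - v x‖ := ⟨_, rfl⟩
    have hp0 : 0 ≤ p := by rw [hp]; exact norm_nonneg _
    have hq0 : 0 ≤ q := by rw [hq]; exact norm_nonneg _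
    have hw0 : 0 ≤ w := by rw [hw]; exact norm_nonneg _
    have hpq : |p - q| ≤ w := by
      rw [hp, hq, hw]
      exact abs_norm_sub_norm_le _ _
    rw [← hp, ← hq, ← hw]
    have h1 : |p ^ 2 - q ^ 2| ≤ w * (p + q) := by
      have e2 : p ^ 2 - q ^ 2 = (p - q) * (p + q) := by ring
      rw [e2, abs_mul, abs_of_nonneg (by positivity : 0 ≤ p + q)]
      gcongr
    have h2 : ‖θ x‖ * |p ^ 2 - q ^ 2| ≤ |p ^ 2 - q ^ 2| :=
      mul_le_of_le_one_left (abs_nonneg _) (hθ x)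
    refine h2.trans (h1.trans ?_)
    have h3 : (2 * α)⁻¹ * w ^ 2 + α * (p ^ 2 + q ^ 2) - w * (p + q) =
        (2 * α)⁻¹ * (w - α * (p + q)) ^ 2 + α / 2 * (p - q) ^ 2 := by
      field_simp
      ring
    have h4 : 0 ≤ (2 * α)⁻¹ * (w - α * (p + q)) ^ 2 + α / 2 * (p - q) ^ 2 := by positivity
    linarith
  have sb : Summable fun x => (2 * α)⁻¹ * ‖u x - v x‖ ^ 2 + α * (‖u x‖ ^ 2 + ‖v x‖ ^ 2) :=
    (c1.mul_left _).add ((hu.sq.add hv.sq).mul_left _)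
  refine (tsum_of_norm_bounded sb.hasSum hb).trans ?_
  rw [(c1.mul_left _).tsum_add ((hu.sq.add hv.sq).mul_left _), tsum_mul_left, tsum_mul_left,
    hu.sq.tsum_add hv.sq]
  calc (2 * α)⁻¹ * ∑' x, ‖u x - v x‖ ^ 2 + α * (∑' x, ‖u x‖ ^ 2 + ∑' x, ‖v x‖ ^ 2) ≤
      (2 * α)⁻¹ * (16 * d ^ 2 / ρ ^ 2 * (η⁻¹) ^ 4) + α * ((η⁻¹) ^ 2 + (η⁻¹) ^ 2) := by gcongr
    _ = _ := by
        rw [hα]
        field_simp
        ring

/-- shifting the energy -/
theorem rs_shift {V : Zd d → ℝ} {a : Zd d} {e η : ℝ} {u : Zd d → ℂ} (h : Rs d V a e η u)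
    (c : ℝ) : Rs d (fun x => c + V x) a (c + e) η u := by
  refine ⟨h.sq, fun x => ?_⟩
  rw [← h.eq x]
  push_cast
  ring

/-- the resolvent of `S + W` -/
structure Gr (d : ℕ) (W : Zd d → ℝ) (a : Zd d) (E η : ℝ) (u : Zd d → ℂ) : Prop where
  sq : Summable fun x => ‖u x‖ ^ 2
  eq : ∀ x, S u x + (W x : ℂ) * u x - ((E : ℂ) + (η : ℂ) * Complex.I) * u x =
    if x = a then 1 else 0

/-- from `S + W` to `-S + (2 d - W)` -/
theorem gr_rs {W : Zd d → ℝ} {a : Zd d} {E η : ℝ} {u : Zd d → ℂ} (h : Gr d W a E η u) :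
    Rs d (fun x => 2 * d + -W x) a (2 * d - E) η (fun x => -conj (u x)) := by
  refine ⟨by simpa using h.sq, fun x => ?_⟩
  have h1 := congrArg conj (h.eq x)
  have h2 : conj (S u x) = S (fun y => conj (u y)) x := by
    unfold Pool.Agent.W788.LD.Spec.S
    simp only [map_sum, map_add]
  have h3 : S (fun y => -conj (u y)) x = -S (fun y => conj (u y)) x := by
    unfold Pool.Agent.W788.LD.Spec.S
    rw [← Finset.sum_neg_distrib]
    refine Finset.sum_congr rfl fun i _ => ?_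
    ring
  have h4 : conj (if x = a then (1 : ℂ) else 0) = if x = a then 1 else 0 := by
    split_ifs <;> simp
  rw [h4] at h1
  simp only [map_add, map_sub, map_mul, Complex.conj_ofReal, Complex.conj_I, h2] at h1
  rw [h3]
  push_cast
  linear_combination h1

/-- and back -/
theorem rs_gr {W : Zd d → ℝ} {a : Zd d} {E η : ℝ} {u : Zd d → ℂ}
    (h : Rs d (fun x => 2 * d + -W x) a (2 * d - E) η u) :
    Gr d W a E η (fun x => -conj (u x)) := by
  refine ⟨by simpa using h.sq, fun x => ?_⟩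
  have h1 := congrArg conj (h.eq x)
  have h2 : conj (S u x) = S (fun y => conj (u y)) x := by
    unfold Pool.Agent.W788.LD.Spec.S
    simp only [map_sum, map_add]
  have h3 : S (fun y => -conj (u y)) x = -S (fun y => conj (u y)) x := by
    unfold Pool.Agent.W788.LD.Spec.S
    rw [← Finset.sum_neg_distrib]
    refine Finset.sum_congr rfl fun i _ => ?_
    ring
  have h4 : conj (if x = a then (1 : ℂ) else 0) = if x = a then 1 else 0 := by
    split_ifs <;> simp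
  rw [h4] at h1
  simp only [map_add, map_sub, map_mul, map_neg, Complex.conj_ofReal, Complex.conj_I, h2] at h1
  rw [h3]
  push_cast at h1
  linear_combination h1

theorem gr_exists (hd : 1 ≤ d) (W : Zd d → ℝ) (a : Zd d) (E η : ℝ) (hη : 0 < η)
    (hη1 : η ≤ 1) : ∃ u : Zd d → ℂ, Gr d W a E η u := by
  obtain ⟨u, hu⟩ := rs_exists_all hd (fun x => 2 * d + -W x) a (2 * d - E) η hη hη1
  exact ⟨_, rs_gr hu⟩

end Pool.Agent.N933.GS
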