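import Pool.Agent.N933.GS.DiffG
import Pool.Agent.N933.GS.Tor
import Pool.Agent.N933.AL.Core

/-! The profile for Gaussian disorder, in terms of the coupling constant. -/

set_option autoImplicit false
set_option linter.unusedSectionVars false
set_option linter.unusedVariables false

open scoped BigOperators ENNReal ComplexConjugate Topology
open MeasureTheory ProbabilityTheory Set Filter

namespace Pool.Agent.N933.GS

open Pool.Agent.H4R2.LO (Zd)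
open Pool.Agent.TH794.HK (ph Tg ph_norm)
open Pool.Agent.TH794.QE (Rs RegE)
open Pool.Agent.TH794.QD (GF F0 F1)
open Pool.Agent.N933.AL (Bulk)

/-- **the profile of the resolvent for Gaussian disorder** -/
theorem profG (d : ℕ) (hd : 2 ≤ d) : ∃ γ0 γ1' : ℝ → ℂ, ∀ κ : ℝ, 0 < κ → κ ≤ 1 →
    (∀ E, RegE d κ E →
      Tendsto (fun t : ℝ => GF (F0 d) ((E : ℂ) + (t : ℂ) * Complex.I)) (𝓝[>] 0) (𝓝 (γ0 E)) ∧
      Tendsto (fun t : ℝ => GF (F1 d) ((E : ℂ) + (t : ℂ) * Complex.I)) (𝓝[>] 0) (𝓝 (γ1' E)) ∧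
      0 ≤ (γ1' E).im ∧ (γ1' E).im ≤ (γ0 E).im) ∧
    (∃ m : ℝ, 0 < m ∧ ∀ E, RegE d κ E → |E| ≤ 2 * d - κ → m ≤ (γ1' E).im) ∧
    ∀ K : ℝ, 0 ≤ K → ∃ s0 : ℝ, 0 < s0 ∧ ∀ s : ℝ, 0 < s → s ≤ s0 →
      ∃ G : Set (Zd d → ℝ), MeasurableSet G ∧
        1 - Real.exp (-s ^ (-(1 / 268) : ℝ)) ≤
          (Measure.infinitePi fun _ : Zd d => γ1).real G ∧
        ∀ ξ ∈ G, ∀ a : Zd d, ‖a‖ ≤ Real.exp (s ^ (-(1 / 268) : ℝ)) →
          ∀ e : ℝ, Bulk d κ (2 * d - e) →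
          ∀ η : ℝ, s ^ (105 / 52 : ℝ) ≤ η → η ≤ s ^ (261 / 130 : ℝ) →
          ∀ u : Zd d → ℂ, Rs d (fun x => 2 * d + s * ξ x) a e η u →
          ∀ p : Fin d → ℝ, ∑ i, p i ^ 2 ≤ K * (η * s ^ 2) →
            ‖((η : ℝ) : ℂ) * ∑' x, ph p (x - a) * ((‖u x‖ ^ 2 : ℝ) : ℂ) -
              ((Tg γ0 γ1' η (s ^ 2) (2 * d - e) p : ℝ) : ℂ)‖ ≤ s ^ (1 / 320 : ℝ) := by
  obtain ⟨γ0, γ1', h⟩ := diffG d hd
  refine ⟨γ0, γ1', fun κ hκ hκ1 => ?_⟩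
  obtain ⟨h1, h2, h3⟩ := h κ hκ hκ1
  refine ⟨h1, h2, fun K hK => ?_⟩
  obtain ⟨y0, hy0⟩ := h3 K hK
  refine ⟨Real.exp (-y0), Real.exp_pos _, fun s hs hs0 => ?_⟩
  obtain ⟨y, hy⟩ : ∃ y, y = Real.log (1 / s) := ⟨_, rfl⟩
  have hlogs : Real.log s = -y := by
    rw [hy, one_div, Real.log_inv, neg_neg]
  have hyy0 : y0 ≤ y := by
    have h1 := Real.log_le_log hs hs0
    rw [Real.log_exp, hlogs] at h1
    linarith
  have hrp : ∀ p q : ℝ, q = -p → s ^ p = Real.exp (q * y) := by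
    intro p q hpq
    rw [Real.rpow_def_of_pos hs, hlogs, hpq]
    congr 1
    ring
  have e1 : s ^ (-(1 / 268) : ℝ) = Real.exp (1 / 268 * y) := hrp _ _ (by norm_num)
  have e2 : s ^ (105 / 52 : ℝ) = Real.exp (-(105 / 52) * y) := hrp _ _ (by norm_num)
  have e3 : s ^ (261 / 130 : ℝ) = Real.exp (-(261 / 130) * y) := hrp _ _ (by norm_num)
  have e4 : s ^ (1 / 320 : ℝ) = Real.exp (-(1 / 320) * y) := hrp _ _ (by norm_num)
  have e5 : Real.exp (-1 * y) = s := by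
    rw [neg_one_mul, ← hlogs, Real.exp_log hs]
  obtain ⟨G, hG, hP, hL⟩ := hy0 y hyy0
  rw [e5] at hL
  rw [e1, e2, e3, e4]
  refine ⟨G, hG, hP, fun ξ hξ a ha e he η hη1 hη2 u hu p hp => ?_⟩
  have hη0 : 0 < η := lt_of_lt_of_le (Real.exp_pos _) hη1
  obtain ⟨r, hr⟩ : ∃ r, r = Real.sqrt (η * s ^ 2) := ⟨_, rfl⟩
  have hr0 : 0 < r := by rw [hr]; exact Real.sqrt_pos.2 (by positivity)
  have hr2 : r ^ 2 = η * s ^ 2 := by rw [hr, Real.sq_sqrt (by positivity)]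
  have hq : ∑ i, (p i / r) ^ 2 = (∑ i, p i ^ 2) / (η * s ^ 2) := by
    rw [← hr2, Finset.sum_div]
    refine Finset.sum_congr rfl fun i _ => ?_
    rw [div_pow]
  have h4 := hL ξ hξ a ha e he η hη1 hη2 u hu (fun i => p i / r) (by
    rw [hq, div_le_iff₀ (by positivity)]
    exact hp)
  rw [← hr, hq] at h4
  have e6 : (fun i => r * (p i / r)) = p := by
    funext i
    field_simp
  rw [e6] at h4
  have e7 : Tg γ0 γ1' η (s ^ 2) (2 * d - e) p = (γ0 (2 * d - e)).im /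
      (1 + (γ1' (2 * d - e)).im / (γ0 (2 * d - e)).im ^ 2 * ((∑ i, p i ^ 2) / (η * s ^ 2))) := by
    unfold Tg
    rw [mul_comm ((∑ i, p i ^ 2) / (η * s ^ 2))]
  rw [e7]
  exact h4

end Pool.Agent.N933.GS
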