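import Pool.Agent.N933.GS.FlatG
import Pool.Agent.TH794.LL2.Fin2

/-! The local law for Gaussian disorder. -/

set_option autoImplicit false
set_option linter.unusedSectionVars false
set_option linter.unusedVariables false

open scoped BigOperators ENNReal ComplexConjugate
open MeasureTheory ProbabilityTheory Set

namespace Pool.Agent.N933.GS

open Pool.Agent.W788.LD.Spec (S symm summ_mul summ_shift)
open Pool.Agent.H4R2.LO (Zd)
open Pool.Agent.W788.BK
open Pool.Agent.W788.BK.Num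
open Pool.Agent.TH794.LL2
open Pool.Agent.TH794.QE (Rs)

variable {d : ℕ}

theorem lg_rs {W : Zd d → ℝ} {a : Zd d} {E t : ℝ} {ur ui : Zd d → ℝ}
    (h : LG d 1 W a E t ur ui) :
    Rs d (fun x => -W x) a (-E) t (fun x => ⟨-ur x, ui x⟩) := by
  constructor
  · refine (h.sr.add h.si).congr fun x => ?_
    rw [← Complex.normSq_eq_norm_sq, Complex.normSq_apply]
    ring
  · intro x
    have h1 := h.er x
    have h2 := h.ei x
    unfold Pool.Agent.W788.LD.Spec.S
    rw [Finset.sum_add_distrib] at h1 h2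
    rw [Finset.sum_add_distrib]
    apply Complex.ext
    · have e1 : (if x = a then (1 : ℂ) else 0).re = if x = a then (1 : ℝ) else 0 := by
        split_ifs <;> simp
      rw [e1]
      simp only [Complex.add_re, Complex.sub_re, Complex.neg_re, Complex.mul_re, Complex.re_sum,
        Complex.ofReal_re, Complex.ofReal_im, Complex.I_re, Complex.I_im, Complex.add_im,
        Complex.mul_im, Complex.ofReal_neg, Complex.neg_im, Finset.sum_neg_distrib]
      linear_combination h1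
    · have e1 : (if x = a then (1 : ℂ) else 0).im = 0 := by
        split_ifs <;> simp
      rw [e1]
      simp only [Complex.add_re, Complex.sub_im, Complex.neg_re, Complex.mul_im, Complex.im_sum,
        Complex.ofReal_re, Complex.ofReal_im, Complex.I_re, Complex.I_im, Complex.add_im,
        Complex.mul_re, Complex.ofReal_neg, Complex.neg_im]
      linear_combination -h2

theorem rs_lg {W : Zd d → ℝ} {a : Zd d} {E t : ℝ} {u : Zd d → ℂ}
    (h : Rs d (fun x => -W x) a (-E) t u) :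
    LG d 1 W a E t (fun x => -(u x).re) (fun x => (u x).im) := by
  have hn : ∀ x, ‖u x‖ ^ 2 = (u x).re ^ 2 + (u x).im ^ 2 := by
    intro x
    rw [← Complex.normSq_eq_norm_sq, Complex.normSq_apply]
    ring
  constructor
  · refine Summable.of_nonneg_of_le (fun x => by positivity) (fun x => ?_) h.sq
    rw [hn x, neg_sq]
    nlinarith [sq_nonneg (u x).im]
  · refine Summable.of_nonneg_of_le (fun x => by positivity) (fun x => ?_) h.sq
    rw [hn x]
    nlinarith [sq_nonneg (u x).re]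
  · intro x
    have h1 := congrArg Complex.re (h.eq x)
    have e1 : (if x = a then (1 : ℂ) else 0).re = if x = a then (1 : ℝ) else 0 := by
      split_ifs <;> simp
    rw [e1] at h1
    unfold Pool.Agent.W788.LD.Spec.S at h1
    rw [Finset.sum_add_distrib] at h1 ⊢
    simp only [Complex.add_re, Complex.sub_re, Complex.neg_re, Complex.mul_re, Complex.re_sum,
        Complex.ofReal_re, Complex.ofReal_im, Complex.I_re, Complex.I_im, Complex.add_im,
        Complex.mul_im, Complex.ofReal_neg, Complex.neg_im] at h1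
    simp only [Finset.sum_neg_distrib]
    linear_combination h1
  · intro x
    have h1 := congrArg Complex.im (h.eq x)
    have e1 : (if x = a then (1 : ℂ) else 0).im = 0 := by
      split_ifs <;> simp
    rw [e1] at h1
    unfold Pool.Agent.W788.LD.Spec.S at h1
    rw [Finset.sum_add_distrib] at h1 ⊢
    simp only [Complex.add_re, Complex.sub_im, Complex.neg_re, Complex.mul_im, Complex.im_sum,
        Complex.ofReal_re, Complex.ofReal_im, Complex.I_re, Complex.I_im, Complex.add_im,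
        Complex.mul_re, Complex.ofReal_neg, Complex.neg_im] at h1
    linear_combination -h1

/-- **the local law depends on the potential only locally** -/
theorem ll_local (hd : 1 ≤ d) (W W' : Zd d → ℝ) (a : Zd d) (ρ t e3 : ℝ) (ht : 0 < t)
    (ht1 : t ≤ 1) (hρ : 0 < ρ) (hW : ∀ x, ‖x - a‖ ≤ 2 * ρ → W x = W' x) (Gf : ℝ → ℝ)
    (h : ∀ (E : ℝ) (ur ui : Zd d → ℝ), LG d 1 W a E t ur ui → |ui a - Gf E| ≤ e3) (E : ℝ)
    (ur ui : Zd d → ℝ) (hu : LG d 1 W' a E t ur ui) :
    |ui a - Gf E| ≤ e3 + 4 * d / ρ * (t⁻¹) ^ 2 := by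
  have h1 := lg_rs hu
  obtain ⟨v, hv⟩ := rs_exists_all hd (fun x => -W x) a (-E) t ht ht1
  obtain ⟨s1, s2⟩ := cmp ht ht1 hd hρ (V := fun x => -W x) (V' := fun x => -W' x)
    (fun x hx => by rw [hW x hx]) h1 hv
  have h2 := h E _ _ (rs_lg hv)
  have h3 : ‖(⟨-ur a, ui a⟩ : ℂ) - v a‖ ^ 2 ≤ (4 * d / ρ * (t⁻¹) ^ 2) ^ 2 := by
    refine (s1.le_tsum a fun x _ => by positivity).trans (s2.trans (le_of_eq ?_))
    ring
  have h4 : ‖(⟨-ur a, ui a⟩ : ℂ) - v a‖ ≤ 4 * d / ρ * (t⁻¹) ^ 2 :=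
    le_of_sq_le_sq h3 (by positivity)
  have h5 : |ui a - (v a).im| ≤ 4 * d / ρ * (t⁻¹) ^ 2 := by
    refine le_trans ?_ h4
    have := Complex.abs_im_le_norm ((⟨-ur a, ui a⟩ : ℂ) - v a)
    simpa using this
  calc |ui a - Gf E| ≤ |ui a - (v a).im| + |(v a).im - Gf E| := abs_sub_le _ _ _
    _ ≤ _ := by linarith

/-- the deterministic part -/
theorem detG (K y e3 : ℝ) (hy1 : 1 ≤ y) (hK : 1 ≤ K) (he30 : 0 ≤ e3) (he31 : e3 ≤ 1)
    (n1 : 4 * e3 ≤ Real.exp (-(1 / 200) * y))
    (n3 : 800 * K * y * Real.exp (-(211 / 100) * y) ≤ Real.exp (-(421 / 200) * y))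
    (Gf : ℝ → ℝ) (hG : ∀ E, |Gf E| ≤ K) (W : Zd d → ℝ) (a : Zd d)
    (hL : ∀ (E : ℝ) (ur ui : Zd d → ℝ),
      LG d 1 W a E (Real.exp (-(211 / 100) * y)) ur ui → |ui a - Gf E| ≤ e3)
    (hF : ∀ (E : ℝ) (ur ui : Zd d → ℝ),
      LG d 1 (fun _ => 0) a E (Real.exp (-(211 / 100) * y)) ur ui → |ui a - Gf E| ≤ e3)
    (m m0 : Measure ℝ) [IsFiniteMeasure m] [IsFiniteMeasure m0]
    (hm : Res d (fun x => -W x) a m) (hm0 : Res d (fun _ => 0) a m0) (E s : ℝ)
    (hs : Real.exp (-(21 / 10) * y) ≤ s) :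
    |m.real (Set.Icc (E - s) (E + s)) - m0.real (Set.Icc (E - s) (E + s))| ≤
      Real.exp (-(1 / 200) * y) * s := by
  obtain ⟨t, ht⟩ : ∃ t, t = Real.exp (-(211 / 100) * y) := ⟨_, rfl⟩
  rw [← ht] at hL hF n3
  have ht0 : 0 < t := by rw [ht]; positivity
  have hs0 : 0 < s := lt_of_lt_of_le (Real.exp_pos _) hs
  have p1 : ∀ E, |Po m E t - Gf (0 - E)| ≤ e3 := by
    intro E
    obtain ⟨ur, ui, h1, h2⟩ := po_spec (fun x => -W x) W 0 1 (fun x => by ring) a m hm E t ht0
    rw [h2]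
    exact hL _ ur ui h1
  have p2 : ∀ E, |Po m0 E t - Gf (0 - E)| ≤ e3 := by
    intro E
    obtain ⟨ur, ui, h1, h2⟩ := po_spec (fun _ : Zd d => (0 : ℝ)) (fun _ => 0) 0 1
      (fun x => by ring) a m0 hm0 E t ht0
    rw [h2]
    exact hF _ ur ui h1
  have hmass := mass_spec (fun x => -W x) a m hm
  have hmass0 := mass_spec (fun _ : Zd d => (0 : ℝ)) a m0 hm0
  obtain ⟨N, hN⟩ : ∃ N : ℕ, N = ⌈4 * y⌉₊ := ⟨_, rfl⟩
  have hN1 : 4 * y ≤ N := by rw [hN]; exact Nat.le_ceil _
  have hN2 : (N : ℝ) ≤ 4 * y + 1 := by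
    rw [hN]
    exact (Nat.ceil_lt_add_one (by linarith)).le
  have hpow : (1 / 2 : ℝ) ^ N ≤ t := by
    have h1 : (1 / 2 : ℝ) ^ N = Real.exp (-(N * Real.log 2)) := by
      rw [Real.exp_neg, mul_comm, Real.exp_mul, Real.exp_log (by norm_num), Real.rpow_natCast,
        one_div, inv_pow]
    rw [h1, ht]
    apply Real.exp_le_exp.2
    have h2 := Real.log_two_gt_d9
    have h3 : 4 * y * 0.69 ≤ N * Real.log 2 := mul_le_mul hN1 (by linarith) (by norm_num)
      (by positivity)
    linarith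
  have hc := meas_compare m m0 hmass hmass0 t (K + 1) (2 * e3) ht0
    (fun E => by
      have h1 := (abs_le.1 (p1 E)).2
      have h2 := (abs_le.1 (hG (0 - E))).2
      linarith)
    (fun E => by
      have h1 := (abs_le.1 (p2 E)).2
      have h2 := (abs_le.1 (hG (0 - E))).2
      linarith)
    (fun E => by
      have h1 := p1 E
      have h2 := p2 E
      have h4 := abs_sub_le (Po m E t) (Gf (0 - E)) (Po m0 E t)
      rw [abs_sub_comm (Gf (0 - E)) (Po m0 E t)] at h4
      linarith) E s hs0.le N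
  refine hc.trans ?_
  have q1 : (2 * e3) * s ≤ 1 / 2 * Real.exp (-(1 / 200) * y) * s := by
    apply mul_le_mul_of_nonneg_right _ hs0.le
    linarith
  have q2 : 4 * ((N + 1 : ℝ) * (8 * (K + 1) * t) + 2 * (1 / 2 : ℝ) ^ N) ≤
      1 / 2 * Real.exp (-(1 / 200) * y) * s := by
    calc 4 * ((N + 1 : ℝ) * (8 * (K + 1) * t) + 2 * (1 / 2 : ℝ) ^ N) ≤
        4 * ((6 * y) * (8 * (2 * K) * t) + 2 * t) := by
          have h1 : (N : ℝ) + 1 ≤ 6 * y := by linarith
          have h2 : K + 1 ≤ 2 * K := by linarith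
          gcongr
      _ ≤ 400 * K * y * t := by
          have h3 : t ≤ K * y * t := by
            apply le_mul_of_one_le_left ht0.le
            exact one_le_mul_of_one_le_of_one_le hK hy1
          linarith
      _ = 1 / 2 * (800 * K * y * t) := by ring
      _ ≤ 1 / 2 * Real.exp (-(421 / 200) * y) := by linarith
      _ = 1 / 2 * Real.exp (-(1 / 200) * y) * Real.exp (-(21 / 10) * y) := by
          rw [mul_assoc, ex_mul]
          norm_num
      _ ≤ _ := by gcongr
  linarith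

/-- **the local law for Gaussian disorder** -/
theorem llG (d : ℕ) (hd : 3 ≤ d) : ∃ y0 : ℝ, ∀ y : ℝ, y0 ≤ y →
    ∃ G : Set (Zd d → ℝ), MeasurableSet G ∧
      1 - Real.exp (-Real.exp (1 / 102 * y)) ≤ (Measure.infinitePi fun _ : Zd d => γ1).real G ∧
      ∀ ξ ∈ G, ∀ a : Zd d, ‖a‖ ≤ Real.exp (Real.exp (1 / 102 * y)) →
        ∀ m m0 : Measure ℝ, IsFiniteMeasure m → IsFiniteMeasure m0 →
        Res d (fun x => -(Real.exp (-1 * y) * ξ x)) a m → Res d (fun _ => 0) a m0 →
        ∀ E s : ℝ, Real.exp (-(21 / 10) * (101 / 102 * y)) ≤ s →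
          |m.real (Set.Icc (E - s) (E + s)) - m0.real (Set.Icc (E - s) (E + s))| ≤
            Real.exp (-(1 / 200) * (101 / 102 * y)) * s := by
  obtain ⟨y0, h0⟩ := engine2 Pool.Agent.W193.BK.ES.es
    (Pool.Agent.W261.BK.third Pool.Agent.W540.BK.fac)
    (Pool.Agent.W240.BK.fluct (Pool.Agent.W240.BK.var Pool.Agent.W193.BK.ES.es))
    Pool.Agent.W475.BK.inv Pool.Agent.W918.BK.Osc.osc Pool.Agent.W975.BK.sup
    (Pool.Agent.W465.BK.qb (Pool.Agent.W240.BK.two Pool.Agent.W918.BK.Osc.osc))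
    Pool.Agent.W475.BK.low Pool.Agent.W790.BK.ADM.adm d hd 1 one_pos
  obtain ⟨K, hK⟩ : ∃ K, K = KK d := ⟨_, rfl⟩
  have hK3 : 3 ≤ K := by rw [hK]; exact KK_ge d
  obtain ⟨y2, hy2⟩ := Filter.eventually_atTop.1
    ((ev2 (5 + 4 * d) 0 (1 / 102) 1 (by norm_num)).and
    ((ev2 2 (1 / 102) (101 / 10200) 0 (by norm_num)).and
    ((ev2 (4 * (d + 1)) 0 (1 / 102) 0 (by norm_num)).and
    ((ev2 (800 * K) (-(211 / 100)) (-(421 / 200)) 1 (by norm_num)).and
    (ev2 8 (-(11 / 1000)) (-(1 / 200)) 0 (by norm_num))))))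
  obtain ⟨y1, hy1⟩ : ∃ y1, y1 = max (max (102 / 101 * y0) (102 / 101 * y2)) (max y2 2) := ⟨_, rfl⟩
  refine ⟨y1, fun y hy => ?_⟩
  have hyy0 : 102 / 101 * y0 ≤ y :=
    le_trans (by rw [hy1]; exact (le_max_left _ _).trans (le_max_left _ _)) hy
  have hyy3 : 102 / 101 * y2 ≤ y :=
    le_trans (by rw [hy1]; exact (le_max_right _ _).trans (le_max_left _ _)) hy
  have hyy2 : y2 ≤ y := le_trans (by rw [hy1]; exact (le_max_left _ _).trans (le_max_right _ _)) hy
  have hytwo : 2 ≤ y := le_trans (by rw [hy1]; exact (le_max_right _ _).trans (le_max_right _ _)) hy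
  obtain ⟨y', hy'⟩ : ∃ y', y' = 101 / 102 * y := ⟨_, rfl⟩
  have hy0' : y0 ≤ y' := by rw [hy']; linarith
  have hy2' : y2 ≤ y' := by rw [hy']; linarith
  have hyone' : 1 ≤ y' := by rw [hy']; linarith
  obtain ⟨n1, n2, n3, -, -⟩ := hy2 y hyy2
  obtain ⟨-, -, -, n4, n5⟩ := hy2 y' hy2'
  simp only [pow_zero, mul_one, pow_one, zero_mul, Real.exp_zero] at n1 n2 n3 n4 n5
  obtain ⟨X, hX⟩ : ∃ X, X = Real.exp (1 / 102 * y) := ⟨_, rfl⟩
  have hX0 : 0 < X := by rw [hX]; positivity
  have hX1 : 1 ≤ X := by rw [hX]; exact Real.one_le_exp (by positivity)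
  rw [← hX] at n1 n2 n3
  rw [← hy', ← hX]
  obtain ⟨-, hp, hb1, hm0, -⟩ := trlaw X X hX0 hX0
  rw [div_self hX0.ne'] at hb1
  obtain ⟨Gf, G', hG', hP', hGf1, hGf2, hL', hF'⟩ := h0 y' hy0' _ hp hb1 hm0
  rw [← hK] at hGf1 hGf2
  have hexp : Real.exp (101 / 10200 * y) = Real.exp (y' / 100) := by
    rw [hy']
    congr 1
    ring
  rw [hexp] at n2
  have hd0 : (0 : ℝ) ≤ d := Nat.cast_nonneg d
  have hq : (2 * (3 * Real.exp X) + 1) ^ d * (2 * Real.exp (-X ^ 2 / 2)) ≤
      1 / 2 * Real.exp (-X) := by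
    refine numP d X X hX0.le ?_
    nlinarith
  obtain ⟨G, hG, hP, hGL⟩ := event X X (3 * Real.exp X) _ _ hX0 hX0 (by positivity) G' hG' hP' hq
  refine ⟨G, hG, ?_, fun ξ hξ => ?_⟩
  · refine le_trans ?_ hP
    have h1 : Real.exp (-Real.exp (y' / 100)) ≤ 1 / 2 * Real.exp (-X) := by
      have h2 : Real.exp (-Real.exp (y' / 100)) ≤ Real.exp (-1 + -X) := by
        apply Real.exp_le_exp.2
        linarith
      rw [Real.exp_add] at h2
      have h3 : Real.exp (-1) ≤ 1 / 2 := by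
        rw [Real.exp_neg, one_div]
        apply inv_anti₀ (by norm_num)
        have := Real.exp_one_gt_d9
        linarith
      exact h2.trans (by gcongr)
    linarith
  · obtain ⟨h1, h2⟩ := hGL ξ hξ
    have h3 := hL' _ h1
    intro a ha m m0 hm hm0 hr hr0 E s hs
    obtain ⟨t, ht⟩ : ∃ t, t = Real.exp (-(211 / 100) * y') := ⟨_, rfl⟩
    have ht0 : 0 < t := by rw [ht]; positivity
    have ht1 : t ≤ 1 := by
      rw [ht]
      exact Real.exp_le_one_iff.2 (by linarith)
    have ha' : ‖a‖ ≤ Real.exp (Real.exp (y' / 100)) := by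
      refine ha.trans (Real.exp_le_exp.2 ?_)
      linarith
    have hsm : ∀ (E : ℝ) (ur ui : Zd d → ℝ),
        LG d 1 (fun x => Real.exp (-1 * y') * (tr X (ξ x) / X)) a E t ur ui →
        |ui a - Gf E| ≤ Real.exp (-(11 / 1000) * y') := by
      intro E ur ui h
      refine h3 a ha' E ur ui ?_
      refine ⟨h.sr, h.si, fun x => ?_, fun x => ?_⟩
      · rw [← ht, ← h.er x]
        ring
      · rw [← ht, ← h.ei x]
        ring
    have htiny : 4 * d / Real.exp X * (t⁻¹) ^ 2 ≤ Real.exp (-(11 / 1000) * y') := by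
      have k0 : t⁻¹ = Real.exp (211 / 100 * y') := by
        rw [ht, ex_inv]
        norm_num
      have k3 : (4 * d : ℝ) ≤ Real.exp (4 * d * y) := by
        have := Real.add_one_le_exp (4 * (d : ℝ) * y)
        have : (4 * d : ℝ) * 1 ≤ 4 * d * y := by
          gcongr
          linarith
        linarith
      rw [k0, ex_pow, div_eq_mul_inv, ← Real.exp_neg]
      calc 4 * d * Real.exp (-X) * Real.exp ((2 : ℕ) * (211 / 100) * y') ≤
          Real.exp (4 * d * y) * Real.exp (-X) * Real.exp ((2 : ℕ) * (211 / 100) * y') := by gcongr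
        _ = Real.exp (4 * d * y + -X + (2 : ℕ) * (211 / 100) * y') := by
            rw [← Real.exp_add, ← Real.exp_add]
        _ ≤ _ := by
            apply Real.exp_le_exp.2
            rw [hy']
            push_cast
            linarith
    have hLL : ∀ (E : ℝ) (ur ui : Zd d → ℝ),
        LG d 1 (fun x => Real.exp (-1 * y) * ξ x) a E t ur ui →
        |ui a - Gf E| ≤ 2 * Real.exp (-(11 / 1000) * y') := by
      intro E ur ui h
      refine (ll_local (by omega) (fun x => Real.exp (-1 * y') * (tr X (ξ x) / X)) _ a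
        (Real.exp X) t _ ht0 ht1 (Real.exp_pos _) (fun x hx => ?_) Gf hsm E ur ui h).trans ?_
      · have hx3 : ‖x‖ ≤ 3 * Real.exp X := by
          have := norm_sub_norm_le x a
          linarith
        rw [tr_of X (ξ x) (h2 x hx3)]
        have e1 : Real.exp (-1 * y) = Real.exp (-1 * y') * X⁻¹ := by
          rw [hX, ← Real.exp_neg, ← Real.exp_add, hy']
          congr 1
          ring
        rw [e1, div_eq_mul_inv]
        ring
      · linarith
    have hFF : ∀ (E : ℝ) (ur ui : Zd d → ℝ), LG d 1 (fun _ => 0) a E t ur ui →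
        |ui a - Gf E| ≤ 2 * Real.exp (-(11 / 1000) * y') := by
      intro E ur ui h
      have := hF' 1 (fun _ => 0) a E ur ui (fun x => by ring) (by rw [← ht]; exact h)
      have := Real.exp_pos (-(11 / 1000) * y')
      linarith
    rw [ht] at hLL hFF
    refine detG K y' (2 * Real.exp (-(11 / 1000) * y')) hyone' (by linarith) (by positivity) ?_ ?_
      n4 Gf hGf1 _ a hLL hFF m m0 hr hr0 E s hs
    · have : Real.exp (-(1 / 200) * y') ≤ 1 := Real.exp_le_one_iff.2 (by linarith)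
      have := Real.exp_pos (-(11 / 1000) * y')
      linarith
    · linarith

end Pool.Agent.N933.GS
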